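import Pool.Agent.Y192.FA.Cur
import Pool.Agent.Y333.OG.Least0

/-!
The theorem for irreducible subvarieties of tori: induction on the dimension of the torus.
-/

set_option autoImplicit false

namespace Pool.Agent.Y192.FA

open MvPolynomial FF Pool.Agent.Y192.OG
open Pool.Agent.Y192.KC (lm md HomL St_badG St_desc)
open Pool.Agent.Y487.KG (hyp mem_hyp hyp_sat hyp_ne root_ord lm_lift lm_supp lm_single mul_supp
  hom_mono img mem_img img_sat img_hom)

variable {N ρ r : ℕ}

theorem ord_pow' (c : Curve N) (z : c.P) (f : c.Mr) {s : ℤ}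
    (hs : c.ord z f = (s : WithTop ℤ)) (n : ℕ) : c.ord z (f ^ n) = ((n * s : ℤ) : WithTop ℤ) := by
  obtain ⟨o1, -⟩ := (a_ord N c).1 z trivial
  induction n with
  | zero =>
    rw [pow_zero, ord_one c trivial]
    simp
  | succ n ih =>
    rw [pow_succ, o1, ih, hs, ← WithTop.coe_add]
    congr 1
    push_cast
    ring

theorem bB_nonneg (c : Curve N) : 0 ≤ c.bB :=
  Finset.sum_nonneg fun _ _ => add_nonneg zero_le_one (le_max_right _ _)

theorem ht_le (c : Curve N) (m : Fin N → ℤ) : c.ht m 0 ≤ (∑ i, |(m i : ℝ)|) * c.ch 0 := by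
  have h1 := ((a_ht N c).1 _ (le_refl (c.r0 + 2))).2.2.2.1 m
  exact h1

theorem ht_nn (c : Curve N) (m : Fin N → ℤ) : 0 ≤ c.ht m 0 := by
  have h1 := ((a_ht N c).1 _ (le_refl (c.r0 + 2))).1 m
  exact h1

/-- the characters which are trivial on the stabilizer -/
theorem step1 (hT : FA.St_T) (hd : St_desc) {K : Type} [Field K] [Algebra ℂ K]
    (x : Fin N → Kˣ) (Γ₀ : Submodule ℤ (Fin N → ℤ)) (hs : Sat Γ₀)
    (hom : ∀ g ∈ RingHom.ker (ep x), ∀ q, comp Γ₀ q g ∈ RingHom.ker (ep x))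
    (hmin : ∀ Γ, Sat Γ → (∀ g ∈ RingHom.ker (ep x), ∀ q,
      comp Γ q g ∈ RingHom.ker (ep x)) → Γ₀ ≤ Γ) :
    ∃ (μ : ℕ) (G : Lau N) (C : (Fin N → ℤ) → ℝ), ep x G ≠ 0 ∧ (∀ φ, 0 ≤ C φ) ∧
      ∀ m, μ ≤ m → ∀ c : Curve N,
      (∀ i, ∀ z : c.P, z ∉ c.B → (m : ℤ) ∣ z.ord (c.x i : c.L)) →
      (∀ g, ep x g = 0 → c.ev g = 0) → c.ev G ≠ 0 → ∀ φ ∈ Γ₀, c.ht φ 0 ≤ C φ * c.bB := by
  classical
  obtain ⟨ρ, γ, Γ', -, -, hγ, hm, hΓ', hs', hep, hom', hmin'⟩ :=
    hd N K x Γ₀ Γ₀ hs hs le_rfl hom hmin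
  have htop : ∀ a, a ∈ Γ' := fun a => (hΓ' a).mpr ((hm _).mpr ⟨a, rfl⟩)
  have hspl : Splt Γ' (b := 0) (fun j => j.elim0) (0 : (Fin ρ → ℤ) →+ (Fin 0 → ℤ)) :=
    ⟨fun m => ⟨fun _ => htop m, fun _ => Subsingleton.elim _ _⟩, fun j => j.elim0⟩
  obtain ⟨μ, G', hG', h⟩ := hT ρ K (fun i => xm x (γ i)) Γ' hs' hom' hmin' 0 _ _ hspl 1 1 1
    one_ne_zero squarefree_one one_ne_zero (by simp)
    (fun l hl => absurd (Subsingleton.elim _ _) hl)
  choose a ha using fun φ : Γ₀ => (hm φ).mp φ.2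
  refine ⟨2 * μ + 1, lm γ G', fun φ => if hφ : φ ∈ Γ₀ then (∑ i, |(a ⟨φ, hφ⟩ i : ℝ)|) * (2 * μ : ℕ)
    else 0, by rwa [← hep], fun φ => ?_, fun m hm' c hdiv hv hG φ hφ => ?_⟩
  · beta_reduce
    split_ifs with hφ
    · exact mul_nonneg (Finset.sum_nonneg fun _ _ => abs_nonneg _) (Nat.cast_nonneg _)
    · exact le_rfl
  · beta_reduce
    rw [dif_pos hφ]
    have h1 : (quo c γ).ch 0 ≤ ((2 * μ : ℕ) : ℝ) * (quo c γ).bB := by
      refine ch_le (by omega) (by omega : 2 * μ ≤ m) le_rfl (quo_div hdiv) (h (quo c γ) ?_ ?_ ?_)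
      · intro g hg
        rw [quo_ev]
        apply hv
        rw [← hep]
        exact hg
      · intro z hz
        rw [map_one, ord_one (quo c γ) trivial]
        exact zero_ne_one
      · rw [Ne, quo_ev]
        exact hG
    have h2 := ht_le (quo c γ) (a ⟨φ, hφ⟩)
    rw [quo_ht, ← ha ⟨φ, hφ⟩] at h2
    refine h2.trans ?_
    rw [mul_assoc]
    exact mul_le_mul_of_nonneg_left h1 (Finset.sum_nonneg fun _ _ => abs_nonneg _)

/-- the zeros of finitely many Laurent polynomials whose monomials have bounded heights -/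
theorem zers {ι : Type} [Fintype ι] (c : Curve N) (D : ι → Lau N) (hD : ∀ j, c.ev (D j) ≠ 0)
    (C : (Fin N → ℤ) → ℝ) (h : ∀ j, ∀ m ∈ (D j).coeff.support, c.ht m 0 ≤ C m * c.bB) :
    ∃ T : Finset c.P, (∀ j, ∀ z, z ∉ T → c.ord z (c.ev (D j)) = 0) ∧
      (rst c T).bB ≤ (1 + ∑ j, 2 * ∑ m ∈ (D j).coeff.support, C m) * c.bB := by
  classical
  choose T hT hT' using fun j => zer c (D j) (hD j)
  refine ⟨Finset.univ.biUnion T, fun j z hz => hT j z fun h1 =>
    hz (Finset.mem_biUnion.mpr ⟨j, Finset.mem_univ j, h1⟩), ?_⟩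
  refine (rst_bB c _).trans ?_
  rw [add_mul, one_mul]
  refine add_le_add le_rfl ?_
  calc ((Finset.univ.biUnion T).card : ℝ) ≤ ((∑ j, (T j).card : ℕ) : ℝ) := by
        exact_mod_cast Finset.card_biUnion_le
    _ = ∑ j, ((T j).card : ℝ) := by push_cast; rfl
    _ ≤ ∑ j, 2 * ∑ m ∈ (D j).coeff.support, C m * c.bB :=
        Finset.sum_le_sum fun j _ => (hT' j).trans
          (mul_le_mul_of_nonneg_left (Finset.sum_le_sum fun m hm => h j m hm) (by norm_num))
    _ = _ := by
        rw [Finset.sum_mul]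
        refine Finset.sum_congr rfl fun j _ => ?_
        rw [← Finset.sum_mul, mul_assoc]

theorem t_prime (hl : St_least) (hT : FA.St_T) (hst : FA.St_step) (hd : St_desc) :
    FA.St_prime := by
  classical
  intro N
  induction N using Nat.strong_induction_on with
  | _ N ih =>
  intro r K _ _ x F e hF
  obtain ⟨Γ₀, hs, hom, hmin⟩ := hl N (RingHom.ker (ep x))
  obtain ⟨μ0, G0, C0, hG0, hC0, h0⟩ := step1 hT hd x Γ₀ hs hom hmin
  rcases hst N r K x Γ₀ hs hom hmin F e hF with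
    ⟨l, hl0, hlΓ, A, D, S, a, hA⟩ | ⟨μ, G, W, hG, hW, hWΓ, h⟩
  · -- reduction to a smaller torus
    have hle : Γ₀ ≤ hyp l := fun m hm => hlΓ m hm
    obtain ⟨ρ, γ, Γ', hρ, -, hγ, hmγ, -, -, hep, -, -⟩ :=
      hd N K x Γ₀ (hyp l) hs (hyp_sat l) hle hom hmin
    have hρ' : ρ < N := hρ (hyp_ne l hl0)
    have hA1 : ∀ j, ∃ A', lm γ A' = A j := fun j =>
      lm_lift γ (A j) fun m hm => (hmγ m).mp ((hA j).2.1 m hm)
    choose A' hA' using hA1
    obtain ⟨Γ'', A'', D'', S'', a'', m0'', G'', C'', hs'', hG'', hom'', hj'', hC'', hc''⟩ :=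
      ih ρ hρ' r K (fun i => xm x (γ i)) A' e
        (fun j => by rw [hep, hA']; exact (hA j).2.2.2.1)
    have homl := hom_mono hle hom
    have homi := img_hom x hγ hmγ hep homl hom''
    have hsi := img_sat (hyp_sat l) hγ hmγ hs''
    have hΓi : Γ₀ ≤ img γ Γ'' := hmin _ hsi homi
    choose b hb hb' using fun φ : img γ Γ'' => (mem_img _ _ _).mp φ.2
    set KK : ℝ := 1 + ∑ j, 2 * ∑ m ∈ (D j).coeff.support, C0 m with hKK
    have hKK0 : 0 ≤ KK := by
      rw [hKK]
      exact add_nonneg zero_le_one (Finset.sum_nonneg fun j _ => mul_nonneg (by norm_num)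
        (Finset.sum_nonneg fun m _ => hC0 m))
    refine ⟨img γ Γ'', fun j => lm γ (A'' j), fun j => D j * lm γ (D'' j),
      fun j => S j * lm γ (S'' j), fun j => a j + ∑ i, a'' j i • γ i, max m0'' (max μ0 1),
      (∏ j, (D j * S j * A j * F j)) * lm γ G'' * G0,
      fun φ => if hφ : φ ∈ img γ Γ'' then C'' (b ⟨φ, hφ⟩) * KK else 0,
      hsi, ?_, homi, fun j => ?_, fun φ => ?_, ?_⟩
    · rw [map_mul, map_mul, map_prod, ← hep]
      refine mul_ne_zero (mul_ne_zero (Finset.prod_ne_zero_iff.mpr fun j _ => ?_) hG'') hG0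
      rw [map_mul, map_mul, map_mul]
      exact mul_ne_zero (mul_ne_zero (mul_ne_zero (hA j).2.2.1 (hA j).2.2.2.2.1)
        (hA j).2.2.2.1) (hF j)
    · have hdP : (D j * S j * A j * F j) ∣ ∏ j, (D j * S j * A j * F j) :=
        Finset.dvd_prod_of_mem (fun j => D j * S j * A j * F j) (Finset.mem_univ j)
      refine ⟨mul_supp _ (fun m hm => hΓi ((hA j).1 m hm)) fun m hm => ?_, fun m hm => ?_,
        ?_, ?_, ?_, ?_⟩
      · obtain ⟨b, hb, e1⟩ := lm_supp γ _ m hm
        exact (mem_img _ _ _).mpr ⟨b, (hj'' j).1 b hb, e1⟩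
      · obtain ⟨b, hb, e1⟩ := lm_supp γ _ m hm
        exact (mem_img _ _ _).mpr ⟨b, (hj'' j).2.1 b hb, e1⟩
      · refine (mul_dvd_mul ?_ (map_dvd (lm γ) (hj'' j).2.2.1)).mul_right _
        exact (((dvd_mul_right _ _).mul_right _).mul_right _).trans hdP
      · exact ((map_dvd (lm γ) (hj'' j).2.2.2.1).mul_left _).mul_right _
      · refine (mul_dvd_mul ?_ (map_dvd (lm γ) (hj'' j).2.2.2.2.1)).mul_right _
        exact (((dvd_mul_left _ _).mul_right _).mul_right _).trans hdP
      · have e1 := (hA j).2.2.2.2.2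
        have e2 := (hj'' j).2.2.2.2.2
        rw [hep, hep] at e2
        simp only [map_mul, map_pow, lm_single, hA'] at e1 e2 ⊢
        have e3 : (AddMonoidAlgebra.single (a j + ∑ i, a'' j i • γ i) (1 : ℂ) : Lau N)
            = AddMonoidAlgebra.single (a j) 1
              * AddMonoidAlgebra.single (∑ i, a'' j i • γ i) 1 := by
          rw [AddMonoidAlgebra.single_mul_single, one_mul]
        rw [e3, map_mul]
        linear_combination (ep x (lm γ (D'' j))) * e1
          + (ep x (AddMonoidAlgebra.single (a j) 1)) * (ep x (S j)) ^ e j * e2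
    · beta_reduce
      split_ifs with hφ
      · exact mul_nonneg (hC'' _) hKK0
      · exact le_rfl
    · intro m hm he c hc hv hG φ hφ
      have hm1 : m0'' ≤ m := (le_max_left _ _).trans hm
      have hm2 : μ0 ≤ m := ((le_max_left _ _).trans (le_max_right _ _)).trans hm
      have hG1 : c.ev (∏ j, (D j * S j * A j * F j)) ≠ 0 := by
        intro h1
        apply hG
        rw [map_mul, map_mul, h1, zero_mul, zero_mul]
      have hG2 : c.ev (lm γ G'') ≠ 0 := by
        intro h1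
        apply hG
        rw [map_mul, map_mul, h1, mul_zero, zero_mul]
      have hG3 : c.ev G0 ≠ 0 := by
        intro h1
        apply hG
        rw [map_mul, h1, mul_zero]
      have hG4 : ∀ j, c.ev (D j * S j * A j * F j) ≠ 0 := by
        intro j h1
        apply hG1
        rw [map_prod]
        exact Finset.prod_eq_zero (Finset.mem_univ j) h1
      have hcD : ∀ j, c.ev (D j) ≠ 0 := fun j h1 => hG4 j (by
        rw [map_mul, map_mul, map_mul, h1, zero_mul, zero_mul, zero_mul])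
      have hcS : ∀ j, c.ev (S j) ≠ 0 := fun j h1 => hG4 j (by
        rw [map_mul, map_mul, map_mul, h1, mul_zero, zero_mul, zero_mul])
      have hcA : ∀ j, c.ev (A j) ≠ 0 := fun j h1 => hG4 j (by
        rw [map_mul, map_mul, map_mul, h1, mul_zero, zero_mul])
      have hcF : ∀ j, c.ev (F j) ≠ 0 := fun j h1 => hG4 j (by
        rw [map_mul, map_mul, map_mul, h1, mul_zero])
      have hΓ0 : ∀ φ ∈ Γ₀, c.ht φ 0 ≤ C0 φ * c.bB := h0 m hm2 c hc.div hv hG3
      obtain ⟨T, hT1, hT2⟩ := zers c D hcD C0 fun j m' hm' => hΓ0 m' ((hA j).1 m' hm')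
      have hadm : AdmG A' e m (quo (rst c T) γ) := by
        refine ⟨quo_div (rst_adm hc T).div, fun j _ z hz => ?_⟩
        have hz1 := rst_B (c := c) (T := T) hz
        have eord : (quo (rst c T) γ).ord z ((quo (rst c T) γ).ev (A' j))
            = c.ord z (c.ev (A j)) :=
          (quo_ord (rst c T) γ (A' j) z).trans (by rw [hA']; exact rst_ord c T (A j) z)
        suffices hsuf : ∃ a : ℤ, c.ord z (c.ev (A j)) = ((md m (e j) * a : ℤ) : WithTop ℤ) by
          obtain ⟨a, ha⟩ := hsuf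
          exact ⟨a, eord.trans ha⟩
        have e1 : c.ev (D j * F j)
            = c.ev (A j * AddMonoidAlgebra.single (a j) 1 * S j ^ e j) := by
          rw [← sub_eq_zero, ← map_sub]
          apply hv
          rw [map_sub, sub_eq_zero]
          exact (hA j).2.2.2.2.2
        obtain ⟨o1, -, -, -, -, o6⟩ := (a_ord N c).1 (z : c.P) trivial
        have e2 := congrArg (c.ord z) e1
        rw [map_mul, map_mul, map_mul, map_pow, c.ev_single, one_smul, o1, o1, o1] at e2
        obtain ⟨s, hs⟩ := WithTop.ne_top_iff_exists.mp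
          ((a_ring N c).2.2.2 _ (hcS j) z trivial)
        obtain ⟨t, ht⟩ := WithTop.ne_top_iff_exists.mp
          ((a_ring N c).2.2.2 _ (hcA j) z trivial)
        obtain ⟨f, hf⟩ := hc.root j (hcF j) z hz1.1
        refine root_ord (he j) e2 (hT1 j z hz1.2) hf ht.symm (o6 (a j))
          (ord_pow' c z _ hs.symm (e j)) ?_
        unfold Curve.del
        exact Finset.dvd_sum fun i _ => (hc.div _ z hz1.1).mul_left _
      have hfin := hc'' m hm1 he (quo (rst c T) γ) hadm (fun g hg => ?_) ?_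
      · beta_reduce
        rw [dif_pos hφ]
        have h1 := hfin (b ⟨φ, hφ⟩) (hb ⟨φ, hφ⟩)
        rw [quo_ht, ← hb' ⟨φ, hφ⟩, rst_ht] at h1
        refine h1.trans ?_
        rw [mul_assoc]
        exact mul_le_mul_of_nonneg_left hT2 (hC'' _)
      · rw [quo_ev, rst_ev]
        apply hv
        rw [← hep]
        exact hg
      · rw [Ne, quo_ev, rst_ev]
        exact hG2
  · -- the theorem for curves
    set KK : ℝ := 1 + ∑ _j : Unit, 2 * ∑ m ∈ W.coeff.support, C0 m with hKK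
    have hKK0 : 0 ≤ KK := by
      rw [hKK]
      exact add_nonneg zero_le_one (Finset.sum_nonneg fun j _ => mul_nonneg (by norm_num)
        (Finset.sum_nonneg fun m _ => hC0 m))
    refine ⟨⊤, F, fun _ => 1, fun _ => 1, fun _ => 0, max μ μ0, G * W * G0 * ∏ j, F j,
      fun γ => (∑ i, |(γ i : ℝ)|) * (μ * KK),
      fun _ _ _ _ => Submodule.mem_top, ?_, ?_, fun j => ?_, fun γ => ?_, ?_⟩
    · rw [map_mul, map_mul, map_mul, map_prod]
      exact mul_ne_zero (mul_ne_zero (mul_ne_zero hG hW) hG0)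
        (Finset.prod_ne_zero_iff.mpr fun j _ => hF j)
    · intro g hg q
      rw [Pool.Agent.Y333.OG.comp_top]
      exact hg
    · refine ⟨fun _ _ => Submodule.mem_top, fun _ _ => Submodule.mem_top, one_dvd _, ?_,
        one_dvd _, ?_⟩
      · exact (Finset.dvd_prod_of_mem F (Finset.mem_univ j)).mul_left _
      · rw [one_mul, one_pow, mul_one, ← AddMonoidAlgebra.one_def, mul_one]
    · exact mul_nonneg (Finset.sum_nonneg fun _ _ => abs_nonneg _)
        (mul_nonneg (Nat.cast_nonneg _) hKK0)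
    · intro m hm he c hc hv hGG γ _
      have hm1 : μ ≤ m := (le_max_left _ _).trans hm
      have hm2 : μ0 ≤ m := (le_max_right _ _).trans hm
      have hG1 : c.ev G ≠ 0 := by
        intro h1
        apply hGG
        rw [map_mul, map_mul, map_mul, h1, zero_mul, zero_mul, zero_mul]
      have hG2 : c.ev W ≠ 0 := by
        intro h1
        apply hGG
        rw [map_mul, map_mul, map_mul, h1, mul_zero, zero_mul, zero_mul]
      have hG3 : c.ev G0 ≠ 0 := by
        intro h1
        apply hGG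
        rw [map_mul, map_mul, h1, mul_zero, zero_mul]
      obtain ⟨T, hT1, hT2⟩ := zers c (fun _ : Unit => W) (fun _ => hG2) C0
        fun j m' hm' => h0 m hm2 c hc.div hv hG3 m' (hWΓ m' hm')
      have h1 := h m hm1 (rst c T) (rst_adm hc _)
        (fun g hg => (rst_ev c T g).mpr (hv g hg)) (fun z hz => ?_)
        (fun h2 => hG1 ((rst_ev c T G).mp h2))
      · have h2 := ht_le c γ
        refine h2.trans ?_
        rw [mul_assoc]
        refine mul_le_mul_of_nonneg_left ?_ (Finset.sum_nonneg fun _ _ => abs_nonneg _)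
        refine (show c.ch 0 ≤ _ from h1).trans ?_
        rw [mul_assoc]
        exact mul_le_mul_of_nonneg_left hT2 (Nat.cast_nonneg _)
      · rw [rst_ord c T W z]
        exact hT1 () z (rst_B hz.1).2

end Pool.Agent.Y192.FA
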