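import Pool.Agent.Y192.FA.Defs
import Pool.Agent.Y192.KC.Stm2

/-!
Points of covers of subvarieties of tori over function fields of one variable: statements.
-/

set_option autoImplicit false

namespace Pool.Agent.Y192.FA

open MvPolynomial FF Pool.Agent.Y192.OG
open Pool.Agent.Y192.KC (lm md HomL St_badG St_desc)

variable {N : ℕ}

/-- the weighted number of points in the exceptional set -/
noncomputable def Curve.bB (c : Curve N) : ℝ :=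
  ∑ z ∈ c.B, (1 + max (-(W603.LV.vo z c.D : ℝ)) 0)

/-- points whose coordinates have orders divisible by `m`, and for which the orders of the `F j` are
divisible by `e j` (by `m` if `e j = 0`), outside of the exceptional set -/
structure AdmG {r : ℕ} (F : Fin r → Lau N) (e : Fin r → ℕ) (m : ℕ) (c : Curve N) : Prop where
  div : ∀ i, ∀ z : c.P, z ∉ c.B → (m : ℤ) ∣ z.ord (c.x i : c.L)
  root : ∀ j, c.ev (F j) ≠ 0 → ∀ z : c.P, z ∉ c.B → ∃ a : ℤ,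
    c.ord z (c.ev (F j)) = ((md m (e j) * a : ℤ) : WithTop ℤ)

/-- the value of a Laurent polynomial as an element of the field -/
theorem coe_ev (c : Curve N) (g : Lau N) : ((c.ev g : c.Mr) : c.L) = ep c.x g := by
  induction g using AddMonoidAlgebra.induction_linear with
  | zero => rw [map_zero, map_zero]; rfl
  | add f g hf hg =>
    rw [map_add, map_add, ← hf, ← hg]
    rfl
  | single m a =>
    rw [c.ev_single, ep_single]
    rfl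

theorem ev_eq_zero (c : Curve N) (g : Lau N) : c.ev g = 0 ↔ ep c.x g = 0 := by
  rw [← coe_ev]
  constructor
  · intro h
    rw [h]
    rfl
  · intro h
    exact Subtype.ext h

/-- the theorem for curves, for a squarefree polynomial over the field of the characters which are
trivial on the stabilizer -/
def St_T : Prop :=
  ∀ (N : ℕ) (K : Type) [Field K] [Algebra ℂ K] (x : Fin N → Kˣ) (Γ₀ : Submodule ℤ (Fin N → ℤ)),
    Sat Γ₀ → (∀ g ∈ RingHom.ker (ep x), ∀ q, comp Γ₀ q g ∈ RingHom.ker (ep x)) →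
    (∀ Γ, Sat Γ → (∀ g ∈ RingHom.ker (ep x), ∀ q, comp Γ q g ∈ RingHom.ker (ep x)) → Γ₀ ≤ Γ) →
    ∀ (b : ℕ) (bt : Fin b → Fin N → ℤ) (co : (Fin N → ℤ) →+ (Fin b → ℤ)), Splt Γ₀ bt co →
    ∀ (F : MvPolynomial (Fin b) (F0 x Γ₀)) (g : F0 x Γ₀) (f : Lau N), F ≠ 0 → Squarefree F →
      g ≠ 0 → ep x f = (g : K) * aeval (fun j => (xm x (bt j) : K)) F →
      (∀ l : Fin b → ℤ, l ≠ 0 → ¬ HomL l F) →
    ∃ (μ : ℕ) (G : Lau N), ep x G ≠ 0 ∧ ∀ c : Curve N,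
      (∀ g, ep x g = 0 → c.ev g = 0) → (∀ z ∈ c.U, c.ord z (c.ev f) ≠ 1) → c.ev G ≠ 0 →
      c.ch 0 ≤ μ * c.cnt (fun z => (c.bad z : ℤ)) 0

/-- one step: reduction to a smaller torus, or the theorem for curves -/
def St_step : Prop :=
  ∀ (N r : ℕ) (K : Type) [Field K] [Algebra ℂ K] (x : Fin N → Kˣ)
    (Γ₀ : Submodule ℤ (Fin N → ℤ)), Sat Γ₀ →
    (∀ g ∈ RingHom.ker (ep x), ∀ q, comp Γ₀ q g ∈ RingHom.ker (ep x)) →
    (∀ Γ, Sat Γ → (∀ g ∈ RingHom.ker (ep x), ∀ q, comp Γ q g ∈ RingHom.ker (ep x)) → Γ₀ ≤ Γ) →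
    ∀ (F : Fin r → Lau N) (e : Fin r → ℕ), (∀ j, ep x (F j) ≠ 0) →
    (∃ l : Fin N → ℤ, l ≠ 0 ∧ (∀ m ∈ Γ₀, ∑ i, l i * m i = 0) ∧
      ∃ (A D S : Fin r → Lau N) (a : Fin r → Fin N → ℤ), ∀ j,
        (∀ m ∈ (D j).coeff.support, m ∈ Γ₀) ∧ (∀ m ∈ (A j).coeff.support, ∑ i, l i * m i = 0) ∧
        ep x (D j) ≠ 0 ∧ ep x (A j) ≠ 0 ∧ ep x (S j) ≠ 0 ∧
        ep x (D j * F j) = ep x (A j * AddMonoidAlgebra.single (a j) 1 * S j ^ e j)) ∨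
    ∃ (μ : ℕ) (G W : Lau N), ep x G ≠ 0 ∧ ep x W ≠ 0 ∧ (∀ m ∈ W.coeff.support, m ∈ Γ₀) ∧
      ∀ m, μ ≤ m → ∀ c : Curve N, AdmG F e m c → (∀ g, ep x g = 0 → c.ev g = 0) →
        (∀ z ∈ c.U, c.ord z (c.ev W) = 0) → c.ev G ≠ 0 → c.ch 0 ≤ μ * c.bB

/-- the theorem for an irreducible subvariety of a torus -/
def St_prime : Prop :=
  ∀ (N r : ℕ) (K : Type) [Field K] [Algebra ℂ K] (x : Fin N → Kˣ) (F : Fin r → Lau N)
    (e : Fin r → ℕ), (∀ j, ep x (F j) ≠ 0) →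
    ∃ (Γ : Submodule ℤ (Fin N → ℤ)) (A D S : Fin r → Lau N) (a : Fin r → Fin N → ℤ) (m0 : ℕ)
      (G : Lau N) (C : (Fin N → ℤ) → ℝ), Sat Γ ∧ ep x G ≠ 0 ∧
      (∀ g ∈ RingHom.ker (ep x), ∀ q, comp Γ q g ∈ RingHom.ker (ep x)) ∧
      (∀ j, (∀ m ∈ (D j).coeff.support, m ∈ Γ) ∧ (∀ m ∈ (A j).coeff.support, m ∈ Γ) ∧
        D j ∣ G ∧ A j ∣ G ∧ S j ∣ G ∧
        ep x (D j * F j) = ep x (A j * AddMonoidAlgebra.single (a j) 1 * S j ^ e j)) ∧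
      (∀ γ, 0 ≤ C γ) ∧
      ∀ m, m0 ≤ m → (∀ j, e j ≠ 0 → e j ∣ m) → ∀ c : Curve N, AdmG F e m c →
        (∀ g, ep x g = 0 → c.ev g = 0) → c.ev G ≠ 0 → ∀ γ ∈ Γ, c.ht γ 0 ≤ C γ * c.bB

end Pool.Agent.Y192.FA
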