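import Pool.Agent.Y192.OG.EAll
import Pool.Agent.Y32.KG.BadG
import Pool.Agent.Y379.KG.Desc
import Pool.Agent.Y192.FA.T
import Pool.Agent.Y192.FA.Prime

/-!
The steps together: the theorem for irreducible subvarieties of tori.
-/

set_option autoImplicit false

namespace Pool.Agent.Y192.FA

open Pool.Agent.Y192.OG

theorem T_all : FA.St_T :=
  FA.t_T (Pool.Agent.Y290.OG.t_gr Pool.Agent.Y809.OG.t_split) Pool.Agent.Y809.OG.t_comp

theorem step_all : FA.St_step :=
  FA.t_step Pool.Agent.Y32.KG.t_badG T_all Pool.Agent.Y809.OG.t_split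
    Pool.Agent.Y290.OG.t_lift

theorem prime_all : FA.St_prime :=
  FA.t_prime Pool.Agent.Y333.OG.t_least T_all step_all Pool.Agent.Y379.KG.t_desc

end Pool.Agent.Y192.FA
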