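import Pool.Agent.Y192.FA.Tl
import Pool.Agent.Y192.OG.StC

/-!
The comparison relation, small monomials, and the induction statement.
-/

set_option autoImplicit false

namespace Pool.Agent.Y192.FA

open Filter Set Topology FF Pool.Agent.Y192.OG

section LeLemmas

variable {T A B C D : ℕ → ℝ}

theorem Le.trans (h1 : Le T A B) (h2 : Le T B C) : Le T A C := by
  intro δ hδ
  filter_upwards [h1 (δ / 2) (by linarith), h2 (δ / 2) (by linarith)] with n h3 h4
  linarith

theorem Le.add (h1 : Le T A B) (h2 : Le T C D) : Le T (fun n => A n + C n) (fun n => B n + D n) := by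
  intro δ hδ
  filter_upwards [h1 (δ / 2) (by linarith), h2 (δ / 2) (by linarith)] with n h3 h4
  linarith

theorem Le.of_le (hT : ∀ n, 0 ≤ T n) (h : ∀ n, A n ≤ B n) : Le T A B := by
  intro δ hδ
  refine Eventually.of_forall fun n => ?_
  have := mul_nonneg hδ.le (hT n)
  linarith [h n]

theorem Le.mul (hT : ∀ n, 0 ≤ T n) {a : ℝ} (ha : 0 ≤ a) (h : Le T A B) :
    Le T (fun n => a * A n) (fun n => a * B n) := by
  rcases ha.eq_or_lt with h0 | h0
  · subst h0
    exact Le.of_le hT fun n => by simp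
  · intro δ hδ
    filter_upwards [h (δ / a) (by positivity)] with n h1
    have h2 := mul_le_mul_of_nonneg_left h1 ha
    have e : a * (B n + δ / a * T n) = a * B n + δ * T n := by field_simp
    linarith

theorem Le.sum (hT : ∀ n, 0 ≤ T n) {ι : Type*} (s : Finset ι) {X Y : ι → ℕ → ℝ}
    (h : ∀ i ∈ s, Le T (X i) (Y i)) : Le T (fun n => ∑ i ∈ s, X i n) (fun n => ∑ i ∈ s, Y i n) := by
  classical
  induction s using Finset.induction_on with
  | empty => exact Le.of_le hT fun n => by simp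
  | insert a s ha ih =>
    have h1 := (h a (Finset.mem_insert_self a s)).add
      (ih fun i hi => h i (Finset.mem_insert_of_mem hi))
    simpa only [Finset.sum_insert ha] using h1

end LeLemmas

variable {N : ℕ} {c : Curve N} {F : c.Mr}

/-- monomials of small height -/
def Sm (r : Rad c F) (ε : ℝ) (m : Fin N → ℤ) : Prop :=
  Le (fun n => c.ch (r.s n)) (fun n => c.ht m (r.s n)) (fun n => ε * c.ch (r.s n))

theorem ch_nonneg (hht : St_ht) (r : Rad c F) (n : ℕ) : 0 ≤ c.ch (r.s n) :=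
  ((hht N c).1 _ (r.hs n)).2.2.2.2.1

theorem ht_nonneg (hht : St_ht) (r : Rad c F) (n : ℕ) (m : Fin N → ℤ) : 0 ≤ c.ht m (r.s n) :=
  ((hht N c).1 _ (r.hs n)).1 m

theorem ch_pos (r : Rad c F) : ∀ᶠ n in atTop, 0 < c.ch (r.s n) := by
  exact Eventually.of_forall fun n => r.pos _

theorem Sm.mono (hht : St_ht) {r : Rad c F} {ε ε' : ℝ} {m : Fin N → ℤ} (h : Sm r ε m)
    (hε : ε ≤ ε') : Sm r ε' m :=
  Le.trans h (Le.of_le (ch_nonneg hht r) fun n =>
    mul_le_mul_of_nonneg_right hε (ch_nonneg hht r n))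

theorem sm_elim (hht : St_ht) {φ γ0 γ : Fin N → ℤ} {n k : ℤ} (hn : n ≠ 0)
    (h : n • φ = γ0 + k • γ) {ε' : ℝ} (hε' : 0 < ε') :
    ∃ ε0 : ℝ, 0 < ε0 ∧ ∀ (c : Curve N) (F : c.Mr) (r : Rad c F), Sm r ε0 γ0 → Sm r ε0 γ →
      Sm r ε' φ := by
  refine ⟨ε' / (1 + |(k : ℝ)|), by positivity, ?_⟩
  intro c F r h0 h1
  have hT := ch_nonneg hht r
  have h2 : Le (fun n => c.ch (r.s n)) (fun i => c.ht φ (r.s i))
      (fun i => c.ht γ0 (r.s i) + |(k : ℝ)| * c.ht γ (r.s i)) := by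
    apply Le.of_le hT
    intro i
    obtain ⟨a1, a2, a3, a4, a5, a6⟩ := (hht N c).1 _ (r.hs i)
    have b1 := a3 n φ
    have b2 := a2 γ0 (k • γ)
    rw [a3 k γ, ← h, b1] at b2
    have b3 : (1 : ℝ) ≤ |(n : ℝ)| := by
      have : 1 ≤ |n| := Int.one_le_abs hn
      exact_mod_cast this
    have b4 := a1 φ
    nlinarith
  refine Le.trans h2 (Le.trans (Le.add h0 (Le.mul hT (abs_nonneg (k : ℝ)) h1)) ?_)
  apply Le.of_le hT
  intro i
  have e : ε' / (1 + |(k : ℝ)|) * c.ch (r.s i) + |(k : ℝ)| * (ε' / (1 + |(k : ℝ)|) * c.ch (r.s i))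
      = ε' * c.ch (r.s i) := by
    have : (1 + |(k : ℝ)|) ≠ 0 := by positivity
    field_simp
  exact le_of_eq e

/-- control of Laurent polynomials supported in one class -/
theorem ctl_ev (hctl : St_ctl) (r : Rad c F) (Φ : Finset (Fin N → ℤ)) (g : Lau N)
    (m0 : Fin N → ℤ) (h : ∀ m ∈ g.coeff.support, m - m0 ∈ Φ) :
    Ctl r (c.ev g) (fun z => c.lam z m0) (fun z => c.del z m0) Φ 1 := by
  classical
  obtain ⟨h1, h2, h3, h4, h5, h6, h7, h8, h9⟩ := hctl N c F r Φ
  have hz : Ctl r (0 : c.Mr) (fun z => c.lam z m0) (fun z => c.del z m0) Φ 1 := by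
    have := h8 0 _ _ _ _ (h9 _ _ _ 0 1 (by norm_num) (h1 m0))
    rwa [zero_smul] at this
  have hterm : ∀ m : Fin N → ℤ, m - m0 ∈ Φ → ∀ x : ℂ,
      Ctl r (x • c.mon m) (fun z => c.lam z m0) (fun z => c.del z m0) Φ 1 := by
    intro m hm x
    apply h8
    have := h6 _ _ _ _ _ _ _ _ (h1 m0) (h2 _ hm)
    rw [← c.mon_add, add_sub_cancel] at this
    simpa using this
  have hg : g = ∑ m ∈ g.coeff.support, AddMonoidAlgebra.single m (g.coeff m) := by
    conv_lhs => rw [← AddMonoidAlgebra.sum_coeff_single g]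
    rfl
  have key : ∀ s : Finset (Fin N → ℤ), (∀ m ∈ s, m - m0 ∈ Φ) →
      Ctl r (∑ m ∈ s, g.coeff m • c.mon m) (fun z => c.lam z m0) (fun z => c.del z m0) Φ 1 := by
    intro s
    induction s using Finset.induction_on with
    | empty => exact fun _ => hz
    | insert m s hm ih =>
      intro hs
      rw [Finset.sum_insert hm]
      exact h7 _ _ _ _ _ (hterm m (hs m (Finset.mem_insert_self _ _)) _)
        (ih fun m hm => hs m (Finset.mem_insert_of_mem hm))
  have e : c.ev g = ∑ m ∈ g.coeff.support, g.coeff m • c.mon m := by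
    conv_lhs => rw [hg]
    rw [map_sum]
    exact Finset.sum_congr rfl fun m _ => c.ev_single m _
  rw [e]
  exact key _ h

/-- a relation between controlled functions gives a small monomial -/
theorem rel_small (hcirc : St_circ) (hcl : St_cl) (hctl : St_ctl) (hht : St_ht) (hcnt : St_cnt)
    (hord : St_ord) (hF : F ≠ 0) (r : Rad c F) (Φ : Finset (Fin N → ℤ)) (w : ℕ) {ι : Type}
    [Fintype ι] (e : ι → c.Mr) (m : ι → Fin N → ℤ) (hne : ∀ i, e i ≠ 0)
    (hdep : ¬ LinearIndependent ℂ e)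
    (hc : ∀ i, Ctl r (e i) (fun z => c.lam z (m i)) (fun z => c.del z (m i)) Φ w) :
    ∃ i j, i ≠ j ∧ Le (fun n => c.ch (r.s n)) (fun n => c.ht (m i - m j) (r.s n))
      (fun n => 2 * (Fintype.card ι * w) * ∑ φ ∈ Φ, c.ht φ (r.s n)
        + 2 * (Fintype.card ι * w + (Fintype.card ι : ℝ) ^ 2)
          * c.cnt (fun z => (c.bad z : ℤ)) (r.s n)) := by
  classical
  obtain ⟨k, j, a, hk, hj, ha, hsum, hind⟩ := hcirc _ ι e hne hdep
  obtain ⟨-, -, -, -, -, -, -, h8, -⟩ := hctl N c F r Φ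
  have h1 := hcl N c F r Φ w k (fun i => m (j i)) (fun _ => 0) (fun i => a i • e (j i))
    (fun _ => 0) hF hk (fun i => by
      have := h8 (a i) _ _ _ _ (hc (j i))
      simpa using this) hsum hind (fun _ => Nat.zero_le _) (fun _ => le_rfl) (by
      simp [Curve.LocFin]) (by
      rintro z - ⟨i, hi⟩ -
      exact absurd rfl hi) 0 1 rfl rfl
  have h01 : (0 : Fin (k + 1)) ≠ 1 := by
    intro h
    have := congrArg Fin.val h
    rcases k with _ | k
    · omega
    · simp at this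
  refine ⟨j 0, j 1, fun h => h01 (hj h), Le.trans h1 ?_⟩
  have hT := ch_nonneg hht r
  apply Le.of_le hT
  intro n
  have hkc : ((k : ℝ)) ≤ Fintype.card ι := by
    have := Fintype.card_le_of_injective j hj
    rw [Fintype.card_fin] at this
    have h2 : k ≤ Fintype.card ι := by omega
    exact_mod_cast h2
  have c0 : c.cnt (fun z => (((0 : ℤ)) : ℝ)) (r.s n) = 0 := by
    unfold Curve.cnt
    simp
  have c1 : 0 ≤ c.cnt (fun z => (c.bad z : ℤ)) (r.s n) := by
    obtain ⟨-, -, g3, -⟩ := hcnt N c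
    have hl : c.LocFin (fun z => (c.bad z : ℤ)) := (hord N c).2.2.2.2.2.2.1
    have h0 : c.LocFin (fun _ => (0 : ℝ)) := by
      simp [Curve.LocFin]
    have := g3 _ _ h0 hl (fun z _ => by
      exact_mod_cast ((hord N c).2.2.2.1 z).1) (r.s n)
    have e0 : c.cnt (fun _ => (0 : ℝ)) (r.s n) = 0 := by
      unfold Curve.cnt
      simp
    rw [e0] at this
    exact this
  have c2 : 0 ≤ ∑ φ ∈ Φ, c.ht φ (r.s n) := Finset.sum_nonneg fun φ _ => ht_nonneg hht r n φ
  rw [c0, add_zero]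
  have hk0 : (0 : ℝ) ≤ k := Nat.cast_nonneg k
  have hw0 : (0 : ℝ) ≤ w := Nat.cast_nonneg w
  have hkw : (k : ℝ) * w ≤ Fintype.card ι * w := mul_le_mul_of_nonneg_right hkc hw0
  have hkk : (k : ℝ) ^ 2 ≤ (Fintype.card ι : ℝ) ^ 2 := pow_le_pow_left₀ hk0 hkc 2
  have e1 := mul_le_mul_of_nonneg_right hkw c2
  have e2 := mul_le_mul_of_nonneg_right (add_le_add hkw hkk) c1
  linarith

end Pool.Agent.Y192.FA
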