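import Pool.Agent.Y192.FA.Asm3

/-!
The two cases: a linear relation with small coefficients, or many independent functions.
-/

set_option autoImplicit false

namespace Pool.Agent.Y192.FA

open Filter Set Topology FF Pool.Agent.Y192.OG

variable {N : ℕ}

/-- the box of exponents -/
noncomputable def box {b : ℕ} (n : Fin b → ℕ) : Finset (Fin b →₀ ℕ) :=
  (Fintype.piFinset fun i => Finset.range (n i)).map Finsupp.equivFunOnFinite.symm.toEmbedding

theorem mem_box {b : ℕ} {n : Fin b → ℕ} {β : Fin b →₀ ℕ} : β ∈ box n ↔ ∀ i, β i < n i := by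
  unfold box
  rw [Finset.mem_map_equiv]
  simp

theorem card_box {b : ℕ} (n : Fin b → ℕ) : (box n).card = ∏ i, n i := by
  unfold box
  rw [Finset.card_map, Fintype.card_piFinset]
  simp

theorem mb_add {b : ℕ} (bt : Fin b → Fin N → ℤ) (β γ : Fin b →₀ ℕ) :
    mb bt (β + γ) = mb bt β + mb bt γ := by
  unfold mb
  rw [← Finset.sum_add_distrib]
  refine Finset.sum_congr rfl fun j _ => ?_
  rw [Finsupp.add_apply]
  push_cast
  module

variable {c : Curve N} {F : c.Mr}

theorem mon_mul_ne (c : Curve N) {x : c.Mr} (hx : x ≠ 0) (m : Fin N → ℤ) : x * c.mon m ≠ 0 := by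
  intro h
  apply hx
  have h1 := congrArg (fun y => y * c.mon (-m)) h
  simp only [zero_mul] at h1
  rwa [mul_assoc, ← c.mon_add, add_neg_cancel, c.mon_zero, mul_one] at h1

theorem eval_eq (c : Curve N) {b : ℕ} (bt : Fin b → Fin N → ℤ) (Q : MvPolynomial (Fin b) c.Mr) :
    MvPolynomial.eval (fun j => (tt c bt j : c.Mr)) Q
      = ∑ γ ∈ Q.support, MvPolynomial.coeff γ Q * c.mon (mb bt γ) := by
  rw [MvPolynomial.eval_eq']
  exact Finset.sum_congr rfl fun γ _ => by rw [prod_tt]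

/-- counting functions of nonnegative divisors -/
theorem cnt_nonneg (hcnt : St_cnt) (c : Curve N) {E : c.P → ℝ} (hE : c.LocFin E)
    (h : ∀ z, 0 ≤ E z) (R : ℝ) : 0 ≤ c.cnt E R := by
  obtain ⟨-, -, g3, -⟩ := hcnt N c
  have h0 : c.LocFin (fun _ => (0 : ℝ)) := by
    simp [Curve.LocFin]
  have := g3 _ _ h0 hE (fun z _ => h z) R
  have e0 : c.cnt (fun _ => (0 : ℝ)) R = 0 := by
    unfold Curve.cnt
    simp
  rw [e0] at this
  exact this

theorem bad_cnt_nonneg (hcnt : St_cnt) (hord : St_ord) (c : Curve N) (R : ℝ) :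
    0 ≤ c.cnt (fun z => (c.bad z : ℤ)) R := by
  apply cnt_nonneg hcnt c (hord N c).2.2.2.2.2.2.1
  intro z
  exact_mod_cast ((hord N c).2.2.2.1 z).1

/-- orders of derivatives on `U` -/
theorem p2U (hord : St_ord) {z : c.P} (hz : z ∈ c.U) {f : c.Mr} {k : ℤ}
    (h : (k : WithTop ℤ) ≤ c.ord z f) : ((k - 1 : ℤ) : WithTop ℤ) ≤ c.ord z (c.Dr f) := by
  have h1 := ((hord N c).1 z trivial).2.2.2.2.1 f k h
  rwa [(hord N c).2.2.1 z hz, max_eq_left (by norm_num)] at h1

/-- the case of a linear relation -/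
theorem dep_case (hcirc : St_circ) (hcl : St_cl) (hctl : St_ctl) (hht : St_ht) (hcnt : St_cnt)
    (hord : St_ord) (hF : F ≠ 0) (r : Rad c F) (Φ : Finset (Fin N → ℤ)) {b : ℕ}
    (bt : Fin b → Fin N → ℤ) (n : Fin b → ℕ) (w : ℕ) (cc : MvPolynomial (Fin b) c.Mr)
    (hcc : cc ≠ 0) (hw : ∀ β ∈ cc.support, Ctl r (MvPolynomial.coeff β cc) (fun _ => 0)
      (fun _ => 0) Φ w)
    (hn : ∀ β ∈ cc.support, ∀ i, β i < n i)
    (h0 : MvPolynomial.eval (fun j => (tt c bt j : c.Mr)) cc = 0) :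
    ∃ β ∈ box n, ∃ γ ∈ box n, β ≠ γ ∧ Le (fun i => c.ch (r.s i))
      (fun i => c.ht (mb bt β - mb bt γ) (r.s i))
      (fun i => 2 * ((box n).card * w) * ∑ φ ∈ Φ, c.ht φ (r.s i)
        + 2 * ((box n).card * w + ((box n).card : ℝ) ^ 2)
          * c.cnt (fun z => (c.bad z : ℤ)) (r.s i)) := by
  classical
  obtain ⟨h1, h2, h3, h4, h5, h6, h7, h8, h9⟩ := hctl N c F r Φ
  rw [eval_eq] at h0
  have hsne : cc.support.Nonempty := by
    rw [Finset.nonempty_iff_ne_empty]
    intro h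
    exact hcc (MvPolynomial.support_eq_empty.mp h)
  obtain ⟨β0, hβ0⟩ := hsne
  obtain ⟨i, j, hij, hle⟩ := rel_small hcirc hcl hctl hht hcnt hord hF r Φ w
    (fun β : cc.support => MvPolynomial.coeff (β : Fin b →₀ ℕ) cc * c.mon (mb bt β))
    (fun β => mb bt β)
    (fun β => mon_mul_ne c (MvPolynomial.mem_support_iff.mp β.2) _)
    (Fintype.not_linearIndependent_iff.mpr ⟨fun _ => 1, by
      simp only [one_smul]
      rw [← h0]
      exact Finset.sum_coe_sort cc.support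
        fun β => MvPolynomial.coeff β cc * c.mon (mb bt β), ⟨β0, hβ0⟩, one_ne_zero⟩)
    (fun β => by
      have := h6 _ _ _ _ _ _ _ _ (hw β β.2) (h1 (mb bt β))
      simpa only [zero_add, add_zero] using this)
  refine ⟨i, mem_box.mpr (hn i i.2), j, mem_box.mpr (hn j j.2), fun h => hij (Subtype.ext h),
    Le.trans hle ?_⟩
  apply Le.of_le (ch_nonneg hht r)
  intro k
  have hcard : (Fintype.card cc.support : ℝ) ≤ (box n).card := by
    rw [Fintype.card_coe]
    exact_mod_cast Finset.card_le_card fun β hβ => mem_box.mpr (hn β hβ)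
  have c1 := bad_cnt_nonneg hcnt hord c (r.s k)
  have c2 : 0 ≤ ∑ φ ∈ Φ, c.ht φ (r.s k) := Finset.sum_nonneg fun φ _ => ht_nonneg hht r k φ
  have hk0 : (0 : ℝ) ≤ (Fintype.card cc.support : ℝ) := Nat.cast_nonneg _
  have hw0 : (0 : ℝ) ≤ w := Nat.cast_nonneg w
  have hkw : (Fintype.card cc.support : ℝ) * w ≤ (box n).card * w :=
    mul_le_mul_of_nonneg_right hcard hw0
  have hkk : (Fintype.card cc.support : ℝ) ^ 2 ≤ ((box n).card : ℝ) ^ 2 :=
    pow_le_pow_left₀ hk0 hcard 2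
  have e1 := mul_le_mul_of_nonneg_right hkw c2
  have e2 := mul_le_mul_of_nonneg_right (add_le_add hkw hkk) c1
  linarith

/-- multiplicity minus one of the zeros of the function in `U` -/
noncomputable def rho (c : Curve N) (F : c.Mr) (z : c.P) : ℤ := by
  classical
  exact if z ∈ c.U ∧ c.vz F z then (c.ord z F).untop₀ - 1 else 0

theorem rho_spec (hring : St_ring) (hcnt : St_cnt) (hord : St_ord) (hF : F ≠ 0)
    (two : ∀ z ∈ c.U, c.vz F z → (2 : WithTop ℤ) ≤ c.ord z F) :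
    (∀ z, 0 ≤ rho c F z) ∧ (∀ z, z ∉ c.U → rho c F z = 0) ∧
      c.LocFin (fun z => (rho c F z : ℤ)) ∧ (∀ z ∈ c.U, c.vz F z → 1 ≤ rho c F z) ∧
      ∀ z ∈ c.U, ((rho c F z : ℤ) : WithTop ℤ) ≤ c.ord z (c.Dr F) ∧
        ((rho c F z : ℤ) : WithTop ℤ) ≤ c.ord z F := by
  classical
  have hint : ∀ z ∈ c.U, ((c.ord z F).untop₀ : WithTop ℤ) = c.ord z F := fun z hz =>
    WithTop.coe_untop₀_of_ne_top ((hring N c).2.2.2 F hF z (c.U_sub hz))
  have htwo : ∀ z ∈ c.U, c.vz F z → 2 ≤ (c.ord z F).untop₀ := by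
    intro z hz h
    have := two z hz h
    rw [← hint z hz] at this
    have h2 : ((2 : ℤ) : WithTop ℤ) ≤ (((c.ord z F).untop₀ : ℤ) : WithTop ℤ) := this
    exact WithTop.coe_le_coe.mp h2
  have hpos : ∀ z, 0 ≤ rho c F z := by
    intro z
    unfold rho
    split_ifs with h
    · have := htwo z h.1 h.2
      omega
    · exact le_rfl
  refine ⟨hpos, ?_, ?_, ?_, ?_⟩
  · intro z hz
    unfold rho
    rw [if_neg fun h => hz h.1]
  · refine (hcnt N c).2.2.2 _ _ ((hord N c).2.2.2.2.2.1 F hF) fun z _ => ?_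
    have h0 := hpos z
    rw [abs_of_nonneg (by exact_mod_cast h0)]
    unfold rho
    split_ifs with h
    · have := htwo z h.1 h.2
      rw [abs_of_nonneg (by exact_mod_cast (by omega : 0 ≤ (c.ord z F).untop₀))]
      push_cast
      linarith
    · simp
  · intro z hz h
    unfold rho
    rw [if_pos ⟨hz, h⟩]
    have := htwo z hz h
    omega
  · intro z hz
    have hzE := c.U_sub hz
    obtain ⟨-, -, -, p1, p2, -⟩ := (hord N c).1 z hzE
    by_cases h : c.vz F z
    · have e : rho c F z = (c.ord z F).untop₀ - 1 := by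
        unfold rho
        rw [if_pos ⟨hz, h⟩]
      rw [e]
      refine ⟨p2U hord hz (hint z hz).le, ?_⟩
      rw [← hint z hz]
      exact_mod_cast (by omega : (c.ord z F).untop₀ - 1 ≤ (c.ord z F).untop₀)
    · have e : rho c F z = 0 := by
        unfold rho
        rw [if_neg fun hh => h hh.2]
      rw [e]
      exact ⟨p1 hz _, p1 hz _⟩

end Pool.Agent.Y192.FA
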