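import Pool.Agent.Y192.FA.Asm7

/-!
Multiplicities of the zeros, without a lower bound for the multiplicities.
-/

set_option autoImplicit false

namespace Pool.Agent.Y192.FA

open Filter Set Topology FF Pool.Agent.Y192.OG

variable {N : ℕ} {c : Curve N} {F : c.Mr}

/-- zeros have positive order -/
theorem one_le_ord {z : c.P} (hz : z ∈ c.U) (h : c.vz F z) : (1 : WithTop ℤ) ≤ c.ord z F := by
  exact h

theorem rho_spec' (hF : F ≠ 0) :
    (∀ z, 0 ≤ rho c F z) ∧ (∀ z, z ∉ c.U → rho c F z = 0) ∧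
      c.LocFin (fun z => (rho c F z : ℤ)) ∧
      ∀ z ∈ c.U, ((rho c F z : ℤ) : WithTop ℤ) ≤ c.ord z (c.Dr F) ∧
        ((rho c F z : ℤ) : WithTop ℤ) ≤ c.ord z F := by
  classical
  have hint : ∀ z ∈ c.U, ((c.ord z F).untop₀ : WithTop ℤ) = c.ord z F := fun z hz =>
    WithTop.coe_untop₀_of_ne_top ((a_ring N c).2.2.2 F hF z (c.U_sub hz))
  have htwo : ∀ z ∈ c.U, c.vz F z → 1 ≤ (c.ord z F).untop₀ := by
    intro z hz h
    have := one_le_ord hz h
    rw [← hint z hz] at this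
    have h2 : ((1 : ℤ) : WithTop ℤ) ≤ (((c.ord z F).untop₀ : ℤ) : WithTop ℤ) := this
    exact WithTop.coe_le_coe.mp h2
  have hpos : ∀ z, 0 ≤ rho c F z := by
    intro z
    unfold rho
    split_ifs with h
    · have := htwo z h.1 h.2
      omega
    · exact le_rfl
  refine ⟨hpos, ?_, ?_, ?_⟩
  · intro z hz
    unfold rho
    rw [if_neg fun h => hz h.1]
  · refine (a_cnt N c).2.2.2 _ _ ((a_ord N c).2.2.2.2.2.1 F hF) fun z _ => ?_
    have h0 := hpos z
    rw [abs_of_nonneg (by exact_mod_cast h0)]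
    unfold rho
    split_ifs with h
    · have := htwo z h.1 h.2
      rw [abs_of_nonneg (by exact_mod_cast (by omega : 0 ≤ (c.ord z F).untop₀))]
      push_cast
      linarith
    · simp
  · intro z hz
    have hzE := c.U_sub hz
    obtain ⟨-, -, -, p1, p2, -⟩ := (a_ord N c).1 z hzE
    by_cases h : c.vz F z
    · have e : rho c F z = (c.ord z F).untop₀ - 1 := by
        unfold rho
        rw [if_pos ⟨hz, h⟩]
      rw [e]
      refine ⟨p2U a_ord hz (hint z hz).le, ?_⟩
      rw [← hint z hz]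
      exact_mod_cast (by omega : (c.ord z F).untop₀ - 1 ≤ (c.ord z F).untop₀)
    · have e : rho c F z = 0 := by
        unfold rho
        rw [if_neg fun hh => h hh.2]
      rw [e]
      exact ⟨p1 hz _, p1 hz _⟩

theorem ind_case' (hF : F ≠ 0) (r : Rad c F)
    (Φ : Finset (Fin N → ℤ)) {b : ℕ}
    (bt : Fin b → Fin N → ℤ) (hbt : Function.Injective bt) (m0 : Fin N → ℤ)
    (P : MvPolynomial (Fin b) c.Mr) [IsDomain c.Mr]
    (hPe : MvPolynomial.eval (fun j => (tt c bt j : c.Mr)) P = c.mon m0 * F)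
    (hP0 : P ≠ 0) (L L' : Submodule ℂ c.Mr) [FiniteDimensional ℂ L] [FiniteDimensional ℂ L']
    (K w B : ℕ) (hdeg : ∀ i, P.degreeOf i ≤ K) (hB : ∀ i, K + P.degreeOf i ≤ B)
    (hcop : IsRelPrime (MvPolynomial.map (algebraMap c.Mr (FractionRing c.Mr)) P)
      (MvPolynomial.map (algebraMap c.Mr (FractionRing c.Mr)) (DP c.Dr (tt c bt) P)))
    (hcoef : ∀ x ∈ L, ∀ β, x * MvPolynomial.coeff β P ∈ L' ∧
      x * MvPolynomial.coeff β (DP c.Dr (tt c bt) P) ∈ L')
    (hind : ∀ cc : MvPolynomial (Fin b) c.Mr, (∀ β, MvPolynomial.coeff β cc ∈ L') →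
      (∀ β ∈ cc.support, ∀ i, β i < K + P.degreeOf i) →
      MvPolynomial.eval (fun j => (tt c bt j : c.Mr)) cc = 0 → cc = 0)
    (hw : ∀ x ∈ L', Ctl r x (fun _ => 0) (fun _ => 0) Φ w) :
    ∃ M : ℕ, 2 * K ^ b * Module.finrank ℂ L
        ≤ M + (∏ i, (K - P.degreeOf i)) * Module.finrank ℂ L ∧
      M ≤ Module.finrank ℂ L' * ∏ i, (K + P.degreeOf i) ∧
      Le (fun n => c.ch (r.s n)) (fun n => M * c.cnt (fun z => (rho c F z : ℤ)) (r.s n))
      (fun n => (((Module.finrank ℂ L' * ∏ i, (K + P.degreeOf i) : ℕ) : ℝ) - M) * B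
          * ∑ j, c.ht (bt j) (r.s n)
        + M * w * ∑ φ ∈ Φ, c.ht φ (r.s n)
        + (M * w + M ^ 2) * c.cnt (fun z => (c.bad z : ℤ)) (r.s n)) := by
  classical
  set Q := DP c.Dr (tt c bt) P with hQ
  obtain ⟨q1, q2⟩ := a_DPeval c.Mr c.Dr b (tt c bt) P
  have hQe : MvPolynomial.eval (fun j => (tt c bt j : c.Mr)) Q = c.Dr (c.mon m0 * F) := by
    rw [hQ, q1, hPe]
  set n : Fin b → ℕ := fun i => K + P.degreeOf i with hn
  set V : Submodule ℂ c.Mr := Submodule.span ℂ {y : c.Mr | ∃ x ∈ L, ∃ β : Fin b →₀ ℕ,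
        (∀ i, β i < K) ∧ (y = x * (∏ i, (tt c bt i : c.Mr) ^ β i)
            * MvPolynomial.eval (fun j => (tt c bt j : c.Mr)) P ∨
          y = x * (∏ i, (tt c bt i : c.Mr) ^ β i)
            * MvPolynomial.eval (fun j => (tt c bt j : c.Mr)) Q)} with hV
  obtain ⟨hVf, hVd⟩ := a_dim c.Mr b (tt c bt) P Q L L' K hP0 hcop q2 hdeg inferInstance hcoef
    hind V hV
  haveI := hVf
  have hb1 := basis_fun V
  have hb2 := basis_fun L'
  set M := Module.finrank ℂ V with hM
  set l' := Module.finrank ℂ L' with hl'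
  obtain ⟨f, hfi, hfV, -⟩ := hb1
  obtain ⟨κ, -, hκ, hκs⟩ := hb2
  -- the functions
  set cb := (box n).card with hcb
  let ι := (box n).equivFin
  let be : Fin (l' * cb) → (Fin b →₀ ℕ) := fun i => (ι.symm (finProdFinEquiv.symm i).2 : box n)
  let e : Fin (l' * cb) → c.Mr := fun i =>
    κ (finProdFinEquiv.symm i).1 * c.mon (mb bt (be i))
  have hbe : ∀ i, be i ∈ box n := fun i => (ι.symm (finProdFinEquiv.symm i).2).2
  obtain ⟨h1, h2, h3, h4, h5, h6, h7, h8, h9⟩ := a_ctl N c F r Φ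
  -- spanning
  have hspan1 : ∀ y ∈ L', ∀ γ ∈ box n, y * c.mon (mb bt γ) ∈ Submodule.span ℂ (Set.range e) := by
    intro y hy γ hγ
    obtain ⟨a, ha⟩ := hκs y hy
    rw [ha, Finset.sum_mul]
    apply Submodule.sum_mem
    intro j _
    rw [smul_mul_assoc]
    apply Submodule.smul_mem
    apply Submodule.subset_span
    refine ⟨finProdFinEquiv (j, ι ⟨γ, hγ⟩), ?_⟩
    simp only [e, be, Equiv.symm_apply_apply]
  have hspan2 : ∀ x ∈ L, ∀ β : Fin b →₀ ℕ, (∀ i, β i < K) → ∀ R : MvPolynomial (Fin b) c.Mr,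
      (∀ γ, x * MvPolynomial.coeff γ R ∈ L') → (∀ i, R.degreeOf i ≤ P.degreeOf i) →
      x * (∏ i, (tt c bt i : c.Mr) ^ β i) * MvPolynomial.eval (fun j => (tt c bt j : c.Mr)) R
        ∈ Submodule.span ℂ (Set.range e) := by
    intro x _ β hβ R hR hRd
    rw [prod_tt, eval_eq, Finset.mul_sum]
    apply Submodule.sum_mem
    intro γ hγ
    have e1 : x * c.mon (mb bt β) * (MvPolynomial.coeff γ R * c.mon (mb bt γ))
        = (x * MvPolynomial.coeff γ R) * c.mon (mb bt (β + γ)) := by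
      rw [mb_add, c.mon_add]
      ring
    rw [e1]
    apply hspan1 _ (hR γ)
    rw [mem_box]
    intro i
    have h12 := MvPolynomial.monomial_le_degreeOf i hγ
    have h13 := hRd i
    have h14 := hβ i
    rw [Finsupp.add_apply]
    simp only [hn]
    omega
  have hVs : V ≤ Submodule.span ℂ (Set.range e) := by
    rw [hV, Submodule.span_le]
    rintro y ⟨x, hx, β, hβ, h | h⟩
    · rw [h]
      exact hspan2 x hx β hβ P (fun γ => (hcoef x hx γ).1) fun i => le_rfl
    · rw [h]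
      exact hspan2 x hx β hβ Q (fun γ => (hcoef x hx γ).2) q2
  -- orders
  obtain ⟨r1, r2, r3, r5⟩ := rho_spec' (c := c) hF
  have hVo : ∀ z ∈ c.U, ∀ y ∈ V, ((rho c F z : ℤ) : WithTop ℤ) ≤ c.ord z y := by
    intro z hz y hy
    obtain ⟨o1, o2, o3, o4, o5, o6⟩ := (a_ord N c).1 z (c.U_sub hz)
    obtain ⟨s1, s2⟩ := r5 z hz
    rw [hV] at hy
    induction hy using Submodule.span_induction with
    | mem y hy =>
      obtain ⟨x, hx, β, hβ, h | h⟩ := hy
      · rw [h, hPe, o1, o1 (c.mon m0) F]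
        exact le_add_of_nonneg_of_le (o4 hz _) (le_add_of_nonneg_of_le (o4 hz _) s2)
      · rw [h, hQe, o1]
        apply le_add_of_nonneg_of_le (o4 hz _)
        rw [Derivation.leibniz, smul_eq_mul, smul_eq_mul]
        refine le_trans (le_min ?_ ?_) (o2 _ _)
        · rw [o1]
          exact le_add_of_nonneg_of_le (o4 hz _) s1
        · rw [o1]
          exact le_add_of_le_of_nonneg s2 (o4 hz _)
    | zero =>
      rw [ord_zero]
      exact le_top
    | add x y _ _ hx hy => exact le_trans (le_min hx hy) (o2 _ _)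
    | smul a x _ hx => exact le_trans hx (o3 _ _)
  -- the exponents
  set Ψ : Finset (Fin N → ℤ) := Finset.univ.image bt with hΨ
  have hm : ∀ i, ∃ bb : (Fin N → ℤ) → ℤ, (∀ ψ ∈ Ψ, |bb ψ| ≤ B) ∧
      mb bt (be i) = ∑ ψ ∈ Ψ, bb ψ • ψ := by
    intro i
    refine ⟨fun ψ => ∑ j, if bt j = ψ then ((be i) j : ℤ) else 0, ?_, ?_⟩
    · intro ψ hψ
      obtain ⟨j, _, rfl⟩ := Finset.mem_image.mp hψ
      have e1 : (∑ j', if bt j' = bt j then ((be i) j' : ℤ) else 0) = (be i) j := by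
        rw [Finset.sum_eq_single j]
        · rw [if_pos rfl]
        · intro j' _ hj'
          rw [if_neg fun h => hj' (hbt h)]
        · intro h
          exact absurd (Finset.mem_univ j) h
      beta_reduce
      rw [e1, abs_of_nonneg (Int.natCast_nonneg _)]
      have h12 := mem_box.mp (hbe i) j
      have h13 := hB j
      simp only [hn] at h12
      exact_mod_cast (by omega : (be i) j ≤ B)
    · rw [hΨ, Finset.sum_image fun a _ b _ h => hbt h]
      unfold mb
      refine Finset.sum_congr rfl fun j _ => ?_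
      congr 1
      beta_reduce
      rw [Finset.sum_eq_single j]
      · rw [if_pos rfl]
      · intro j' _ hj'
        rw [if_neg fun h => hj' (hbt h)]
      · intro h
        exact absurd (Finset.mem_univ j) h
  obtain ⟨g1, g2⟩ := a_gwl N c F r Φ Ψ w B (l' * cb) M (fun i => mb bt (be i)) e f (rho c F)
    (fun i => by
      have := h6 _ _ _ _ _ _ _ _ (hw _ (hκ (finProdFinEquiv.symm i).1))
        (h1 (mb bt (be i)))
      simpa only [zero_add, add_zero] using this)
    hm hfi (fun j => hVs (hfV j)) r1 r2 r3 (fun z hz j => hVo z hz _ (hfV j))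
  have hcard : cb = ∏ i, (K + P.degreeOf i) := by rw [hcb, card_box]
  refine ⟨M, hVd, by rw [← hcard]; exact g1, ?_⟩
  rw [← hcard]
  have hsum : ∀ i, ∑ ψ ∈ Ψ, c.ht ψ (r.s i) = ∑ j, c.ht (bt j) (r.s i) := by
    intro i
    rw [hΨ, Finset.sum_image fun a _ b _ h => hbt h]
  simp only [hsum] at g2
  exact g2

end Pool.Agent.Y192.FA
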