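import Pool.Agent.Y192.FA.B4

/-!
The second main theorem for the terms, and small heights from relations.
-/

set_option autoImplicit false

namespace Pool.Agent.Y192.FA

open Filter Set Topology FF Pool.Agent.Y192.OG

variable {N : ℕ} {c : Curve N} {F : c.Mr}

/-- the quantity which measures the zeros of `F` and the proximity to zero -/
noncomputable def dfc (c : Curve N) (F : c.Mr) (T : Finset (Fin N → ℤ)) (hT : T.Nonempty)
    (R : ℝ) : ℝ :=
  Curve.cav (c := c) (lmT c T hT) 0 R - c.cnt (fun z => (nuT c F T hT z : ℤ)) R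

/-- the second main theorem with truncation, modulo the multiplicities -/
theorem smt1 (hF : F ≠ 0) (r : Rad c F) (Φ : Finset (Fin N → ℤ)) {b : ℕ}
    (bt : Fin b → Fin N → ℤ) (m0 : Fin N → ℤ) (S : Finset (Fin b →₀ ℕ)) (hS : S.Nonempty)
    (pp : (Fin b →₀ ℕ) → Lau N) (T : Finset (Fin N → ℤ)) (hT : T.Nonempty)
    (hTS : T = S.image fun β => mb bt β - m0)
    (hΦ : ∀ β ∈ S, ∀ m ∈ (pp β).coeff.support, m ∈ Φ)
    (hsum : c.mon m0 * F = ∑ β ∈ S, c.ev (pp β) * c.mon (mb bt β))
    (hli : ∀ a : (Fin b →₀ ℕ) → ℂ, ∑ β ∈ S, (a β • c.ev (pp β)) * c.mon (mb bt β) = 0 →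
      ∀ β ∈ S, a β = 0) :
    Le (fun n => c.ch (r.s n)) (fun n => dfc c F T hT (r.s n))
      (fun n => c.cnt (fun z => (rho c F z : ℤ)) (r.s n)
        + (S.card * (1 : ℕ) * ∑ φ ∈ Φ, c.ht φ (r.s n)
          + (S.card * (1 : ℕ) + (S.card : ℝ) ^ 2) * c.cnt (fun z => (c.bad z : ℤ)) (r.s n))) := by
  classical
  obtain ⟨h1, h2, h3, h4, h5, h6, h7, h8, h9⟩ := a_ctl N c F r Φ
  have hint : ∀ z ∈ c.E, ((c.ord z F).untop₀ : WithTop ℤ) = c.ord z F := fun z hz =>
    WithTop.coe_untop₀_of_ne_top ((a_ring N c).2.2.2 F hF z hz)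
  set k := S.card with hk
  have hk1 : 1 ≤ k := Finset.card_pos.mpr hS
  let ι : Fin k → (Fin b →₀ ℕ) := fun i => (S.equivFin.symm i : S)
  have hι : ∀ i, ι i ∈ S := fun i => (S.equivFin.symm i).2
  have hιs : ∀ β ∈ S, ∃ i, ι i = β := fun β hβ => ⟨S.equivFin ⟨β, hβ⟩, by simp [ι]⟩
  have hιi : Function.Injective ι := fun i j h =>
    S.equivFin.symm.injective (Subtype.ext h)
  have hre : ∀ g : (Fin b →₀ ℕ) → c.Mr, ∑ i, g (ι i) = ∑ β ∈ S, g β := by
    intro g
    rw [← Finset.sum_coe_sort S g]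
    exact Fintype.sum_equiv S.equivFin.symm _ _ fun i => rfl
  -- the data
  let n0 : c.P → ℤ := fun z => if z ∈ c.U then 0 else c.del z m0 + (c.ord z F).untop₀
  let lm : Fin (k + 1) → c.P → ℝ := Fin.cons (α := fun _ => c.P → ℝ)
    (fun z => c.lam z m0 + c.lv F z) fun i z => c.lam z (mb bt (ι i))
  let nu : Fin (k + 1) → c.P → ℤ := Fin.cons (α := fun _ => c.P → ℤ) n0
    fun i z => c.del z (mb bt (ι i))
  let e : Fin (k + 1) → c.Mr := Fin.cons (α := fun _ => c.Mr) (-(c.mon m0 * F))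
    fun i => c.ev (pp (ι i)) * c.mon (mb bt (ι i))
  have hn0 : ∀ z ∈ c.E, n0 z + rho c F z + zr c F z = c.del z m0 + (c.ord z F).untop₀ := by
    intro z hz
    by_cases hU : z ∈ c.U
    · have e1 : n0 z = 0 := if_pos hU
      rw [e1, (a_ord N c).2.1 z hU m0]
      by_cases h0 : c.vz F z
      · have e2 : rho c F z = (c.ord z F).untop₀ - 1 := by
          unfold rho
          rw [if_pos ⟨hU, h0⟩]
        have e3 : zr c F z = 1 := by
          unfold zr
          rw [if_pos ⟨hU, h0⟩]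
        rw [e2, e3]
        ring
      · have e2 : rho c F z = 0 := by
          unfold rho
          rw [if_neg fun h => h0 h.2]
        have e3 : zr c F z = 0 := by
          unfold zr
          rw [if_neg fun h => h0 h.2]
        have e4 : c.ord z F = 0 := by
          exact ord_of_not_vz hF hU h0
        rw [e2, e3, e4]
        simp
    · have e1 : n0 z = c.del z m0 + (c.ord z F).untop₀ := if_neg hU
      have e2 : rho c F z = 0 := by
        unfold rho
        rw [if_neg fun h => hU h.1]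
      rw [e1, e2, zr_of_notMem hU]
      ring
  obtain ⟨q1, q2, q3, q4⟩ := rho_spec' (c := c) hF
  -- counting functions
  have pdel : ∀ (R : ℝ) m', Pc c R (fun z => (c.del z m' : ℤ)) (c.cnt (fun z => (c.del z m' : ℤ)) R) :=
    fun R m' => ⟨(a_ord N c).2.2.2.2.2.2.2 m', rfl⟩
  have pF : ∀ R : ℝ, Pc c R (fun z => ((c.ord z F).untop₀ : ℤ))
      (c.cnt (fun z => ((c.ord z F).untop₀ : ℤ)) R) := fun R => ⟨(a_ord N c).2.2.2.2.2.1 F hF, rfl⟩
  have prho : ∀ R : ℝ, Pc c R (fun z => (rho c F z : ℤ)) (c.cnt (fun z => (rho c F z : ℤ)) R) :=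
    fun R => ⟨q3, rfl⟩
  have pzr : ∀ R : ℝ, Pc c R (fun z => (zr c F z : ℤ)) (c.cnt (fun z => (zr c F z : ℤ)) R) :=
    fun R => ⟨locFin_zr hF, rfl⟩
  have pdT : ∀ R : ℝ, Pc c R (fun z => (dT c T hT z : ℤ)) (c.cnt (fun z => (dT c T hT z : ℤ)) R) :=
    fun R => ⟨locFin_dT, rfl⟩
  have hn0' : ∀ z, z ∈ c.E → ((n0 z : ℤ) : ℝ)
      = (((c.del z m0 : ℤ) : ℝ) + ((c.ord z F).untop₀ : ℤ))
        + (-1) * (((rho c F z : ℤ) : ℝ) + (zr c F z : ℤ)) := by
    intro z hz
    have := hn0 z (ext_of_le hz)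
    have h' : ((n0 z + rho c F z + zr c F z : ℤ) : ℝ) = ((c.del z m0 + (c.ord z F).untop₀ : ℤ) : ℝ) := by
      rw [this]
    push_cast at h'
    linarith
  have pn0 : ∀ R : ℝ, Pc c R (fun z => ((n0 z : ℤ) : ℝ))
      ((c.cnt (fun z => (c.del z m0 : ℤ)) R + c.cnt (fun z => ((c.ord z F).untop₀ : ℤ)) R)
        + (-1) * (c.cnt (fun z => (rho c F z : ℤ)) R + c.cnt (fun z => (zr c F z : ℤ)) R)) := by
    intro R
    have hA := ((pdel R m0).add a_cnt (pF R)).add a_cnt
      (((prho R).add a_cnt (pzr R)).smul a_cnt (-1))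
    refine ⟨(a_cnt N c).2.2.2 _ _ hA.1 fun z hz => le_of_eq (by rw [hn0' z hz]), ?_⟩
    rw [← hA.2]
    exact cnt_congr hn0'
  have key := a_cl2 N c F r Φ 1 k e lm nu (fun z => lmT c T hT z + c.lam z m0)
    (fun z => (dT c T hT z : ℝ) + (c.del z m0 : ℝ)) hk1 (by
      intro i
      refine Fin.cases ?_ (fun i => ?_) i
      · have hh := h8 (-1) _ _ _ _ (h6 _ _ _ _ _ _ _ _ (h1 m0) (h5 hF))
        rw [neg_one_smul] at hh
        refine ctl_weak 0 hh (Finset.Subset.refl _) (by norm_num) (fun z _ => ?_) fun z hz => ?_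
        · have e9 : lm 0 z = c.lam z m0 + c.lv F z := rfl
          rw [e9]
          push_cast
          linarith
        · change n0 z ≤ _
          have g1 := hn0 z hz
          have g2 := q1 z
          have g3 := zr_nonneg (c := c) (F := F) z
          push_cast
          linarith
      · have := h6 _ _ _ _ _ _ _ _ (ctl_pp a_ctl r Φ (pp (ι i)) (hΦ _ (hι i)))
          (h1 (mb bt (ι i)))
        simpa [e, lm, nu] using this)
    (by
      rw [Fin.sum_univ_succ]
      change -(c.mon m0 * F) + ∑ i : Fin k, c.ev (pp (ι i)) * c.mon (mb bt (ι i)) = 0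
      rw [hre fun β => c.ev (pp β) * c.mon (mb bt β), ← hsum, neg_add_cancel])
    (by
      change LinearIndependent ℂ fun i : Fin k => c.ev (pp (ι i)) * c.mon (mb bt (ι i))
      rw [Fintype.linearIndependent_iff]
      intro g hg i
      set a : (Fin b →₀ ℕ) → ℂ := fun β => ∑ j, if ι j = β then g j else 0 with ha
      have haι : ∀ j, a (ι j) = g j := by
        intro j
        simp only [ha]
        rw [Finset.sum_eq_single j]
        · rw [if_pos rfl]
        · intro j' _ hj'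
          rw [if_neg fun h => hj' (hιi h)]
        · intro h
          exact absurd (Finset.mem_univ j) h
      rw [← haι i]
      apply hli a _ _ (hι i)
      rw [← hre fun β => (a β • c.ev (pp β)) * c.mon (mb bt β), ← hg]
      refine Finset.sum_congr rfl fun j _ => ?_
      rw [haι, smul_mul_assoc])
    (by
      intro z hz i
      have e0 : nu 0 z = 0 := if_pos hz
      refine Fin.cases ?_ (fun i => ?_) i
      · exact ⟨rfl, e0.ge⟩
      · have e1 : nu i.succ z = 0 := (a_ord N c).2.1 z hz _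
        exact ⟨e1.trans e0.symm, e1.ge⟩)
    (by
      intro i
      refine Fin.cases ?_ (fun i => ?_) i
      · exact (pn0 0).1
      · exact (pdel 0 _).1)
    (by
      intro i n
      obtain ⟨-, -, -, -, -, i1, i2⟩ := (a_ht N c).1 _ (r.hs n)
      refine Fin.cases ?_ (fun i => ?_) i
      · trivial
      · trivial)
    (by
      intro z _
      obtain ⟨m, hm, hmax⟩ := exists_lmT (c := c) (hT := hT) z
      rw [hTS] at hm
      obtain ⟨β, hβ, rfl⟩ := Finset.mem_image.mp hm
      obtain ⟨i, rfl⟩ := hιs β hβ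
      refine ⟨i.succ, ?_⟩
      change lmT c T hT z + c.lam z m0 ≤ c.lam z (mb bt (ι i))
      rw [hmax, lam_sub]
      linarith)
    (by
      intro n
      obtain ⟨-, -, -, -, -, i1, i2⟩ := (a_ht N c).1 _ (r.hs n)
      trivial)
    (by
      intro z _
      obtain ⟨m, hm, hmin⟩ := exists_dT (c := c) (hT := hT) z
      rw [hTS] at hm
      obtain ⟨β, hβ, rfl⟩ := Finset.mem_image.mp hm
      obtain ⟨i, rfl⟩ := hιs β hβ
      refine ⟨i.succ, ?_⟩
      change ((c.del z (mb bt (ι i)) : ℤ) : ℝ) ≤ _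
      rw [hmin, del_sub]
      push_cast
      linarith)
    ((pdT 0).add a_cnt (pdel 0 m0)).1
  -- Jensen
  obtain ⟨C0, hC0, hJ0⟩ := jen_abs r m0
  have hJβ := fun i : Fin k => jen_abs r (mb bt (ι i))
  choose Cβ hCβ hJβ using hJβ
  obtain ⟨CF, hCF0, hCF⟩ := jen_F hF
  refine Le.trans (B := fun n => (Curve.cav (c := c) (fun z => lmT c T hT z + c.lam z m0) 0 (r.s n)
        - c.cnt (fun z => (dT c T hT z : ℝ) + (c.del z m0 : ℝ)) (r.s n))
      - (∑ i, (Curve.cav (c := c) (lm i) 0 (r.s n) - c.cnt (fun z => (nu i z : ℤ)) (r.s n)))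
      + c.cnt (fun z => (rho c F z : ℤ)) (r.s n))
    (Le.of_log r (2 * C0 + |CF| + ∑ i, Cβ i) (by rw [hC0, hCF0]; simp [hCβ]) fun n => ?_) ?_
  · obtain ⟨-, -, -, -, -, i1, i2⟩ := (a_ht N c).1 _ (r.hs n)
    set R := r.s n with hR
    have hlog : 0 ≤ 1 + Real.log R := by
      have h1 := r.hs n
      have h2 := c.hr0
      have := Real.log_nonneg (by linarith : (1 : ℝ) ≤ r.s n)
      linarith
    have m1 : Curve.cav (c := c) (fun z => lmT c T hT z + c.lam z m0) 0 R
        = Curve.cav (c := c) (lmT c T hT) 0 R + Curve.cav (c := c) (fun z => c.lam z m0) 0 R :=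
      by simp only [cav_eq, add_zero]
    have m2 : c.cnt (fun z => (dT c T hT z : ℝ) + (c.del z m0 : ℝ)) R
        = c.cnt (fun z => (dT c T hT z : ℤ)) R + c.cnt (fun z => (c.del z m0 : ℤ)) R :=
      ((pdT R).add a_cnt (pdel R m0)).2
    have m3 : dfc c F T hT R = Curve.cav (c := c) (lmT c T hT) 0 R
        - (c.cnt (fun z => (dT c T hT z : ℤ)) R + c.cnt (fun z => (zr c F z : ℤ)) R) := by
      unfold dfc
      rw [← ((pdT R).add a_cnt (pzr R)).2]
      congr 2
      funext z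
      unfold nuT
      push_cast
      rfl
    have m4 : Curve.cav (c := c) (lm 0) 0 R = Curve.cav (c := c) (fun z => c.lam z m0) 0 R
        + Curve.cav (c := c) (fun z => c.lv F z) 0 R :=
      by simp only [cav_eq, add_zero]
    have m5 : c.cnt (fun z => (nu 0 z : ℤ)) R
        = (c.cnt (fun z => (c.del z m0 : ℤ)) R + c.cnt (fun z => ((c.ord z F).untop₀ : ℤ)) R)
        + (-1) * (c.cnt (fun z => (rho c F z : ℤ)) R + c.cnt (fun z => (zr c F z : ℤ)) R) :=
      (pn0 R).2
    have m6 : ∑ i : Fin k, (Curve.cav (c := c) (lm i.succ) 0 R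
        - c.cnt (fun z => (nu i.succ z : ℤ)) R) ≤ (∑ i, Cβ i) * (1 + Real.log R) := by
      rw [Finset.sum_mul]
      exact Finset.sum_le_sum fun i _ => (abs_le.mp (hJβ i n)).2
    rw [Fin.sum_univ_succ, m1, m2, m3, m4, m5]
    have j0 := abs_le.mp (hJ0 n)
    have jF := abs_le.mp ((hCF R (r.hs n)).trans (mul_le_mul_of_nonneg_right (le_abs_self CF) hlog))
    rw [← hR] at j0
    have j1 := j0.1
    have j2 := jF.2
    have j3 : 0 ≤ C0 * (1 + Real.log R) := mul_nonneg hC0.ge hlog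
    linarith
  · intro δ hδ
    filter_upwards [key δ hδ] with n hn
    linarith

end Pool.Agent.Y192.FA
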