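import Pool.Agent.Y192.FA.C4

/-!
Algebraic relations on covers, in a field which contains the ring of functions.
-/

set_option autoImplicit false

namespace Pool.Agent.Y192.FA.E

open Filter Set Topology FF Pool.Agent.Y192.OG

variable {N : ℕ} {R K : Type} [CommRing R] [IsDomain R] [Algebra ℂ R] [Field K] [Algebra ℂ K]
  [Algebra R K] [IsScalarTower ℂ R K]

variable (K) in
/-- the functions `h i / f ^ k` and the characters in `Γ₀`, in the function field of the cover -/
def Gn (j : Lau N →ₐ[ℂ] R) (f : Lau N) (k : ℕ) {s : ℕ} (h : Fin s → R)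
    (Γ₀ : Submodule ℤ (Fin N → ℤ)) : Set K :=
  Set.range (fun i => algebraMap R K (h i)
      / algebraMap R K (j f) ^ k) ∪
    {y | ∃ φ ∈ Γ₀, y = algebraMap R K (j (AddMonoidAlgebra.single φ 1))}

variable {j : Lau N →ₐ[ℂ] R} {f : Lau N} {k : ℕ} {s : ℕ} {h : Fin s → R}
  {Γ₀ Γ : Submodule ℤ (Fin N → ℤ)} {T : Finset (Fin N → ℤ)} {hT : T.Nonempty}

theorem adj (hinj : Function.Injective (algebraMap R K)) (hf : j f ≠ 0) (hroot : ∀ i, UC j f k h Γ T hT k (h i))
    (hfn : UC j f k h Γ T hT 1 (j f)) (hle : Γ₀ ≤ Γ) (a : K)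
    (ha : a ∈ Algebra.adjoin ℂ (Gn K j f k h Γ₀)) :
    ∃ D0 : ℕ, ∀ D ≥ D0, ∃ A : R, UC j f k h Γ T hT (k * D) A ∧
      algebraMap R K A = algebraMap R K (j f) ^ (k * D) * a := by
  have hf' : algebraMap R K (j f) ≠ 0 := fun h0 =>
    hf (hinj (by rw [h0, map_zero]))
  have hpow : ∀ n, UC j f k h Γ T hT n (j f ^ n) := fun n => by
    have := UC.pow hfn n
    rwa [one_mul] at this
  induction ha using Algebra.adjoin_induction with
  | mem a ha =>
    rcases ha with ⟨i, rfl⟩ | ⟨φ, hφ, rfl⟩
    · refine ⟨1, fun D hD => ⟨h i * j f ^ (k * (D - 1)), ?_, ?_⟩⟩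
      · have := UC.mul (hroot i) (hpow (k * (D - 1)))
        have e : k + k * (D - 1) = k * D := by
          obtain ⟨D', rfl⟩ : ∃ D', D = D' + 1 := ⟨D - 1, by omega⟩
          rw [Nat.add_sub_cancel]
          ring
        rwa [e] at this
      · rw [map_mul, map_pow]
        have e : k * D = k * (D - 1) + k := by
          obtain ⟨D', rfl⟩ : ∃ D', D = D' + 1 := ⟨D - 1, by omega⟩
          rw [Nat.add_sub_cancel]
          ring
        rw [e, pow_add]
        field_simp
    · refine ⟨0, fun D _ => ⟨j f ^ (k * D) * j (AddMonoidAlgebra.single φ 1), ?_, ?_⟩⟩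
      · have := UC.mul (hpow (k * D)) (UC.mon (j := j) (f := f) (k := k) (h := h) (T := T)
          (hT := hT) (hle hφ))
        rwa [add_zero] at this
      · rw [map_mul, map_pow]
  | algebraMap x =>
    refine ⟨0, fun D _ => ⟨j f ^ (k * D) * algebraMap ℂ R x, ?_, ?_⟩⟩
    · have := UC.mul (hpow (k * D)) (UC.const (j := j) (f := f) (k := k) (h := h) (Γ := Γ)
        (T := T) (hT := hT) x)
      rwa [add_zero] at this
    · rw [map_mul, map_pow, ← IsScalarTower.algebraMap_apply]
  | add a b _ _ ha hb =>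
    obtain ⟨D1, h1⟩ := ha
    obtain ⟨D2, h2⟩ := hb
    refine ⟨max D1 D2, fun D hD => ?_⟩
    obtain ⟨A, a1, a2⟩ := h1 D ((le_max_left _ _).trans hD)
    obtain ⟨B, b1, b2⟩ := h2 D ((le_max_right _ _).trans hD)
    exact ⟨A + B, a1.add b1, by rw [map_add, a2, b2, mul_add]⟩
  | mul a b _ _ ha hb =>
    obtain ⟨D1, h1⟩ := ha
    obtain ⟨D2, h2⟩ := hb
    refine ⟨D1 + D2, fun D hD => ?_⟩
    obtain ⟨A, a1, a2⟩ := h1 D1 le_rfl
    obtain ⟨B, b1, b2⟩ := h2 (D - D1) (by omega)
    have e : k * D = k * D1 + k * (D - D1) := by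
      rw [← mul_add]
      congr 1
      omega
    refine ⟨A * B, ?_, ?_⟩
    · rw [e]
      exact a1.mul b1
    · rw [map_mul, a2, b2, e, pow_add]
      ring

theorem rel_of (hinj : Function.Injective (algebraMap R K)) (hf : j f ≠ 0) (hroot : ∀ i, UC j f k h Γ T hT k (h i))
    (hfn : UC j f k h Γ T hT 1 (j f)) (hle : Γ₀ ≤ Γ) (x : R)
    (hx : IsAlgebraic (Algebra.adjoin ℂ (Gn K j f k h Γ₀)) (algebraMap R K x)) :
    ∃ (e L : ℕ) (A : ℕ → R), (∀ l ≤ L, UC j f k h Γ T hT e (A l)) ∧
      ∑ l ∈ Finset.range (L + 1), A l * x ^ l = 0 ∧ A L ≠ 0 := by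
  classical
    have hf' : algebraMap R K (j f) ≠ 0 := fun h0 => hf (hinj (by rw [h0, map_zero]))
  obtain ⟨p, hp, hpx⟩ := hx
  have h1 := fun l : ℕ => adj hinj hf hroot hfn hle (p.coeff l : K) (p.coeff l).2
  choose D0 h1 using h1
  set L := p.natDegree with hL
  set D := (Finset.range (L + 1)).sup D0 with hD
  have h2 : ∀ l : ℕ, ∃ A : R, l ≤ L → UC j f k h Γ T hT (k * D) A ∧
      algebraMap R K A
        = algebraMap R K (j f) ^ (k * D) * (p.coeff l : K) := by
    intro l
    by_cases hl : l ≤ L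
    · obtain ⟨A, hA⟩ := h1 l D (Finset.le_sup (f := D0) (Finset.mem_range.mpr (by omega)))
      exact ⟨A, fun _ => hA⟩
    · exact ⟨0, fun h => absurd h hl⟩
  choose A hA using h2
  refine ⟨k * D, L, A, fun l hl => (hA l hl).1, ?_, ?_⟩
  · apply hinj
    rw [map_sum, map_zero]
    have e1 : ∑ l ∈ Finset.range (L + 1), algebraMap R K (A l * x ^ l)
        = algebraMap R K (j f) ^ (k * D)
          * ∑ l ∈ Finset.range (L + 1), (p.coeff l : K)
            * algebraMap R K x ^ l := by
      rw [Finset.mul_sum]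
      refine Finset.sum_congr rfl fun l hl => ?_
      rw [map_mul, map_pow, (hA l (by have := Finset.mem_range.mp hl; omega)).2]
      ring
    rw [e1]
    have e2 : ∑ l ∈ Finset.range (L + 1), (p.coeff l : K)
            * algebraMap R K x ^ l = 0 := by
      rw [Polynomial.aeval_eq_sum_range] at hpx
      rw [← hpx]
      refine Finset.sum_congr rfl fun l _ => ?_
      rw [Algebra.smul_def]
      rfl
    rw [e2, mul_zero]
  · intro h0
    have h3 := (hA L le_rfl).2
    rw [h0, map_zero] at h3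
    have h4 := (mul_eq_zero.mp h3.symm).resolve_left (pow_ne_zero _ hf')
    have h5 : p.coeff L = 0 := Subtype.ext h4
    exact hp (Polynomial.leadingCoeff_eq_zero.mp h5)

/-- a nonzero function on the cover divides a nonzero function on the base -/
theorem exc (hint : (j : Lau N →+* R).IsIntegral) {A : R} (hA : A ≠ 0) :
    ∃ G : Lau N, j G ≠ 0 ∧ A ∣ j G := by
  obtain ⟨p, hp, hpA⟩ := hint A
  have key : ∀ (n : ℕ) (p : Polynomial (Lau N)), p.Monic → p.natDegree ≤ n →
      p.eval₂ (j : Lau N →+* R) A = 0 → ∃ G : Lau N, j G ≠ 0 ∧ A ∣ j G := by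
    intro n
    induction n with
    | zero =>
      intro p hp hn h0
      exfalso
      have : p = 1 := Polynomial.eq_one_of_monic_natDegree_zero hp (Nat.le_zero.mp hn)
      rw [this, Polynomial.eval₂_one] at h0
      exact one_ne_zero h0
    | succ n ih =>
      intro p hp hn h0
      have h1 := Polynomial.X_mul_divX_add p
      have h2 : A * p.divX.eval₂ (j : Lau N →+* R) A + j (p.coeff 0) = 0 := by
        rw [← h1, Polynomial.eval₂_add, Polynomial.eval₂_mul, Polynomial.eval₂_X,
          Polynomial.eval₂_C] at h0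
        exact h0
      by_cases h3 : j (p.coeff 0) = 0
      · rw [h3, add_zero] at h2
        have h4 := (mul_eq_zero.mp h2).resolve_left hA
        by_cases h5 : p.natDegree = 0
        · exfalso
          have : p = 1 := Polynomial.eq_one_of_monic_natDegree_zero hp h5
          rw [this, Polynomial.eval₂_one] at h0
          exact one_ne_zero h0
        · refine ih p.divX ?_ ?_ h4
          · unfold Polynomial.Monic Polynomial.leadingCoeff
            rw [Polynomial.natDegree_divX_eq_natDegree_tsub_one, Polynomial.coeff_divX,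
              Nat.sub_add_cancel (Nat.one_le_iff_ne_zero.mpr h5)]
            exact hp
          · rw [Polynomial.natDegree_divX_eq_natDegree_tsub_one]
            omega
      · refine ⟨p.coeff 0, h3, ⟨-p.divX.eval₂ (j : Lau N →+* R) A, ?_⟩⟩
        linear_combination h2
  exact key _ p hp le_rfl hpA

end Pool.Agent.Y192.FA.E
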