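import Pool.Agent.Y192.FA.C5

/-!
The theorem for curves in finite covers of subvarieties of tori: general form.
-/

set_option autoImplicit false

namespace Pool.Agent.Y192.FA.E

open Filter Set Topology FF Pool.Agent.Y192.OG

variable {N : ℕ} {R K : Type} [CommRing R] [IsDomain R] [Algebra ℂ R] [Field K] [Algebra ℂ K]
  [Algebra R K] [IsScalarTower ℂ R K]

/-- the class of curves -/
def ACl (j : Lau N →ₐ[ℂ] R) (f : Lau N) (k : ℕ) {s : ℕ} (h : Fin s → R) (μ : ℕ)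
    (c : Curve N) : Prop :=
  (∀ R, μ * c.cnt (fun z => (c.bad z : ℤ)) R ≤ c.ch R) ∧
    ∃ η : R →ₐ[ℂ] c.Mr, Lf j f k h c η

theorem gc_ACl (j : Lau N →ₐ[ℂ] R) (f : Lau N) (k : ℕ) {s : ℕ} (h : Fin s → R) :
    GC (RingHom.ker j) (ACl j f k h) where
  mono := fun {μ μ' c} hμ hc => ⟨fun R => by
    have h1 := hc.1 R
    have h2 := bad_cnt_nonneg a_cnt a_ord c R
    have h3 : (μ' : ℝ) ≤ μ := by exact_mod_cast hμ
    nlinarith, hc.2⟩
  van := fun {μ c} hc g hg => by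
    obtain ⟨η, hη⟩ := hc.2
    rw [← hη.ext, (RingHom.mem_ker).mp hg, map_zero]
  ram := fun {μ c} hc => hc.1

variable {j : Lau N →ₐ[ℂ] R} {f : Lau N} {k : ℕ} {s : ℕ} {h : Fin s → R}
  {Γ₀ Γ : Submodule ℤ (Fin N → ℤ)}

theorem caseBY (hinj : Function.Injective (algebraMap R K)) (hint : (j : Lau N →+* R).IsIntegral) (hf : j f ≠ 0)
    (hrad : GR (RingHom.ker j) f Γ₀) (hΓ : Sat Γ) (hle : Γ₀ ≤ Γ)
    (hom0 : ∀ g ∈ RingHom.ker j, ∀ q, comp Γ₀ q g ∈ RingHom.ker j)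
    (hom : ∀ g ∈ RingHom.ker j, ∀ q, comp Γ q g ∈ RingHom.ker j)
    (H2 : ∀ i, ∃ (d : ℕ) (a : ℕ → Lau N),
      h i ^ d + ∑ l ∈ Finset.Icc 1 d, j (a l) * h i ^ (d - l) = 0 ∧
      ∀ l ∈ Finset.Icc 1 d, ∀ m ∈ (a l).coeff.support, InPol (RingHom.ker j) f Γ₀ (l * k) m)
    (H3 : ∀ i : Fin N, IsAlgebraic (Algebra.adjoin ℂ (Gn K j f k h Γ₀))
      (algebraMap R K (j (AddMonoidAlgebra.single (Pi.single i 1) 1))))
    (ih : ∀ Γ', Sat Γ' → Γ < Γ' → IndG (ACl j f k h) (RingHom.ker j) f Γ') :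
    IndG (ACl j f k h) (RingHom.ker j) f Γ := by
  classical
  have hI : (RingHom.ker j).IsPrime := RingHom.ker_isPrime j
  have hGC := gc_ACl j f k h
  have hfI : f ∉ RingHom.ker j := fun h0 => hf ((RingHom.mem_ker).mp h0)
  obtain ⟨b, bt, co, co1, co2, S, pp, m0, G0, s1, s2, s3, s4, s5⟩ :=
    hat_gr a_sqf N Γ₀ Γ hle (RingHom.ker j) f hΓ hI hfI hrad hom
  have hSne : S.Nonempty := by
    rw [Finset.nonempty_iff_ne_empty]
    rintro rfl
    rw [Finset.sum_empty, sub_zero] at s2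
    apply hfI
    have h4 := (RingHom.ker j).mul_mem_left (AddMonoidAlgebra.single (-m0) (1 : ℂ)) s2
    rw [← mul_assoc, AddMonoidAlgebra.single_mul_single, neg_add_cancel, mul_one] at h4
    have h5 : (AddMonoidAlgebra.single (0 : Fin N → ℤ) (1 : ℂ) : Lau N) = 1 := rfl
    rwa [h5, one_mul] at h4
  have hbt : Function.Injective bt := by
    intro i j hij
    have h1 := co2 i
    rw [hij, co2 j] at h1
    by_contra hne
    have h2 := congrFun h1 i
    rw [Pi.single_eq_same, Pi.single_eq_of_ne hne] at h2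
    exact zero_ne_one h2
  have hdiff : ∀ β γ : Fin b →₀ ℕ, β ≠ γ → mb bt β - mb bt γ ∉ Γ := by
    intro β γ hne h
    apply hne
    rw [← co1] at h
    ext i
    have h1 := congrFun h i
    rw [map_sub, Pi.sub_apply, co_mb co2, co_mb co2, Pi.zero_apply, sub_eq_zero] at h1
    exact_mod_cast h1
  set d : Fin b → ℕ := fun i => S.sup fun β => β i with hd
  -- the relations
  set T : Finset (Fin N → ℤ) := S.image fun β => mb bt β - m0 with hTdef
  have hT : T.Nonempty := hSne.image _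
  have hT' : ∀ t, comp Γ₀ (Γ₀.mkQ t) f ∉ RingHom.ker j → ∃ τ ∈ T, t - τ ∈ Γ := by
    intro t ht
    obtain ⟨β, hβ, hβt⟩ := wt_mem hle hom0 hom (fun β hβ => (s1 β hβ).2) s2 ht
    exact ⟨_, Finset.mem_image_of_mem _ hβ, hβt⟩
  have hroot : ∀ i, UC j f k h Γ T hT k (h i) := by
    intro i
    obtain ⟨d', a, a1, a2⟩ := H2 i
    exact UC.root a1 hle a2 hT'
  have hfn : UC j f k h Γ T hT 1 (j f) :=
    UC.fn (fun β hβ => (s1 β hβ).2) s2 fun β hβ => Finset.mem_image_of_mem _ hβ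
  have hrel := fun i : Fin N => rel_of hinj hf hroot hfn hle
    (j (AddMonoidAlgebra.single (Pi.single i 1) 1)) (H3 i)
  choose e L A hA1 hA2 hA3 using hrel
  have hexc := fun i : Fin N => exc (N := N) hint (hA3 i)
  choose G' hG1 hG2 using hexc
  choose! Φa wa ha1 ha2 using hA1
  set Φ3 : Finset (Fin N → ℤ) :=
    Finset.univ.biUnion fun i : Fin N => (Finset.range (L i + 1)).biUnion fun l => Φa i l with hΦ3
  set w3 : ℕ := ∑ i : Fin N, ∑ l ∈ Finset.range (L i + 1), wa i l with hw3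
  have hΦ3Γ : ∀ φ ∈ Φ3, φ ∈ Γ := by
    intro φ hφ
    obtain ⟨i, -, hφ⟩ := Finset.mem_biUnion.mp hφ
    obtain ⟨l, hl, hφ⟩ := Finset.mem_biUnion.mp hφ
    exact ha1 i l (by have := Finset.mem_range.mp hl; omega) φ hφ
  -- the size of the box
  obtain ⟨C, hC, hCK⟩ := a_num b d
  set H : ℝ := ∑ j, ∑ i, |(bt j i : ℝ)| with hH
  have hH0 : 0 ≤ H := Finset.sum_nonneg fun j _ => Finset.sum_nonneg fun i _ => abs_nonneg _
  set E : ℝ := ∑ i : Fin N, 2 * ((L i : ℝ) * e i) with hE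
  have hE0 : 0 ≤ E := Finset.sum_nonneg fun i _ => by positivity
  obtain ⟨K0, hK0⟩ := exists_nat_gt (8 * (E * (2 * C + 1) * H))
  set K : ℕ := max K0 (max 1 (Finset.univ.sup d)) with hKdef
  have hK1 : 1 ≤ K := (le_max_left _ _).trans (le_max_right _ _)
  have hKd : ∀ i, d i ≤ K := fun i =>
    (Finset.le_sup (Finset.mem_univ i)).trans ((le_max_right _ _).trans (le_max_right _ _))
  have hKr : (0 : ℝ) < K := by exact_mod_cast hK1
  have hKε : E * (2 * ((2 * C + 1) / K * H)) ≤ 1 / 4 := by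
    have h1 : (K0 : ℝ) ≤ K := by exact_mod_cast le_max_left _ _
    have e1 : E * (2 * ((2 * C + 1) / K * H)) = (2 * (E * (2 * C + 1) * H)) / K := by ring
    rw [e1, div_le_iff₀ hKr]
    nlinarith
  obtain ⟨σ₀, hσ₀⟩ := a_grow (2 * S.card + 1) (1 / (2 ^ (b + 1) * (K : ℝ) ^ 2)) (by positivity)
  -- the list of monomials outside of the group
  set n : Fin b → ℕ := fun i => K + d i with hn
  obtain ⟨Φ2, ε2, μ2, G2, q1, q2, q3, q4⟩ := indGL_of hGC ih
    (((box n ×ˢ box n).filter fun x => x.1 ≠ x.2).image fun x => mb bt x.1 - mb bt x.2) (by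
      intro γ hγ
      obtain ⟨x, hx, rfl⟩ := Finset.mem_image.mp hγ
      exact hdiff _ _ (Finset.mem_filter.mp hx).2)
  set Φs : Finset (Fin N → ℤ) := S.biUnion fun β => (pp β).coeff.support with hΦs
  have hΦsΓ : ∀ φ ∈ Φs, φ ∈ Γ := by
    intro φ hφ
    obtain ⟨β, hβ, hφ⟩ := Finset.mem_biUnion.mp hφ
    exact (s1 β hβ).2 φ hφ
  set Φu := Φs ∪ Φ3 with hΦu
  set w : ℕ := 2 * (σ₀ + 1) with hw
  set Mm : ℕ := (σ₀ + 2) ^ (2 * S.card + 1) * ∏ i, n i with hMm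
  set n0 : ℕ := (box n).card with hn0
  set a1 : ℝ := 2 * (n0 * w) with ha1'
  set b1 : ℝ := 2 * (n0 * w + (n0 : ℝ) ^ 2) with hb1
  set a2 : ℝ := E * (2 * w + S.card) with ha2'
  set b2 : ℝ := E * (2 * (w + Mm) + (S.card + (S.card : ℝ) ^ 2)) with hb2
  set a3 : ℝ := ∑ i : Fin N, 2 * ((L i : ℝ) * w3) with ha3
  set b3 : ℝ := ∑ i : Fin N, 2 * ((L i : ℝ) * w3 + (L i : ℝ) ^ 2) with hb3
  have ha10 : 0 ≤ a1 := mul_nonneg zero_le_two (mul_nonneg (Nat.cast_nonneg _) (Nat.cast_nonneg _))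
  have hb10 : 0 ≤ b1 := mul_nonneg zero_le_two
    (add_nonneg (mul_nonneg (Nat.cast_nonneg _) (Nat.cast_nonneg _)) (sq_nonneg _))
  have ha20 : 0 ≤ a2 := mul_nonneg hE0 (add_nonneg (mul_nonneg zero_le_two (Nat.cast_nonneg _))
    (Nat.cast_nonneg _))
  have hb20 : 0 ≤ b2 := mul_nonneg hE0 (add_nonneg
    (mul_nonneg zero_le_two (add_nonneg (Nat.cast_nonneg _) (Nat.cast_nonneg _)))
      (add_nonneg (Nat.cast_nonneg _) (sq_nonneg _)))
  have ha30 : 0 ≤ a3 := Finset.sum_nonneg fun i _ => mul_nonneg zero_le_two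
    (mul_nonneg (Nat.cast_nonneg _) (Nat.cast_nonneg _))
  have hb30 : 0 ≤ b3 := Finset.sum_nonneg fun i _ => mul_nonneg zero_le_two
    (add_nonneg (mul_nonneg (Nat.cast_nonneg _) (Nat.cast_nonneg _)) (sq_nonneg _))
  have hat0 : 0 ≤ a1 + (a2 + a3) := add_nonneg ha10 (add_nonneg ha20 ha30)
  have hbt0' : 0 ≤ b1 + (b2 + b3) := add_nonneg hb10 (add_nonneg hb20 hb30)
  obtain ⟨ε, μ, c1, c2, c3, c4, c5⟩ := consts (a1 + (a2 + a3)) (b1 + (b2 + b3)) hbt0'
    Φu.card (lt_min (show (0 : ℝ) < 1 / 4 by norm_num) q2) μ2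
  refine ⟨Φu ∪ Φ2, ε, μ, f * (G0 * ((∏ i, G' i) * G2)), ?_, c1, ?_, ?_⟩
  · intro φ hφ
    rcases Finset.mem_union.mp hφ with h | h
    · rcases Finset.mem_union.mp h with h | h
      · exact hΦsΓ φ h
      · exact hΦ3Γ φ h
    · exact q1 φ h
  · intro h
    rcases hI.mem_or_mem h with h | h
    · exact hfI h
    rcases hI.mem_or_mem h with h | h
    · exact s4 h
    rcases hI.mem_or_mem h with h | h
    · obtain ⟨i, -, hi⟩ := (hI.prod_mem_iff).mp h
      exact hG1 i ((RingHom.mem_ker).mp hi)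
    · exact q3 h
  intro c hc r hsm
  by_contra hG
  rw [map_mul, map_mul, map_mul, map_prod] at hG
  have hF : c.ev f ≠ 0 := left_ne_zero_of_mul hG
  have hG' := right_ne_zero_of_mul hG
  have hG0 : c.ev G0 ≠ 0 := left_ne_zero_of_mul hG'
  have hG3 : ∀ i, c.ev (G' i) ≠ 0 := by
    intro i h0
    exact left_ne_zero_of_mul (right_ne_zero_of_mul hG')
      (Finset.prod_eq_zero (Finset.mem_univ i) h0)
  have hG2' : c.ev G2 ≠ 0 := right_ne_zero_of_mul (right_ne_zero_of_mul hG')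
  haveI := dom a_ring c
  have hvan := hGC.van hc
  obtain ⟨η, hη⟩ := hc.2
  obtain ⟨u1, u2, u3⟩ := s5 c.Mr c.ev hvan hG0
  have hev := Ph_eval c bt S pp hvan s2
  have hΦ : ∀ β ∈ S, ∀ m ∈ (pp β).coeff.support, m ∈ Φs := fun β hβ m hm =>
    Finset.mem_biUnion.mpr ⟨β, hβ, hm⟩
  obtain ⟨g1, σ, g2, g3⟩ := hσ₀ c.Mr (gens c bt S pp) (gens_card c bt S pp)
    (one_mem_gens c bt S pp)
  have hTT := ch_nonneg a_ht r
  have hsmu : ∀ φ ∈ Φu, Sm r ε φ := fun φ hφ => hsm φ (Finset.mem_union_left _ hφ)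
  have hsub : ∀ n, ∑ φ ∈ Φs, c.ht φ (r.s n) ≤ ∑ φ ∈ Φu, c.ht φ (r.s n) := fun n =>
    Finset.sum_le_sum_of_subset_of_nonneg Finset.subset_union_left fun φ _ _ => ht_nonneg a_ht r n φ
  have hsub3 : ∀ n, ∑ φ ∈ Φ3, c.ht φ (r.s n) ≤ ∑ φ ∈ Φu, c.ht φ (r.s n) := fun n =>
    Finset.sum_le_sum_of_subset_of_nonneg Finset.subset_union_right fun φ _ _ => ht_nonneg a_ht r n φ
  have hs0 : ∀ n, 0 ≤ ∑ φ ∈ Φs, c.ht φ (r.s n) := fun n =>
    Finset.sum_nonneg fun φ _ => ht_nonneg a_ht r n φ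
  have hs3 : ∀ n, 0 ≤ ∑ φ ∈ Φ3, c.ht φ (r.s n) := fun n =>
    Finset.sum_nonneg fun φ _ => ht_nonneg a_ht r n φ
  have hbad := fun n => bad_cnt_nonneg a_cnt a_ord c (r.s n)
  have herr := err_small c3 (hGC.ram hc) hsmu hat0 hbt0'
  rcases curve_dich' hF r Φs bt hbt m0 S pp hSne hΦ hev u1 u2 u3 hC K hK1 hKd
    (hCK K hK1 hKd) σ₀ σ g2 g1 g3 with ⟨β, hβ, γ, hγ, hne, hlt⟩ | ⟨hli, hrho⟩
  · apply hG2'
    refine q4 c (hGC.mono c4 hc) r (fun φ hφ =>
      (hsm φ (Finset.mem_union_right _ hφ)).mono a_ht (c2.trans (min_le_right _ _)))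
      ⟨mb bt β - mb bt γ, Finset.mem_image.mpr ⟨(β, γ), Finset.mem_filter.mpr
        ⟨Finset.mem_product.mpr ⟨hβ, hγ⟩, hne⟩, rfl⟩, ?_⟩
    refine Le.trans hlt (Le.trans (Le.of_le hTT fun n => ?_) (Le.trans herr
      (Le.of_le hTT fun n => ?_)))
    · have t1 : a1 * ∑ φ ∈ Φs, c.ht φ (r.s n) ≤ (a1 + (a2 + a3)) * ∑ φ ∈ Φu, c.ht φ (r.s n) :=
        mul_le_mul (le_add_of_nonneg_right (add_nonneg ha20 ha30)) (hsub n) (hs0 n) hat0
      have t2 : b1 * c.cnt (fun z => (c.bad z : ℤ)) (r.s n)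
          ≤ (b1 + (b2 + b3)) * c.cnt (fun z => (c.bad z : ℤ)) (r.s n) :=
        mul_le_mul_of_nonneg_right (le_add_of_nonneg_right (add_nonneg hb20 hb30)) (hbad n)
      exact add_le_add t1 t2
    · exact mul_le_mul_of_nonneg_right (c5.trans (min_le_right _ _)) (hTT n)
  · -- contradiction
    have hsmt := smt1 hF r Φs bt m0 S hSne pp T hT hTdef hΦ (hev.1.symm.trans hev.2) hli
    set B : ℕ → ℝ := fun n => 2 * ((2 * C + 1) / K * ∑ j, c.ht (bt j) (r.s n)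
        + (w : ℝ) * ∑ φ ∈ Φs, c.ht φ (r.s n)
        + ((w : ℝ) + (Mm : ℝ)) * c.cnt (fun z => (c.bad z : ℤ)) (r.s n))
      + (S.card * ∑ φ ∈ Φs, c.ht φ (r.s n)
        + (S.card + (S.card : ℝ) ^ 2) * c.cnt (fun z => (c.bad z : ℤ)) (r.s n)) with hB
    have hbt0 : ∀ n, 0 ≤ ∑ j, c.ht (bt j) (r.s n) := fun n =>
      Finset.sum_nonneg fun j _ => ht_nonneg a_ht r n _
    have hC1 : 0 ≤ (2 * C + 1) / (K : ℝ) :=
      div_nonneg (add_nonneg (mul_nonneg zero_le_two hC) zero_le_one) hKr.le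
    have hB0 : ∀ n, 0 ≤ B n := by
      intro n
      have t1 := mul_nonneg hC1 (hbt0 n)
      have t2 : 0 ≤ (w : ℝ) * ∑ φ ∈ Φs, c.ht φ (r.s n) := mul_nonneg (Nat.cast_nonneg _) (hs0 n)
      have t3 : 0 ≤ ((w : ℝ) + (Mm : ℝ)) * c.cnt (fun z => (c.bad z : ℤ)) (r.s n) :=
        mul_nonneg (add_nonneg (Nat.cast_nonneg _) (Nat.cast_nonneg _)) (hbad n)
      have t4 : 0 ≤ (S.card : ℝ) * ∑ φ ∈ Φs, c.ht φ (r.s n) :=
        mul_nonneg (Nat.cast_nonneg _) (hs0 n)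
      have t5 : 0 ≤ ((S.card : ℝ) + (S.card : ℝ) ^ 2) * c.cnt (fun z => (c.bad z : ℤ)) (r.s n) :=
        mul_nonneg (add_nonneg (Nat.cast_nonneg _) (sq_nonneg _)) (hbad n)
      exact add_nonneg (mul_nonneg zero_le_two (add_nonneg (add_nonneg t1 t2) t3))
        (add_nonneg t4 t5)
    have hdB : Le (fun n => c.ch (r.s n)) (fun n => dfc c (c.ev f) T hT (r.s n)) B := by
      refine Le.trans hsmt ?_
      have g := Le.add (Le.mul hTT zero_le_two hrho) (Le.of_le hTT (A := fun n => (S.card * ∑ φ ∈ Φs, c.ht φ (r.s n)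
        + (S.card + (S.card : ℝ) ^ 2) * c.cnt (fun z => (c.bad z : ℤ)) (r.s n))) fun n => le_rfl)
      refine Le.trans (Le.of_le hTT fun n => le_of_eq ?_) (Le.trans g (Le.of_le hTT fun n =>
        le_of_eq ?_))
      · push_cast
        ring
      · simp only [hB, hMm, hn, hd, hw]
    have hstep : ∀ i : Fin N, Le (fun n => c.ch (r.s n))
        (fun n => c.ht (Pi.single i 1) (r.s n))
        (fun n => 2 * (L i * e i * B n + (L i * w3 * ∑ φ ∈ Φ3, c.ht φ (r.s n)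
          + (L i * w3 + (L i : ℝ) ^ 2) * c.cnt (fun z => (c.bad z : ℤ)) (r.s n)))) := by
      intro i
      refine rel_step hF r T hT Φ3 w3 (e i) (L i) (fun l => η (A i l)) (Pi.single i 1)
        (fun l hl => ?_) ?_ ⟨L i, le_rfl, ?_⟩ B hdB hB0
      · have hlr : l ∈ Finset.range (L i + 1) := Finset.mem_range.mpr (by omega)
        refine ctl_mono (ha2 i l hl c η hF hη r) ?_ ?_
        · intro φ hφ
          exact Finset.mem_biUnion.mpr ⟨i, Finset.mem_univ i, Finset.mem_biUnion.mpr ⟨l, hlr, hφ⟩⟩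
        · exact (Finset.single_le_sum (f := fun l => wa i l) (fun _ _ => Nat.zero_le _) hlr).trans
            (Finset.single_le_sum (f := fun i => ∑ l ∈ Finset.range (L i + 1), wa i l)
              (fun _ _ => Nat.zero_le _) (Finset.mem_univ i))
      · have h0 := congrArg η (hA2 i)
        rw [map_sum, map_zero] at h0
        rw [← h0]
        refine Finset.sum_congr rfl fun l _ => ?_
        rw [map_mul, map_pow, hη.ext, c.ev_single, one_smul, ← mon_nsmul]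
      · intro h0
        apply hG3 i
        obtain ⟨y, hy⟩ := hG2 i
        rw [← hη.ext, hy, map_mul, h0, zero_mul]
    have hbtH : ∀ n, ∑ j, c.ht (bt j) (r.s n) ≤ H * c.ch (r.s n) := by
      intro n
      rw [hH, Finset.sum_mul]
      exact Finset.sum_le_sum fun i _ => ((a_ht N c).1 _ (r.hs n)).2.2.2.1 (bt i)
    have htot := Le.sum hTT Finset.univ (fun i _ => hstep i)
    have hfin : Le (fun n => c.ch (r.s n)) (fun n => c.ch (r.s n))
        (fun n => 1 / 2 * c.ch (r.s n)) := by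
      refine Le.trans (Le.of_le hTT (B := fun n => ∑ i : Fin N, c.ht (Pi.single i 1) (r.s n))
        fun n => le_rfl) (Le.trans htot (Le.trans (B := fun n => 1 / 4 * c.ch (r.s n)
          + ((a1 + (a2 + a3)) * ∑ φ ∈ Φu, c.ht φ (r.s n)
            + (b1 + (b2 + b3)) * c.cnt (fun z => (c.bad z : ℤ)) (r.s n)))
          (Le.of_le hTT fun n => ?_) ?_))
      · have e1 : ∑ i : Fin N, 2 * (L i * e i * B n + (L i * w3 * ∑ φ ∈ Φ3, c.ht φ (r.s n)
          + (L i * w3 + (L i : ℝ) ^ 2) * c.cnt (fun z => (c.bad z : ℤ)) (r.s n)))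
            = E * B n + (a3 * ∑ φ ∈ Φ3, c.ht φ (r.s n)
              + b3 * c.cnt (fun z => (c.bad z : ℤ)) (r.s n)) := by
          rw [hE, ha3, hb3, Finset.sum_mul, Finset.sum_mul, Finset.sum_mul,
            ← Finset.sum_add_distrib, ← Finset.sum_add_distrib]
          refine Finset.sum_congr rfl fun i _ => ?_
          ring
        rw [e1]
        have t1 : E * (2 * ((2 * C + 1) / K * ∑ j, c.ht (bt j) (r.s n)))
            ≤ 1 / 4 * c.ch (r.s n) := by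
          calc E * (2 * ((2 * C + 1) / K * ∑ j, c.ht (bt j) (r.s n)))
              ≤ E * (2 * ((2 * C + 1) / K * (H * c.ch (r.s n)))) := by
                apply mul_le_mul_of_nonneg_left _ hE0
                apply mul_le_mul_of_nonneg_left _ zero_le_two
                exact mul_le_mul_of_nonneg_left (hbtH n) hC1
            _ = (E * (2 * ((2 * C + 1) / K * H))) * c.ch (r.s n) := by ring
            _ ≤ _ := mul_le_mul_of_nonneg_right hKε (hTT n)
        have t2 : a2 * ∑ φ ∈ Φs, c.ht φ (r.s n) ≤ a2 * ∑ φ ∈ Φu, c.ht φ (r.s n) :=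
          mul_le_mul_of_nonneg_left (hsub n) ha20
        have t3 : a3 * ∑ φ ∈ Φ3, c.ht φ (r.s n) ≤ a3 * ∑ φ ∈ Φu, c.ht φ (r.s n) :=
          mul_le_mul_of_nonneg_left (hsub3 n) ha30
        have t4 : 0 ≤ a1 * ∑ φ ∈ Φu, c.ht φ (r.s n) :=
          mul_nonneg ha10 ((hs0 n).trans (hsub n))
        have t5 : 0 ≤ b1 * c.cnt (fun z => (c.bad z : ℤ)) (r.s n) := mul_nonneg hb10 (hbad n)
        have e2 : E * B n = E * (2 * ((2 * C + 1) / K * ∑ j, c.ht (bt j) (r.s n)))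
            + a2 * ∑ φ ∈ Φs, c.ht φ (r.s n) + b2 * c.cnt (fun z => (c.bad z : ℤ)) (r.s n) := by
          simp only [hB, ha2', hb2]
          ring
        rw [e2]
        linarith
      · intro δ hδ
        filter_upwards [herr δ hδ] with n hn'
        have t1 : (((a1 + (a2 + a3)) * (Φu.card * ε) + (b1 + (b2 + b3)) / μ) * c.ch (r.s n))
            ≤ 1 / 4 * c.ch (r.s n) :=
          mul_le_mul_of_nonneg_right (c5.trans (min_le_left _ _)) (hTT n)
        linarith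
    obtain ⟨n, h2, h3⟩ := ((hfin (1 / 4) (by norm_num)).and (ch_pos r)).exists
    linarith

/-- the theorem for curves in covers -/
theorem curvesE (hinj : Function.Injective (algebraMap R K)) (hint : (j : Lau N →+* R).IsIntegral) (hf : j f ≠ 0)
    (hrad : GR (RingHom.ker j) f Γ₀)
    (hleast : ∀ Γ : Submodule ℤ (Fin N → ℤ), Sat Γ →
      (∀ g ∈ RingHom.ker j, ∀ q, comp Γ q g ∈ RingHom.ker j) → Γ₀ ≤ Γ)
    (hom0 : ∀ g ∈ RingHom.ker j, ∀ q, comp Γ₀ q g ∈ RingHom.ker j)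
    (H2 : ∀ i, ∃ (d : ℕ) (a : ℕ → Lau N),
      h i ^ d + ∑ l ∈ Finset.Icc 1 d, j (a l) * h i ^ (d - l) = 0 ∧
      ∀ l ∈ Finset.Icc 1 d, ∀ m ∈ (a l).coeff.support, InPol (RingHom.ker j) f Γ₀ (l * k) m)
    (H3 : ∀ i : Fin N, IsAlgebraic (Algebra.adjoin ℂ (Gn K j f k h Γ₀))
      (algebraMap R K (j (AddMonoidAlgebra.single (Pi.single i 1) 1)))) :
    ∃ (μ : ℕ) (G : Lau N), j G ≠ 0 ∧ ∀ c : Curve N, (∃ η : R →ₐ[ℂ] c.Mr, Lf j f k h c η) →
      c.ev G ≠ 0 → c.ch 0 ≤ μ * c.cnt (fun z => (c.bad z : ℤ)) 0 := by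
  have hI : (RingHom.ker j).IsPrime := RingHom.ker_isPrime j
  have hfI : f ∉ RingHom.ker j := fun h0 => hf ((RingHom.mem_ker).mp h0)
  have main : ∀ Γ : Submodule ℤ (Fin N → ℤ), Sat Γ → IndG (ACl j f k h) (RingHom.ker j) f Γ := by
    intro Γ
    induction Γ using WellFoundedGT.induction with
    | ind Γ ih =>
      intro hΓ
      by_cases htop : Γ = ⊤
      · rw [htop]
        exact indG_top _ hI.ne_top f
      · have ih' : ∀ Γ', Sat Γ' → Γ < Γ' → IndG (ACl j f k h) (RingHom.ker j) f Γ' :=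
          fun Γ' h1 h2 => ih Γ' h2 h1
        by_cases hhom : ∀ g ∈ RingHom.ker j, ∀ q, comp Γ q g ∈ RingHom.ker j
        · exact caseBY hinj hint hf hrad hΓ (hleast Γ hΓ hhom) hom0 hhom H2 H3 ih'
        · push Not at hhom
          obtain ⟨g, hg, q, hq⟩ := hhom
          exact caseAG (gc_ACl j f k h) hfI ih' hg ⟨q, hq⟩
  have hbot : Sat (⊥ : Submodule ℤ (Fin N → ℤ)) := by
    intro n m hn h
    rw [Submodule.mem_bot] at h ⊢
    exact (smul_eq_zero.mp h).resolve_left hn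
  obtain ⟨Φ, ε, μ, G, h1, h2, h3, h4⟩ := main ⊥ hbot
  refine ⟨μ, f * G, fun h0 => ?_, ?_⟩
  · rw [map_mul] at h0
    rcases mul_eq_zero.mp h0 with h | h
    · exact hf h
    · exact h3 ((RingHom.mem_ker).mpr h)
  intro c hc hG
  rw [map_mul] at hG
  by_contra hcon
  push Not at hcon
  have hpos : 0 < c.ch 0 := by
    have h5 := bad_cnt_nonneg a_cnt a_ord c 0
    have h6 : (0 : ℝ) ≤ μ := Nat.cast_nonneg μ
    nlinarith
  let r : Rad c (c.ev f) := ⟨fun _ => c.r0 + 2, fun _ => le_rfl, fun R => hpos⟩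
  apply right_ne_zero_of_mul hG
  apply h4 c ⟨fun R => hcon.le, hc⟩ r
  intro φ hφ
  have h5 : φ = 0 := (Submodule.mem_bot ℤ).mp (h1 φ hφ)
  have hT := ch_nonneg a_ht r
  apply Le.of_le hT
  intro n
  have h6 := ((a_ht N c).1 _ (r.hs n)).2.2.1 0 0
  rw [zero_smul, Int.cast_zero, abs_zero, zero_mul] at h6
  rw [h5, h6]
  exact mul_nonneg h2.le (hT n)

end Pool.Agent.Y192.FA.E
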