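import Pool.Agent.Y192.FA.GDefs
import Pool.Agent.Y216.Point

/-!
Curves in the covers, the projective case: statements of the steps.
-/

set_option autoImplicit false

namespace Pool.Agent.Y192.FA

open MvPolynomial FF Pool.Agent.W603.LV Pool.Agent.W603.PV Pool.Agent.Y192.OG
open Pool.Agent.Y192.KC (Cov ZCov ZField ZRed Poly WH PseudoGm PseudoRational laur)

/-- the projective case: from the linear bound to all projective varieties with the same function
field -/
def St_fcb : Prop :=
  ∀ (n r : ℕ) (X : ZCov n r) (m : ℕ), 0 < m → (∀ j, X.e j ∣ m) → X.G = 1 →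
    ∀ (L : Type) [Field L] [Algebra ℂ L] (t : Fin (n + 1) → L) (w : Fin r → L), ZField X m L t w →
    LinB X.toCov m t w → ∀ (N : ℕ) (y : Fin (N + 1) → L), y ≠ 0 →
    Pool.Agent.W602.GT.coords ℂ y = ⊤ → Pool.Agent.Y216.CurveBound ℂ y

/-- the projective case: from finiteness of pointed maps to rational curves -/
def St_fpg : Prop :=
  ∀ (n r : ℕ) (X : ZCov n r) (m : ℕ), 0 < m → (∀ j, X.e j ∣ m) → X.G = 1 →
    ∀ (L : Type) [Field L] [Algebra ℂ L] (t : Fin (n + 1) → L) (w : Fin r → L), ZField X m L t w →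
    ∀ (N : ℕ) (y : Fin (N + 1) → L), y ≠ 0 →
    Pool.Agent.W602.GT.coords ℂ y = ⊤ → Pool.Agent.W602.RG.PseudoGeomHyp ℂ y →
      PseudoRational X.toCov m t w

end Pool.Agent.Y192.FA
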