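import Pool.Agent.Y192.FA.GMain
import Pool.Agent.Y192.FA.GDefsP
import Pool.Agent.Y192.KC.Proj
import Pool.Agent.Y192.KC.Proj2

/-!
The projective case: pointed maps, the theorem from the steps.
-/

set_option autoImplicit false

namespace Pool.Agent.Y192.FA

open MvPolynomial FF Pool.Agent.W603.LV Pool.Agent.W603.PV Pool.Agent.Y192.OG
open Pool.Agent.W602.GT (LogGeneralType GeneralType)
open Pool.Agent.Y192.KC (Cov ZCov ZField ZRed Poly WH PseudoGm PseudoRational laur OffG exists_K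
  redL_of mainZ_all St_zred general_iff rational_gm)

variable {n r : ℕ}

theorem mainP (hlin : ∀ {n r : ℕ} (X : ZCov n r), ∃ m0 : ℕ, ∀ m, m0 ≤ m → (∀ j, X.e j ∣ m) →
      ∀ (L : Type) [Field L] [Algebra ℂ L] (t : Fin (n + 1) → L) (w : Fin r → L),
      ZField X m L t w → ∀ d : ℕ, 1 ≤ d → Algebra.trdeg ℂ L = d →
      [LogGeneralType ℂ L d (OffG X.toCov m t), LinB X.toCov m t w, EulB X.toCov m t w,
        EachB X.toCov m t w, GmB X.toCov m t w, ¬ ZRed X].TFAE)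
    (h_cb : St_fcb) (h_pg : St_fpg) (X : ZCov n r) (hG : X.G = 1) :
    ∃ m0 : ℕ, ∀ m, m0 ≤ m → (∀ j, X.e j ∣ m) →
      ∀ (L : Type) [Field L] [Algebra ℂ L] (t : Fin (n + 1) → L) (w : Fin r → L),
      ZField X m L t w → ∀ d : ℕ, 1 ≤ d → Algebra.trdeg ℂ L = d →
      ∀ (N : ℕ) (y : Fin (N + 1) → L), y ≠ 0 → Pool.Agent.W602.GT.coords ℂ y = ⊤ →
      [GeneralType ℂ L d, Pool.Agent.W602.RG.PseudoGeomHyp ℂ y, Pool.Agent.Y216.CurveBound ℂ y,
        ¬ ZRed X].TFAE := by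
  obtain ⟨m1, hm1⟩ := hlin X
  obtain ⟨m2, hm2⟩ := mainZ_all X
  refine ⟨max 1 (max m1 m2), fun m hm he L _ _ t w hF d hd htr N y hy hgen => ?_⟩
  have hm0 : 0 < m := lt_of_lt_of_le one_pos ((le_max_left _ _).trans hm)
  have h1 := hm1 m (((le_max_left _ _).trans (le_max_right _ _)).trans hm) he L t w hF d hd htr
  have h2 := hm2 m (((le_max_right _ _).trans (le_max_right _ _)).trans hm) he L t w hF d hd htr
  have h3 : GeneralType ℂ L d ↔ ¬ ZRed X :=
    (general_iff (X := X.toCov) (m := m) (t := t) hG d).symm.trans (h2.out 0 4)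
  tfae_have 1 ↔ 4 := h3
  tfae_have 4 → 3 := fun h => h_cb n r X m hm0 he hG L t w hF ((h1.out 5 1).mp h) N y hy hgen
  tfae_have 3 → 2 := fun h => Pool.Agent.Y216.pointed_of_bound h
  tfae_have 2 → 4 := fun h => (h2.out 3 4).mp (rational_gm (X := X.toCov) hG he hF.eqn
    (h_pg n r X m hm0 he hG L t w hF N y hy hgen h))
  tfae_finish

end Pool.Agent.Y192.FA
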