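import Pool.Agent.Y192.FA.All
import Pool.Agent.Y192.FA.PMain
import Pool.Agent.Y180.FG.Fadm
import Pool.Agent.Y448.FG.Fval
import Pool.Agent.Y109.FG.Fnum
import Pool.Agent.Y824.FG.Fpht
import Pool.Agent.Y824.FG.Fcb
import Pool.Agent.Y77.FG.FG5
import Pool.Agent.Y288.FG.Gm
import Pool.Agent.Y76.FG.FPG

/-!
Curves in the covers: all steps together.
-/

set_option autoImplicit false

namespace Pool.Agent.Y192.FA

open MvPolynomial FF Pool.Agent.W603.LV Pool.Agent.W603.PV Pool.Agent.Y192.OG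
open Pool.Agent.W602.GT (LogGeneralType GeneralType)
open Pool.Agent.Y192.KC (Cov ZCov ZField ZRed OffG)

theorem mainG_all {n r : ℕ} (X : ZCov n r) :
    ∃ m0 : ℕ, ∀ m, m0 ≤ m → (∀ j, X.e j ∣ m) →
      ∀ (L : Type) [Field L] [Algebra ℂ L] (t : Fin (n + 1) → L) (w : Fin r → L),
      ZField X m L t w → ∀ d : ℕ, 1 ≤ d → Algebra.trdeg ℂ L = d →
      [LogGeneralType ℂ L d (OffG X.toCov m t), LinB X.toCov m t w, EulB X.toCov m t w,
        EachB X.toCov m t w, GmB X.toCov m t w, ¬ ZRed X].TFAE :=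
  mainG prime_all Pool.Agent.Y658.KZ.t_zred Pool.Agent.Y180.FG.t_fadm Pool.Agent.Y448.FG.t_fval
    Pool.Agent.Y109.FG.t_fnum Pool.Agent.Y824.FG.t_fpht Pool.Agent.Y77.FG.t_fsmall
    Pool.Agent.Y288.FG.t_fgm X

theorem mainP_all {n r : ℕ} (X : ZCov n r) (hG : X.G = 1) :
    ∃ m0 : ℕ, ∀ m, m0 ≤ m → (∀ j, X.e j ∣ m) →
      ∀ (L : Type) [Field L] [Algebra ℂ L] (t : Fin (n + 1) → L) (w : Fin r → L),
      ZField X m L t w → ∀ d : ℕ, 1 ≤ d → Algebra.trdeg ℂ L = d →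
      ∀ (N : ℕ) (y : Fin (N + 1) → L), y ≠ 0 → Pool.Agent.W602.GT.coords ℂ y = ⊤ →
      [GeneralType ℂ L d, Pool.Agent.W602.RG.PseudoGeomHyp ℂ y, Pool.Agent.Y216.CurveBound ℂ y,
        ¬ ZRed X].TFAE :=
  mainP mainG_all Pool.Agent.Y824.FG.t_fcb Pool.Agent.Y76.FG.t_fpg X hG

end Pool.Agent.Y192.FA
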