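import Pool.Agent.Y192.FA.Step
import Pool.Agent.Y487.KG.Prime
import Pool.Agent.Y379.KG.Desc

/-!
Enlarging the exceptional set, quotients, and zeros of Laurent polynomials.
-/

set_option autoImplicit false

namespace Pool.Agent.Y192.FA

open MvPolynomial FF Pool.Agent.Y192.OG
open Pool.Agent.Y192.KC (lm md HomL St_badG St_desc)

variable {N ρ r : ℕ}

open Classical in
/-- the order of the value of a Laurent polynomial -/
theorem ord_ev (c : Curve N) (z : c.P) (g : Lau N) : c.ord z (c.ev g) =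
    if ep c.x g = 0 then ⊤ else ((z.ord (ep c.x g) : ℤ) : WithTop ℤ) := by
  by_cases h : ep c.x g = 0
  · rw [if_pos h, (ev_eq_zero c g).mpr h]
    exact c.ord_top z
  · rw [if_neg h, c.ord_of_ne fun h1 => h ((ev_eq_zero c g).mp h1), coe_ev]

open Classical in
/-- the curve with a larger exceptional set -/
noncomputable def rst (c : Curve N) (T : Finset c.P) : Curve N where
  L := c.L
  x := c.x
  D := c.D
  hD := c.hD
  B := c.B ∪ T
  hB := fun z hz => Finset.mem_union_left _ (c.hB z hz)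

theorem rst_x (c : Curve N) (T : Finset c.P) : (rst c T).x = c.x := rfl

theorem rst_B {c : Curve N} {T : Finset c.P} {z : c.P} (h : z ∉ (rst c T).B) :
    z ∉ c.B ∧ z ∉ T := by
  classical
  have h1 : z ∉ (c.B ∪ T : Finset c.P) := h
  rw [Finset.mem_union, not_or] at h1
  exact h1

theorem rst_ev (c : Curve N) (T : Finset c.P) (g : Lau N) :
    (rst c T).ev g = 0 ↔ c.ev g = 0 :=
  (ev_eq_zero (rst c T) g).trans (ev_eq_zero c g).symm

theorem rst_ord (c : Curve N) (T : Finset c.P) (g : Lau N) (z : c.P) :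
    (rst c T).ord z ((rst c T).ev g) = c.ord z (c.ev g) :=
  (ord_ev (rst c T) z g).trans (ord_ev c z g).symm

theorem rst_ht (c : Curve N) (T : Finset c.P) (m : Fin N → ℤ) (R : ℝ) :
    (rst c T).ht m R = c.ht m R := rfl

theorem rst_bB (c : Curve N) (T : Finset c.P) : (rst c T).bB ≤ c.bB + T.card := by
  classical
  have h2 : (rst c T).bB = ∑ z ∈ c.B ∪ T, (1 + max (-(W603.LV.vo z c.D : ℝ)) 0) := rfl
  have h3 : c.B ∪ T = c.B ∪ (T \ c.B) := by
    ext z
    simp only [Finset.mem_union, Finset.mem_sdiff]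
    tauto
  rw [h2, h3, Finset.sum_union Finset.disjoint_sdiff]
  refine add_le_add le_rfl ?_
  have h4 : ∀ z ∈ T \ c.B, (1 + max (-(W603.LV.vo z c.D : ℝ)) 0) = 1 := by
    intro z hz
    have hvo : 0 ≤ W603.LV.vo z c.D := by
      by_contra h5
      push Not at h5
      exact (Finset.mem_sdiff.mp hz).2 (c.hB z h5)
    rw [max_eq_right, add_zero]
    have : (0 : ℝ) ≤ (W603.LV.vo z c.D : ℝ) := by exact_mod_cast hvo
    linarith
  rw [Finset.sum_congr rfl h4, Finset.sum_const, nsmul_eq_mul, mul_one]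
  exact_mod_cast Finset.card_le_card Finset.sdiff_subset

theorem rst_adm {F : Fin r → Lau N} {e : Fin r → ℕ} {m : ℕ} {c : Curve N} (hc : AdmG F e m c)
    (T : Finset c.P) : AdmG F e m (rst c T) where
  div := fun i z hz => hc.div i z (rst_B hz).1
  root := by
    intro j hj z hz
    rw [rst_ord c T (F j) z]
    exact hc.root j (fun h0 => hj ((rst_ev c T _).mpr h0)) z (rst_B hz).1

/-- the orders of monomials -/
theorem del_eq (c : Curve N) (z : c.P) (m : Fin N → ℤ) :
    c.del z m = z.ord (xm c.x m : c.L) := (c.ord_monf z m).symm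

theorem ep_lm {K : Type} [Field K] [Algebra ℂ K] (x : Fin N → Kˣ) (γ : Fin ρ → Fin N → ℤ)
    (g : Lau ρ) : ep (fun i => xm x (γ i)) g = ep x (lm γ g) := by
  induction g using AddMonoidAlgebra.induction_linear with
  | zero => rw [map_zero, map_zero, map_zero]
  | add f g hf hg => rw [map_add, map_add, map_add, hf, hg]
  | single a c =>
    rw [Pool.Agent.Y487.KG.lm_single, ep_single, ep_single, Pool.Agent.Y379.KG.xm_sum]
    congr 2
    exact Finset.prod_congr rfl fun i _ => (Pool.Agent.Y379.KG.xm_smul x (a i) (γ i)).symm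

/-- the curve given by finitely many monomials -/
def quo (c : Curve N) (γ : Fin ρ → Fin N → ℤ) : Curve ρ where
  L := c.L
  x := fun i => xm c.x (γ i)
  D := c.D
  hD := c.hD
  B := c.B
  hB := c.hB

theorem quo_ev (c : Curve N) (γ : Fin ρ → Fin N → ℤ) (g : Lau ρ) :
    (quo c γ).ev g = 0 ↔ c.ev (lm γ g) = 0 := by
  rw [ev_eq_zero c, ← ep_lm]
  exact ev_eq_zero (quo c γ) g

theorem quo_ord (c : Curve N) (γ : Fin ρ → Fin N → ℤ) (g : Lau ρ) (z : c.P) :
    (quo c γ).ord z ((quo c γ).ev g) = c.ord z (c.ev (lm γ g)) := by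
  classical
  rw [ord_ev c, ← ep_lm]
  exact ord_ev (quo c γ) z g

theorem quo_del (c : Curve N) (γ : Fin ρ → Fin N → ℤ) (z : c.P) (a : Fin ρ → ℤ) :
    (quo c γ).del z a = c.del z (∑ i, a i • γ i) := by
  have h : xm (fun i => xm c.x (γ i)) a = xm c.x (∑ i, a i • γ i) := by
    rw [Pool.Agent.Y379.KG.xm_sum]
    exact Finset.prod_congr rfl fun i _ => (Pool.Agent.Y379.KG.xm_smul c.x (a i) (γ i)).symm
  calc (quo c γ).del z a = z.ord (xm (fun i => xm c.x (γ i)) a : c.L) := del_eq (quo c γ) z a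
    _ = z.ord (xm c.x (∑ i, a i • γ i) : c.L) := by rw [h]
    _ = _ := (del_eq c z _).symm

theorem quo_ht (c : Curve N) (γ : Fin ρ → Fin N → ℤ) (a : Fin ρ → ℤ) :
    (quo c γ).ht a 0 = c.ht (∑ i, a i • γ i) 0 := by
  rw [(a_ht N c).2, (a_ht ρ (quo c γ)).2]
  refine finsum_congr fun z => ?_
  have h := quo_del c γ z a
  exact congrArg (fun b : ℤ => ((|b| : ℤ) : ℝ)) h

theorem quo_div {m : ℕ} {c : Curve N} {γ : Fin ρ → Fin N → ℤ}
    (h : ∀ i, ∀ z : c.P, z ∉ c.B → (m : ℤ) ∣ z.ord (c.x i : c.L)) :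
    ∀ i, ∀ z : (quo c γ).P, z ∉ (quo c γ).B → (m : ℤ) ∣ z.ord ((quo c γ).x i : (quo c γ).L) := by
  intro i z hz
  have h1 : z.ord ((quo c γ).x i : (quo c γ).L) = c.del z (γ i) := (del_eq c z (γ i)).symm
  rw [h1]
  unfold Curve.del
  exact Finset.dvd_sum fun k _ => Dvd.dvd.mul_left (h k z hz) _

/-- the zeros and poles of the value of a Laurent polynomial -/
theorem zer (c : Curve N) (g : Lau N) (hg : c.ev g ≠ 0) :
    ∃ T : Finset c.P, (∀ z, z ∉ T → c.ord z (c.ev g) = 0) ∧
      (T.card : ℝ) ≤ 2 * ∑ m ∈ g.coeff.support, c.ht m 0 := by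
  classical
  have hint : ∀ z, ((c.ord z (c.ev g)).untop₀ : WithTop ℤ) = c.ord z (c.ev g) := fun z =>
    WithTop.coe_untop₀_of_ne_top ((a_ring N c).2.2.2 _ hg z trivial)
  have hfin : c.LocFin (fun z => ((c.ord z (c.ev g)).untop₀ : ℤ)) :=
    (a_ord N c).2.2.2.2.2.1 _ hg
  have hlow : ∀ z, -∑ m ∈ g.coeff.support, |c.del z m| ≤ (c.ord z (c.ev g)).untop₀ := by
    intro z
    obtain ⟨o1, o2, o3, o4, o5, o6⟩ := (a_ord N c).1 z trivial
    have key : ∀ s : Finset (Fin N → ℤ), s ⊆ g.coeff.support →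
        ((-∑ m ∈ g.coeff.support, |c.del z m| : ℤ) : WithTop ℤ)
          ≤ c.ord z (∑ m ∈ s, g.coeff m • c.mon m) := by
      intro s
      induction s using Finset.induction_on with
      | empty =>
        intro _
        rw [Finset.sum_empty, ord_zero]
        exact le_top
      | insert a s ha ih =>
        intro hs
        rw [Finset.sum_insert ha]
        refine le_trans (le_min ?_ (ih fun x hx => hs (Finset.mem_insert_of_mem hx))) (o2 _ _)
        refine le_trans ?_ (o3 _ _)
        rw [o6]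
        have h1 : |c.del z a| ≤ ∑ m ∈ g.coeff.support, |c.del z m| :=
          Finset.single_le_sum (f := fun m => |c.del z m|) (fun _ _ => abs_nonneg _)
            (hs (Finset.mem_insert_self _ _))
        have h2 := neg_abs_le (c.del z a)
        exact_mod_cast (by linarith : -∑ m ∈ g.coeff.support, |c.del z m| ≤ c.del z a)
    have e1 : c.ev g = ∑ m ∈ g.coeff.support, g.coeff m • c.mon m := by
      have hg' : g = ∑ m ∈ g.coeff.support, AddMonoidAlgebra.single m (g.coeff m) := by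
        conv_lhs => rw [← AddMonoidAlgebra.sum_coeff_single g]
        rfl
      conv_lhs => rw [hg']
      rw [map_sum]
      exact Finset.sum_congr rfl fun m _ => c.ev_single m _
    have h3 := key _ (Finset.Subset.refl _)
    rw [← e1, ← hint z] at h3
    exact WithTop.coe_le_coe.mp h3
  have hfin' : (Function.support fun z => (((c.ord z (c.ev g)).untop₀ : ℤ) : ℝ)).Finite := hfin
  refine ⟨hfin'.toFinset, ?_, ?_⟩
  · intro z hz
    rw [Set.Finite.mem_toFinset, Function.mem_support, not_not] at hz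
    rw [← hint z]
    have : (c.ord z (c.ev g)).untop₀ = 0 := by exact_mod_cast hz
    rw [this]
    rfl
  · have pF : Pc c 0 (fun z => ((c.ord z (c.ev g)).untop₀ : ℤ)) 0 :=
      ⟨hfin, a_jen N c _ hg 0⟩
    have pabs : ∀ m', Pc c 0 (fun z => (|c.del z m'| : ℤ)) (c.ht m' 0) :=
      fun m' => ⟨(a_cnt N c).2.2.2 _ _ ((a_ord N c).2.2.2.2.2.2.2 m') (fun z _ => by
        push_cast; rw [abs_abs]), ((a_ht N c).2 0 m').symm⟩
    have p2 := pF.add a_cnt ((Pc.sum a_cnt g.coeff.support (fun m _ => pabs m)).smul a_cnt 2)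
    have p3 : c.LocFin (fun z => |(((c.ord z (c.ev g)).untop₀ : ℤ) : ℝ)|) :=
      (a_cnt N c).2.2.2 _ _ hfin fun z _ => by rw [abs_abs]
    have h4 : (hfin'.toFinset.card : ℝ)
        ≤ c.cnt (fun z => |(((c.ord z (c.ev g)).untop₀ : ℤ) : ℝ)|) 0 := by
      unfold Curve.cnt
      have h5 : Function.support (fun z => |(((c.ord z (c.ev g)).untop₀ : ℤ) : ℝ)|)
          ⊆ (hfin'.toFinset : Set c.P) := by
        intro z hz
        rw [Set.Finite.coe_toFinset]
        intro h6
        have h7 : (((c.ord z (c.ev g)).untop₀ : ℤ) : ℝ) = 0 := h6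
        exact hz (show |(((c.ord z (c.ev g)).untop₀ : ℤ) : ℝ)| = 0 by rw [h7, abs_zero])
      rw [finsum_eq_sum_of_support_subset _ h5]
      calc (hfin'.toFinset.card : ℝ) = ∑ _z ∈ hfin'.toFinset, (1 : ℝ) := by simp
        _ ≤ _ := by
          refine Finset.sum_le_sum fun z hz => ?_
          rw [Set.Finite.mem_toFinset, Function.mem_support] at hz
          have h7 : (c.ord z (c.ev g)).untop₀ ≠ 0 := by
            intro h8
            exact hz (by rw [h8]; simp)
          have h8 : 1 ≤ |(c.ord z (c.ev g)).untop₀| := Int.one_le_abs h7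
          exact_mod_cast h8
    refine h4.trans ?_
    have h9 := (a_cnt N c).2.2.1 _ _ p3 p2.1 (fun z _ => ?_) 0
    · rw [p2.2, zero_add] at h9
      exact h9
    · have h10 := hlow z
      have h11 : (0 : ℤ) ≤ ∑ m ∈ g.coeff.support, |c.del z m| :=
        Finset.sum_nonneg fun _ _ => abs_nonneg _
      have h12 : |(c.ord z (c.ev g)).untop₀| ≤ (c.ord z (c.ev g)).untop₀
          + 2 * ∑ m ∈ g.coeff.support, |c.del z m| := by
        rcases abs_cases (c.ord z (c.ev g)).untop₀ with h | h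
        · rw [h.1]
          linarith
        · rw [h.1]
          linarith
      have h13 : ((|(c.ord z (c.ev g)).untop₀| : ℤ) : ℝ) ≤ (((c.ord z (c.ev g)).untop₀
          + 2 * ∑ m ∈ g.coeff.support, |c.del z m| : ℤ) : ℝ) := by exact_mod_cast h12
      push_cast at h13 ⊢
      exact h13

end Pool.Agent.Y192.FA
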