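import Pool.Agent.Y192.OG.StC
import Pool.Agent.W603.LV.Hgt

/-!
Points of a torus over function fields of one variable, with a derivation: the analogues of the
definitions for holomorphic curves in `Y192/OG/Defs.lean`. The archimedean terms are zero here; they
are kept in order to have the same shape of all statements.
-/

set_option autoImplicit false

namespace Pool.Agent.Y192.FA

open Filter Set Topology FF Pool.Agent.W603.LV

/-- a point of the torus over a function field of one variable over the complex numbers, a nonzero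
derivation, and a finite set of places which contains the poles of the derivation -/
structure Curve (N : ℕ) where
  L : Type
  [fL : Field L]
  [aL : Algebra ℂ L]
  [ffL : IsFF ℂ L]
  x : Fin N → Lˣ
  D : Derivation ℂ L L
  hD : D ≠ 0
  B : Finset (Place ℂ L)
  hB : ∀ z : Place ℂ L, vo z D < 0 → z ∈ B

attribute [instance] Curve.fL Curve.aL Curve.ffL

namespace Curve

variable {N : ℕ} (c : Curve N)

/-- the places -/
abbrev P : Type := Place ℂ c.L

/-- all places -/
def E : Set c.P := Set.univ

/-- the places where the coordinates are units and the derivation is regular -/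
def U : Set c.P := {z | z ∉ c.B ∧ ∀ i, z.ord (c.x i : c.L) = 0}

/-- a dummy radius -/
def r0 (_c : Curve N) : ℝ := 1

theorem U_sub : c.U ⊆ c.E := fun _ _ => trivial

theorem vo_U {z : c.P} (hz : z ∈ c.U) : 0 ≤ vo z c.D := by
  by_contra h
  push Not at h
  exact hz.1 (c.hB z h)

/-- the functions which are regular on `U` -/
def Mr : Subalgebra ℂ c.L where
  carrier := {f | ∀ z ∈ c.U, z.Reg f}
  mul_mem' := fun hf hg z hz => z.reg_mul (hf z hz) (hg z hz)
  add_mem' := fun hf hg z hz => z.reg_add (hf z hz) (hg z hz)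
  algebraMap_mem' := fun x z _ => z.reg_const x

theorem mem_Mr {f : c.L} : f ∈ c.Mr ↔ ∀ z ∈ c.U, z.Reg f := Iff.rfl

/-- `D` maps functions of order at least `k` to functions of order at least `k - 1 + vo` -/
theorem ge_D (z : c.P) {f : c.L} {k : ℤ} (h : Ge z k f) : Ge z (k - 1 + vo z c.D) (c.D f) := by
  by_cases hf : f = 0
  · rw [hf, map_zero]
    exact Or.inl rfl
  have hk := h.resolve_left hf
  by_cases h0 : z.ord f = 0
  · by_cases hc : c.D f = 0
    · exact Or.inl hc
    obtain ⟨g, hg, e⟩ := der_mul z (ord_unif z) c.hD (f := f) (Or.inr h0.ge)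
    right
    have hg0 : g ≠ 0 := by
      rintro rfl
      rw [mul_zero] at e
      exact hc e
    have hp : c.D (unif z) ≠ 0 := by
      intro h1
      rw [h1, zero_mul] at e
      exact hc e
    rw [e, z.ord_mul hp hg0]
    have h1 := hg.resolve_left hg0
    have h2 : z.ord (c.D (unif z)) = vo z c.D := rfl
    omega
  · right
    obtain ⟨-, h1⟩ := ord_der z c.hD h0
    rw [h1]
    omega

/-- at the points of `U`, the derivation preserves regularity -/
theorem reg_D {z : c.P} (hz : z ∈ c.U) {f : c.L} (h : z.Reg f) : z.Reg (c.D f) := by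
  by_cases hc : c.D f = 0
  · exact Or.inl hc
  obtain ⟨g, hg, e⟩ := der_mul z (ord_unif z) c.hD (f := f) h
  right
  have hg0 : g ≠ 0 := by
    rintro rfl
    rw [mul_zero] at e
    exact hc e
  have hp : c.D (unif z) ≠ 0 := by
    intro h1
    rw [h1, zero_mul] at e
    exact hc e
  rw [e, z.ord_mul hp hg0]
  have h1 := hg.resolve_left hg0
  have h2 : z.ord (c.D (unif z)) = vo z c.D := rfl
  have h3 := c.vo_U hz
  omega

/-- the derivation of the ring of functions -/
noncomputable def Dr : Derivation ℂ c.Mr c.Mr where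
  toFun f := ⟨c.D f, fun z hz => c.reg_D hz (f.2 z hz)⟩
  map_add' f g := by
    apply Subtype.ext
    exact map_add c.D _ _
  map_smul' x f := by
    apply Subtype.ext
    exact c.D.map_smul x (f : c.L)
  map_one_eq_zero' := by
    apply Subtype.ext
    exact c.D.map_one_eq_zero
  leibniz' f g := by
    apply Subtype.ext
    exact c.D.leibniz (f : c.L) (g : c.L)

theorem coe_Dr (f : c.Mr) : ((c.Dr f : c.Mr) : c.L) = c.D f := rfl

/-- the order of an element of the ring -/
noncomputable def ord (z : c.P) (f : c.Mr) : WithTop ℤ := by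
  classical
  exact if f = 0 then ⊤ else ((z.ord (f : c.L) : ℤ) : WithTop ℤ)

theorem ord_of_ne {z : c.P} {f : c.Mr} (hf : f ≠ 0) :
    c.ord z f = ((z.ord (f : c.L) : ℤ) : WithTop ℤ) := by
  unfold ord
  rw [if_neg hf]

theorem ord_top (z : c.P) : c.ord z 0 = ⊤ := by
  unfold ord
  rw [if_pos rfl]

theorem le_ord {z : c.P} {f : c.Mr} {k : ℤ} : (k : WithTop ℤ) ≤ c.ord z f ↔ Ge z k (f : c.L) := by
  by_cases hf : f = 0
  · rw [hf, ord_top]
    simp [Ge]
  · have h1 : (f : c.L) ≠ 0 := fun h => hf (Subtype.ext h)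
    rw [ord_of_ne c hf, WithTop.coe_le_coe]
    simp [Ge, h1]

/-- the function vanishes at the place -/
def vz (F : c.Mr) (z : c.P) : Prop := (1 : WithTop ℤ) ≤ c.ord z F

/-- dummy (the logarithm of the absolute value of a monomial) -/
noncomputable def lam (_z : c.P) (_m : Fin N → ℤ) : ℝ := 0

/-- dummy (the logarithm of the absolute value of a function) -/
noncomputable def lv (_F : c.Mr) (_z : c.P) : ℝ := 0

/-- the order of the monomial with exponent `m` -/
noncomputable def del (z : c.P) (m : Fin N → ℤ) : ℤ := ∑ i, m i * z.ord (c.x i : c.L)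

/-- one plus the order of the pole of the derivation, outside of `U` -/
noncomputable def bad (z : c.P) : ℤ := by
  classical
  exact if z ∈ c.U then 0 else 1 + max (-(vo z c.D)) 0

/-- dummy mean value -/
noncomputable def cav {N : ℕ} {c : Curve N} (_f : c.P → ℝ) (_ _R : ℝ) : ℝ := 0

/-- dummy integrability -/
def CInt {N : ℕ} {c : Curve N} (_f : c.P → ℝ) (_ _R : ℝ) : Prop := True

/-- the counting function of a divisor, with real coefficients -/
noncomputable def cnt (A : c.P → ℝ) (_R : ℝ) : ℝ := ∑ᶠ z : c.P, A z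

/-- divisors with finite support -/
def LocFin (A : c.P → ℝ) : Prop := (Function.support A).Finite

/-- the height of a monomial -/
noncomputable def ht (m : Fin N → ℤ) (R : ℝ) : ℝ :=
  cav (fun z => |c.lam z m|) 0 R + c.cnt (fun z => (|c.del z m| : ℤ)) R

/-- the characteristic -/
noncomputable def ch (R : ℝ) : ℝ := ∑ i : Fin N, c.ht (Pi.single i 1) R

/-- monomials in the coordinate functions -/
noncomputable def monf (m : Fin N → ℤ) : c.Lˣ := ∏ i, c.x i ^ m i

theorem ord_monf (z : c.P) (m : Fin N → ℤ) : z.ord (c.monf m : c.L) = c.del z m := by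
  unfold monf del
  have h : ∀ s : Finset (Fin N), z.ord ((∏ i ∈ s, c.x i ^ m i : c.Lˣ) : c.L)
      = ∑ i ∈ s, m i * z.ord (c.x i : c.L) := by
    intro s
    classical
    induction s using Finset.induction_on with
    | empty => simp [z.ord_one]
    | insert a s ha ih =>
      rw [Finset.prod_insert ha, Finset.sum_insert ha, Units.val_mul,
        z.ord_mul (Units.ne_zero _) (Units.ne_zero _), ih, Units.val_zpow_eq_zpow_val, z.ord_zpow]
  exact h Finset.univ

theorem del_U {z : c.P} (hz : z ∈ c.U) (m : Fin N → ℤ) : c.del z m = 0 := by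
  unfold del
  exact Finset.sum_eq_zero fun i _ => by rw [hz.2 i, mul_zero]

/-- monomials as elements of the ring -/
noncomputable def mon (m : Fin N → ℤ) : c.Mr :=
  ⟨(c.monf m : c.L), fun z hz => Or.inr (by rw [ord_monf, c.del_U hz])⟩

theorem coe_mon (m : Fin N → ℤ) : (c.mon m : c.L) = (c.monf m : c.L) := rfl

theorem mon_zero : c.mon 0 = 1 := by
  apply Subtype.ext
  simp [coe_mon, monf]

theorem mon_add (m m' : Fin N → ℤ) : c.mon (m + m') = c.mon m * c.mon m' := by
  apply Subtype.ext
  rw [coe_mon]
  change _ = (c.mon m : c.L) * (c.mon m' : c.L)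
  rw [coe_mon, coe_mon, ← Units.val_mul]
  congr 1
  unfold monf
  rw [← Finset.prod_mul_distrib]
  exact Finset.prod_congr rfl fun i _ => by rw [Pi.add_apply, zpow_add]

/-- monomials as units -/
noncomputable def monu (m : Fin N → ℤ) : c.Mrˣ where
  val := c.mon m
  inv := c.mon (-m)
  val_inv := by rw [← c.mon_add, add_neg_cancel, c.mon_zero]
  inv_val := by rw [← c.mon_add, neg_add_cancel, c.mon_zero]

/-- evaluation of Laurent polynomials at the point -/
noncomputable def ev : AddMonoidAlgebra ℂ (Fin N → ℤ) →ₐ[ℂ] c.Mr :=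
  AddMonoidAlgebra.lift ℂ c.Mr (Fin N → ℤ)
    { toFun := fun m => c.mon m.toAdd
      map_one' := c.mon_zero
      map_mul' := fun m m' => c.mon_add m.toAdd m'.toAdd }

theorem ev_single (m : Fin N → ℤ) (x : ℂ) : c.ev (AddMonoidAlgebra.single m x) = x • c.mon m := by
  unfold ev
  rw [AddMonoidAlgebra.lift_single]
  rfl

/-- the Wronskian in the ring -/
noncomputable def wrd {M : ℕ} (f : Fin M → c.Mr) : c.Mr :=
  (Matrix.of fun b l : Fin M => ((c.Dr : c.Mr → c.Mr)^[(l : ℕ)]) (f b)).det

end Curve

/-- dummy radii, and the height is positive -/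
structure Rad {N : ℕ} (c : Curve N) (F : c.Mr) where
  s : ℕ → ℝ
  hs : ∀ n, c.r0 + 2 ≤ s n
  pos : ∀ R, 0 < c.ch R

/-- comparison up to an arbitrarily small multiple of the characteristic -/
def Le (T A B : ℕ → ℝ) : Prop := ∀ δ : ℝ, 0 < δ → ∀ᶠ n in atTop, A n ≤ B n + δ * T n

/-- functions which are controlled by a monomial up to coefficients of small growth -/
def Ctl {N : ℕ} {c : Curve N} {F : c.Mr} (_r : Rad c F) (g : c.Mr) (_lm : c.P → ℝ) (nu : c.P → ℤ)
    (Φ : Finset (Fin N → ℤ)) (w : ℕ) : Prop :=
  True ∧ ∀ z ∈ c.E, ((nu z - w * (∑ φ ∈ Φ, |c.del z φ| + c.bad z) : ℤ) : WithTop ℤ) ≤ c.ord z g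

end Pool.Agent.Y192.FA
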