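import Pool.Agent.Y192.KC.ZDefs
import Pool.Agent.Y192.KC.PrDefs
import Pool.Agent.Y192.FA.Stm
import Pool.Agent.W603.PV.Hgt

/-!
Curves in the covers: maps from affine and projective curves, degree bounds, and statements of the
steps.
-/

set_option autoImplicit false

namespace Pool.Agent.Y192.FA

open MvPolynomial FF Pool.Agent.W603.LV Pool.Agent.W603.PV Pool.Agent.Y192.OG
open Pool.Agent.Y192.KC (Cov ZCov ZField ZRed Poly WH PseudoGm PseudoRational laur)

instance isFF_ratFunc : IsFF ℂ (RatFunc ℂ) := by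
  refine IsFF.of_finite (f := (RatFunc.X : RatFunc ℂ)) RatFunc.transcendental_X ?_
  rw [RatFunc.adjoin_X]
  refine ⟨⟨{1}, ?_⟩⟩
  rw [eq_top_iff]
  intro x _
  have h : x = (⟨x, IntermediateField.mem_top⟩ : (⊤ : IntermediateField ℂ (RatFunc ℂ))) •
      (1 : RatFunc ℂ) := by
    rw [IntermediateField.smul_def, smul_eq_mul, mul_one]
  rw [h]
  exact Submodule.smul_mem _ _ (Submodule.subset_span (by simp))

section defs

variable {n r : ℕ} (X : Cov n r) (m : ℕ) {L : Type} [Field L] [Algebra ℂ L] (t : Fin (n + 1) → L)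
  (w : Fin r → L)

/-- `u`, `v` are elements of the function field `M` of a smooth projective curve, and homogeneous
coordinates of a morphism from the curve to the projective variety with the generic point `(t, w)`,
which maps all points outside of the finite set `S` to the open set where the form
`G (t 0 ^ m, …, t n ^ m)` does not vanish. -/
structure MapTo {M : Type} [Field M] [Algebra ℂ M] (S : Finset (Place ℂ M)) (u : Fin (n + 1) → M)
    (v : Fin r → M) : Prop where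
  ne : ∃ i, u i ≠ 0
  mem : ∀ (B : Poly n r) (D : ℕ), WH X m B D → aeval (Sum.elim t w) B = 0 →
    aeval (Sum.elim u v) B = 0
  G_ne : aeval (fun i => u i ^ m) X.G ≠ 0
  off : ∀ P : Place ℂ M, P ∉ S → P.ord (aeval (fun i => u i ^ m) X.G) = m * X.q * pord P u

/-- Outside of a proper closed subset, the degrees of the maps from curves to the variety `X°` are
at most `A` times the maximum of `0` and `2 g - 2 + |S|`. -/
def LinB : Prop :=
  ∃ (B : Poly n r) (D : ℕ), WH X m B D ∧ aeval (Sum.elim t w) B ≠ 0 ∧ ∃ A : ℕ,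
    ∀ (M : Type) [Field M] [Algebra ℂ M] [IsFF ℂ M] (S : Finset (Place ℂ M))
      (u : Fin (n + 1) → M) (v : Fin r → M), MapTo X m t w S u v →
        aeval (Sum.elim u v) B ≠ 0 → pht ℂ u ≤ A * max (canDeg ℂ M + S.card) 0

/-- Outside of a proper closed subset, the degrees of the maps from curves to the variety `X°` are
bounded by a function of `2 g - 2 + |S|`. -/
def EulB : Prop :=
  ∃ (B : Poly n r) (D : ℕ), WH X m B D ∧ aeval (Sum.elim t w) B ≠ 0 ∧ ∃ β : ℤ → ℤ,
    ∀ (M : Type) [Field M] [Algebra ℂ M] [IsFF ℂ M] (S : Finset (Place ℂ M))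
      (u : Fin (n + 1) → M) (v : Fin r → M), MapTo X m t w S u v →
        aeval (Sum.elim u v) B ≠ 0 → pht ℂ u ≤ β (canDeg ℂ M + S.card)

/-- Outside of a proper closed subset, the degrees of the maps from each curve to the variety `X°`
are bounded. -/
def EachB : Prop :=
  ∃ (B : Poly n r) (D : ℕ), WH X m B D ∧ aeval (Sum.elim t w) B ≠ 0 ∧
    ∀ (M : Type) [Field M] [Algebra ℂ M] [IsFF ℂ M] (S : Finset (Place ℂ M)), ∃ b : ℤ,
      ∀ (u : Fin (n + 1) → M) (v : Fin r → M), MapTo X m t w S u v →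
        aeval (Sum.elim u v) B ≠ 0 → pht ℂ u ≤ b

/-- The zero and the pole of the coordinate on the projective line. -/
noncomputable def zeroInf : Finset (Place ℂ (RatFunc ℂ)) :=
  (finite_support (k := ℂ) (RatFunc.X : RatFunc ℂ)).toFinset

/-- Outside of a proper closed subset, the degrees of the maps from the multiplicative group to the
variety `X°` are bounded. -/
def GmB : Prop :=
  ∃ (B : Poly n r) (D : ℕ), WH X m B D ∧ aeval (Sum.elim t w) B ≠ 0 ∧ ∃ b : ℤ,
    ∀ (u : Fin (n + 1) → RatFunc ℂ) (v : Fin r → RatFunc ℂ), MapTo X m t w zeroInf u v →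
      aeval (Sum.elim u v) B ≠ 0 → pht ℂ u ≤ b

end defs

/-! The steps. -/

/-- maps to the covers are admissible -/
def St_fadm : Prop :=
  ∀ (n r : ℕ) (X : ZCov n r) (m : ℕ), 0 < m → (∀ j, X.e j ∣ m) →
    ∀ (L : Type) [Field L] [Algebra ℂ L] (t : Fin (n + 1) → L) (w : Fin r → L), ZField X m L t w →
    ∀ (K : Type) [Field K] [Algebra ℂ K] (x : Fin n → Kˣ),
    (∀ (f : MvPolynomial (Fin (n + 1)) ℂ) (k : ℕ), f.IsHomogeneous k →
      (ep x (laur f) = 0 ↔ f ∈ X.I)) →
    ∀ (c : FA.Curve n) (S : Finset (Place ℂ c.L)) (u : Fin (n + 1) → c.L) (v : Fin r → c.L),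
      (∀ i, u i ≠ 0) → MapTo X.toCov m t w S u v →
      (∀ i : Fin n, (c.x i : c.L) = (u i.succ / u 0) ^ m) → (∀ z ∈ S, z ∈ c.B) →
      FA.AdmG X.FL X.eL m c ∧ ∀ g, ep x g = 0 → c.ev g = 0

/-- the exceptional set as a closed subset -/
def St_fval : Prop :=
  ∀ (n r : ℕ) (X : ZCov n r) (K : Type) [Field K] [Algebra ℂ K] (x : Fin n → Kˣ),
    (∀ (f : MvPolynomial (Fin (n + 1)) ℂ) (k : ℕ), f.IsHomogeneous k →
      (ep x (laur f) = 0 ↔ f ∈ X.I)) →
    ∀ G0 : Lau n, ep x G0 ≠ 0 →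
    ∃ (g : MvPolynomial (Fin (n + 1)) ℂ) (k : ℕ), g.IsHomogeneous k ∧ g ∉ X.I ∧
      ∀ (M : Type) [Field M] [Algebra ℂ M] (y : Fin n → Mˣ) (a : Fin (n + 1) → M),
        (∀ i, a i ≠ 0) → (∀ i, (y i : M) = a i.succ / a 0) → aeval a g ≠ 0 → ep y G0 ≠ 0

/-- the height of a point of a torus, if the heights are bounded by the weighted number of points
of the exceptional set: use the derivation `h * d / d h` for a coordinate `h` -/
def St_fnum : Prop :=
  ∀ (n : ℕ) (C : ℝ) (m : ℕ), 0 ≤ C → 4 * C ≤ m → 0 < m →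
    ∀ (M : Type) [Field M] [Algebra ℂ M] [IsFF ℂ M] (x : Fin n → Mˣ) (S : Finset (Place ℂ M)),
    (∀ i, ∀ z : Place ℂ M, z ∉ S → (m : ℤ) ∣ z.ord (x i : M)) →
    (∀ (D : Derivation ℂ M M) (hD : D ≠ 0) (B : Finset (Place ℂ M))
      (hB : ∀ z : Place ℂ M, vo z D < 0 → z ∈ B), S ⊆ B → ∀ i,
      (⟨M, x, D, hD, B, hB⟩ : FA.Curve n).ht (Pi.single i 1) 0 ≤
        C * (⟨M, x, D, hD, B, hB⟩ : FA.Curve n).bB) →
    ∀ i, ((∑ᶠ z : Place ℂ M, |z.ord (x i : M)| : ℤ) : ℝ) ≤
      2 * C * max (2 * canDeg ℂ M + 3 * (S.card : ℝ)) 0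

/-- the degree of a map and the heights of the quotients of the coordinates -/
def St_fpht : Prop :=
  ∀ (n m : ℕ), 0 < m → ∀ (M : Type) [Field M] [Algebra ℂ M] [IsFF ℂ M] (u : Fin (n + 1) → M),
    (∀ i, u i ≠ 0) →
    m * pht ℂ u ≤ ∑ i : Fin n, ∑ᶠ z : Place ℂ M, |z.ord ((u i.succ / u 0) ^ m)|

/-- maps from the projective line without at most two points -/
def St_fsmall : Prop :=
  ∀ (n r : ℕ) (X : ZCov n r) (m : ℕ), 0 < m → (∀ j, X.e j ∣ m) →
    ∀ (L : Type) [Field L] [Algebra ℂ L] (t : Fin (n + 1) → L) (w : Fin r → L), ZField X m L t w →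
    PseudoGm X.toCov m t w →
    ∃ (B : Poly n r) (D : ℕ), WH X.toCov m B D ∧ aeval (Sum.elim t w) B ≠ 0 ∧
      ∀ (M : Type) [Field M] [Algebra ℂ M] [IsFF ℂ M] (S : Finset (Place ℂ M))
        (u : Fin (n + 1) → M) (v : Fin r → M), canDeg ℂ M < 0 → canDeg ℂ M + S.card ≤ 0 →
        MapTo X.toCov m t w S u v → aeval (Sum.elim u v) B ≠ 0 → pht ℂ u ≤ 0

/-- from bounded degrees to the multiplicative group -/
def St_fgm : Prop :=
  ∀ (n r : ℕ) (X : ZCov n r) (m : ℕ), 0 < m → (∀ j, X.e j ∣ m) →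
    ∀ (L : Type) [Field L] [Algebra ℂ L] (t : Fin (n + 1) → L) (w : Fin r → L), ZField X m L t w →
    GmB X.toCov m t w → PseudoGm X.toCov m t w

end Pool.Agent.Y192.FA
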