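import Pool.Agent.Y192.FA.GDefs
import Pool.Agent.Y192.KC.All2
import Pool.Agent.TH143.GE.Form

/-!
Degree bounds for curves in the covers: the theorem from the steps.
-/

set_option autoImplicit false

namespace Pool.Agent.Y192.FA

open MvPolynomial FF Pool.Agent.W603.LV Pool.Agent.W603.PV Pool.Agent.Y192.OG
open Pool.Agent.W602.GT (LogGeneralType)
open Pool.Agent.Y192.KC (Cov ZCov ZField ZRed Poly WH PseudoGm PseudoRational laur OffG exists_K
  redL_of mainZ_all St_zred)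
open Pool.Agent.Y641.KZ (sb aeval_sb wh_sb)

variable {n r : ℕ}

theorem lin_eul {X : Cov n r} {m : ℕ} {L : Type} [Field L] [Algebra ℂ L] {t : Fin (n + 1) → L}
    {w : Fin r → L} (h : LinB X m t w) : EulB X m t w := by
  obtain ⟨B, D, h1, h2, A, h3⟩ := h
  exact ⟨B, D, h1, h2, fun a => A * max a 0, h3⟩

theorem eul_each {X : Cov n r} {m : ℕ} {L : Type} [Field L] [Algebra ℂ L] {t : Fin (n + 1) → L}
    {w : Fin r → L} (h : EulB X m t w) : EachB X m t w := by
  obtain ⟨B, D, h1, h2, β, h3⟩ := h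
  exact ⟨B, D, h1, h2, fun M _ _ _ S => ⟨β (canDeg ℂ M + S.card), h3 M S⟩⟩

theorem each_gm {X : Cov n r} {m : ℕ} {L : Type} [Field L] [Algebra ℂ L] {t : Fin (n + 1) → L}
    {w : Fin r → L} (h : EachB X m t w) : GmB X m t w := by
  obtain ⟨B, D, h1, h2, h3⟩ := h
  exact ⟨B, D, h1, h2, h3 (RatFunc ℂ) zeroInf⟩

theorem wh_mul {X : Cov n r} {m : ℕ} {B B' : Poly n r} {D D' : ℕ} (h : WH X m B D)
    (h' : WH X m B' D') : WH X m (B * B') (D + D') :=
  IsWeightedHomogeneous.mul h h'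

theorem wh_prod (X : Cov n r) (m : ℕ) :
    WH X m (∏ i : Fin (n + 1), (MvPolynomial.X (Sum.inl i) : Poly n r)) (∑ _i : Fin (n + 1), 1) := by
  refine IsWeightedHomogeneous.prod _ _ _ fun i _ => ?_
  have := isWeightedHomogeneous_X ℂ (Sum.elim (fun _ => 1) (X.wt m) : Fin (n + 1) ⊕ Fin r → ℕ)
    (Sum.inl i)
  rwa [Sum.elim_inl] at this

theorem canDeg_of_neg {M : Type} [Field M] [Algebra ℂ M] [IsFF ℂ M] (h : canDeg ℂ M < 0) :
    canDeg ℂ M = -2 := by
  obtain ⟨t, ht⟩ := Pool.Agent.TH143.GE.rational_of_neg (k := ℂ) (K := M) h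
  exact Pool.Agent.W619.PQ.canDeg_rational ht

/-- the linear bound -/
theorem main_lin (h_prime : FA.St_prime) (h_zred : St_zred) (h_adm : St_fadm) (h_val : St_fval)
    (h_num : St_fnum) (h_pht : St_fpht) (h_small : St_fsmall) (X : ZCov n r) (hR : ¬ ZRed X) :
    ∃ m0 : ℕ, ∀ m, m0 ≤ m → 0 < m → (∀ j, X.e j ∣ m) →
      ∀ (L : Type) [Field L] [Algebra ℂ L] (t : Fin (n + 1) → L) (w : Fin r → L),
      ZField X m L t w → PseudoGm X.toCov m t w → LinB X.toCov m t w := by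
  classical
  obtain ⟨K, i1, i2, x, hx, hgen⟩ := exists_K X
  have hRL : ¬ Pool.Agent.Y192.KC.RedL x X.FL X.eL := fun h => hR (h_zred n r X K x hx h)
  have hFne : ∀ j, ep x (X.FL j) ≠ 0 := by
    intro j
    refine Fin.cases ?_ (fun j => ?_) j
    · intro h
      exact X.hGI ((hx X.G X.q X.hG).mp h)
    · intro h
      exact X.hFI j ((hx (X.F j) (X.d j) (X.hF j)).mp h)
  obtain ⟨Γ, A, D, S, a, m0, G, C, hs, hG, hk, hj, hC, hcurves⟩ :=
    h_prime n (r + 1) K x X.FL X.eL hFne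
  have htop : Γ = ⊤ := by
    by_contra hne
    exact hRL (redL_of hs hG hk hj hne)
  obtain ⟨g, k, hg, hgI, hgval⟩ := h_val n r X K x hx G hG
  set CC : ℝ := ∑ i : Fin n, C (Pi.single i 1) with hCC
  have hCC0 : 0 ≤ CC := Finset.sum_nonneg fun i _ => hC _
  have hCi : ∀ i : Fin n, C (Pi.single i 1) ≤ CC := fun i =>
    Finset.single_le_sum (f := fun i : Fin n => C (Pi.single i 1)) (fun i _ => hC _)
      (Finset.mem_univ i)
  refine ⟨max m0 ⌈4 * CC⌉₊, fun m hm hm0 he L _ _ t w hF hP => ?_⟩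
  obtain ⟨B0, D0, hB1, hB2, hB3⟩ := h_small n r X m hm0 he L t w hF hP
  have hmC : 4 * CC ≤ (m : ℝ) :=
    (Nat.le_ceil _).trans (by exact_mod_cast (le_max_right _ _).trans hm)
  have hee : ∀ j, X.eL j ≠ 0 → X.eL j ∣ m := by
    intro j
    refine Fin.cases ?_ (fun j => ?_) j
    · intro h
      exact absurd rfl h
    · intro _
      exact he j
  have hti : ∀ i, t i ≠ 0 := by
    intro i h0
    have h1 : aeval (fun i => t i ^ m) (MvPolynomial.X i : MvPolynomial (Fin (n + 1)) ℂ) = 0 := by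
      rw [aeval_X, h0, zero_pow hm0.ne']
    exact X.hX i ((hF.van _ 1 (isHomogeneous_X _ _)).mp h1)
  refine ⟨B0 * (sb r m g * ∏ i : Fin (n + 1), (MvPolynomial.X (Sum.inl i) : Poly n r)), _,
    wh_mul hB1 (wh_mul (wh_sb X.toCov m hg) (wh_prod X.toCov m)), ?_, ⌈18 * (n : ℝ) * CC⌉₊, ?_⟩
  · rw [map_mul, map_mul, aeval_sb, map_prod]
    refine mul_ne_zero hB2 (mul_ne_zero (fun h => hgI ((hF.van g k hg).mp h))
      (Finset.prod_ne_zero_iff.mpr fun i _ => ?_))
    rw [aeval_X, Sum.elim_inl]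
    exact hti i
  · intro M _ _ _ T u v hM hne
    rw [map_mul, map_mul, aeval_sb, map_prod] at hne
    have h1 := left_ne_zero_of_mul hne
    have h2 := left_ne_zero_of_mul (right_ne_zero_of_mul hne)
    have h3 := right_ne_zero_of_mul (right_ne_zero_of_mul hne)
    have hu : ∀ i, u i ≠ 0 := by
      intro i
      have := Finset.prod_ne_zero_iff.mp h3 i (Finset.mem_univ i)
      rwa [aeval_X, Sum.elim_inl] at this
    by_cases hsm : canDeg ℂ M < 0 ∧ canDeg ℂ M + T.card ≤ 0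
    · exact (hB3 M T u v hsm.1 hsm.2 hM h1).trans (mul_nonneg (Int.natCast_nonneg _)
        (le_max_right _ _))
    -- the main case
    let y : Fin n → Mˣ := fun i => Units.mk0 ((u i.succ / u 0) ^ m)
      (pow_ne_zero _ (div_ne_zero (hu _) (hu 0)))
    have hy : ∀ i, (y i : M) = (u i.succ / u 0) ^ m := fun i => rfl
    have hnum := h_num n CC m hCC0 hmC hm0 M y T (fun i z _ => by
      rw [hy, z.ord_pow]
      exact dvd_mul_right _ _) (fun E hE B hB hTB i => by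
        let c : FA.Curve n := ⟨M, y, E, hE, B, hB⟩
        obtain ⟨ha, hv⟩ := h_adm n r X m hm0 he L t w hF K x hx c T u v hu hM hy
          (fun z hz => hTB hz)
        have hev : c.ev G ≠ 0 := by
          intro h
          have h4 := (ev_eq_zero c G).mp h
          refine hgval M y (fun i => u i ^ m) (fun i => pow_ne_zero _ (hu i)) (fun i => ?_) h2 h4
          rw [hy, div_pow]
        have h5 := hcurves m ((le_max_left _ _).trans hm) hee c ha hv hev (Pi.single i 1)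
          (by rw [htop]; exact Submodule.mem_top)
        have hbB : 0 ≤ c.bB := Finset.sum_nonneg fun z _ =>
          add_nonneg zero_le_one (le_max_right _ _)
        exact h5.trans (mul_le_mul_of_nonneg_right (hCi i) hbB))
    have hpht := h_pht n m hm0 M u hu
    have hR1 : ((m : ℤ) * pht ℂ u : ℝ) ≤ n * (2 * CC * max (2 * canDeg ℂ M + 3 * (T.card : ℝ)) 0) := by
      have h6 : ((m * pht ℂ u : ℤ) : ℝ) ≤
          ((∑ i : Fin n, ∑ᶠ z : Place ℂ M, |z.ord ((u i.succ / u 0) ^ m)| : ℤ) : ℝ) := by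
        exact_mod_cast hpht
      have h7 : ((∑ i : Fin n, ∑ᶠ z : Place ℂ M, |z.ord ((u i.succ / u 0) ^ m)| : ℤ) : ℝ) ≤
          ∑ _i : Fin n, (2 * CC * max (2 * canDeg ℂ M + 3 * (T.card : ℝ)) 0) := by
        rw [Int.cast_sum]
        exact Finset.sum_le_sum fun i _ => hnum i
      rw [Finset.sum_const, Finset.card_univ, Fintype.card_fin, nsmul_eq_mul] at h7
      push_cast at h6 ⊢
      push_cast at h7
      exact h6.trans h7
    have hR2 : max (2 * (canDeg ℂ M : ℝ) + 3 * (T.card : ℝ)) 0 ≤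
        9 * ((max (canDeg ℂ M + T.card) 0 : ℤ) : ℝ) := by
      have h8 : max (2 * canDeg ℂ M + 3 * (T.card : ℤ)) 0 ≤ 9 * max (canDeg ℂ M + T.card) 0 := by
        by_cases hc : canDeg ℂ M < 0
        · have h9 := canDeg_of_neg hc
          have h10 : 0 < canDeg ℂ M + T.card := by
            by_contra hcon
            exact hsm ⟨hc, not_lt.mp hcon⟩
          omega
        · omega
      exact_mod_cast h8
    by_contra hcon
    rw [not_le] at hcon
    have h11 : ((⌈18 * (n : ℝ) * CC⌉₊ : ℤ) * max (canDeg ℂ M + T.card) 0 : ℝ) < pht ℂ u := by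
      exact_mod_cast hcon
    have h12 : (0 : ℝ) ≤ ((max (canDeg ℂ M + T.card) 0 : ℤ) : ℝ) := by
      exact_mod_cast le_max_right _ _
    have h13 : (18 * (n : ℝ) * CC) * ((max (canDeg ℂ M + T.card) 0 : ℤ) : ℝ) ≤
        (⌈18 * (n : ℝ) * CC⌉₊ : ℝ) * ((max (canDeg ℂ M + T.card) 0 : ℤ) : ℝ) :=
      mul_le_mul_of_nonneg_right (Nat.le_ceil _) h12
    have h14 : (1 : ℝ) ≤ m := by exact_mod_cast hm0
    have h15 : (0 : ℝ) ≤ n := Nat.cast_nonneg _
    have h16 : (n : ℝ) * (2 * CC * max (2 * canDeg ℂ M + 3 * (T.card : ℝ)) 0) ≤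
        (18 * (n : ℝ) * CC) * ((max (canDeg ℂ M + T.card) 0 : ℤ) : ℝ) := by
      have h17 := mul_le_mul_of_nonneg_left hR2 (mul_nonneg (mul_nonneg h15 zero_le_two) hCC0)
      linarith
    have h18 : (0 : ℝ) ≤ (⌈18 * (n : ℝ) * CC⌉₊ : ℝ) * ((max (canDeg ℂ M + T.card) 0 : ℤ) : ℝ) :=
      mul_nonneg (Nat.cast_nonneg _) h12
    have h19 : (pht ℂ u : ℝ) ≤ m * pht ℂ u := by
      have h20 : (0 : ℝ) ≤ pht ℂ u := by
        refine h18.trans (le_of_lt ?_)
        exact_mod_cast hcon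
      nlinarith
    have h21 : ((⌈18 * (n : ℝ) * CC⌉₊ : ℝ)) * ((max (canDeg ℂ M + T.card) 0 : ℤ) : ℝ) <
        pht ℂ u := by
      exact_mod_cast hcon
    have h22 : ((m : ℤ) * pht ℂ u : ℝ) = m * pht ℂ u := by push_cast; ring
    rw [h22] at hR1
    linarith

/-- the equivalences -/
theorem mainG (h_prime : FA.St_prime) (h_zred : St_zred) (h_adm : St_fadm) (h_val : St_fval)
    (h_num : St_fnum) (h_pht : St_fpht) (h_small : St_fsmall) (h_gm : St_fgm) (X : ZCov n r) :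
    ∃ m0 : ℕ, ∀ m, m0 ≤ m → (∀ j, X.e j ∣ m) →
      ∀ (L : Type) [Field L] [Algebra ℂ L] (t : Fin (n + 1) → L) (w : Fin r → L),
      ZField X m L t w → ∀ d : ℕ, 1 ≤ d → Algebra.trdeg ℂ L = d →
      [LogGeneralType ℂ L d (OffG X.toCov m t), LinB X.toCov m t w, EulB X.toCov m t w,
        EachB X.toCov m t w, GmB X.toCov m t w, ¬ ZRed X].TFAE := by
  obtain ⟨m1, hm1⟩ := mainZ_all X
  have key : ∃ m2 : ℕ, ∀ m, m2 ≤ m → 0 < m → (∀ j, X.e j ∣ m) →
      ∀ (L : Type) [Field L] [Algebra ℂ L] (t : Fin (n + 1) → L) (w : Fin r → L),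
      ZField X m L t w → ¬ ZRed X → PseudoGm X.toCov m t w → LinB X.toCov m t w := by
    by_cases hR : ZRed X
    · exact ⟨0, fun m _ _ _ L _ _ t w _ h => absurd hR h⟩
    · obtain ⟨m2, hm2⟩ := main_lin h_prime h_zred h_adm h_val h_num h_pht h_small X hR
      exact ⟨m2, fun m h1 h2 h3 L _ _ t w h4 _ h5 => hm2 m h1 h2 h3 L t w h4 h5⟩
  obtain ⟨m2, hm2⟩ := key
  refine ⟨max 1 (max m1 m2), fun m hm he L _ _ t w hF d hd htr => ?_⟩
  have hm0 : 0 < m := lt_of_lt_of_le one_pos ((le_max_left _ _).trans hm)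
  have hZ := hm1 m (((le_max_left _ _).trans (le_max_right _ _)).trans hm) he L t w hF d hd htr
  have h14 := hZ.out 0 4
  have h34 := hZ.out 3 4
  tfae_have 1 ↔ 6 := h14
  tfae_have 6 → 2 := fun h => hm2 m (((le_max_right _ _).trans (le_max_right _ _)).trans hm) hm0 he
    L t w hF h (h34.mpr h)
  tfae_have 2 → 3 := lin_eul
  tfae_have 3 → 4 := eul_each
  tfae_have 4 → 5 := each_gm
  tfae_have 5 → 6 := fun h => h34.mp (h_gm n r X m hm0 he L t w hF h)
  tfae_finish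

end Pool.Agent.Y192.FA
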