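import Pool.Agent.Y192.FA.StB
import Pool.Agent.Y448.FA.RingOrd
import Pool.Agent.Y448.FA.Cl
import Pool.Agent.Y37.FA.Cnt
import Pool.Agent.Y812.FF.Ctl
import Pool.Agent.Y945.FA.Wr
import Pool.Agent.Y705.FA.Gwl
import Pool.Agent.Y155.FA.Cl2
import Pool.Agent.Y192.OG.C1
import Pool.Agent.Y192.OG.B9

/-!
Tools: divisors with a given counting function, dummies.
-/

set_option autoImplicit false

namespace Pool.Agent.Y192.FA

open Filter Set Topology FF Pool.Agent.Y192.OG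

theorem a_ring : St_ring := Pool.Agent.Y448.FA.t_ring
theorem a_ord : St_ord := Pool.Agent.Y448.FA.t_ord
theorem a_cnt : St_cnt := Pool.Agent.Y37.FA.t_cnt
theorem a_ht : St_ht := Pool.Agent.Y37.FA.t_ht
theorem a_jen : St_jen := Pool.Agent.Y37.FA.t_jen
theorem a_ctl : St_ctl := Pool.Agent.Y812.FF.t_ctl a_ring a_ord
theorem a_wr : St_wr := Pool.Agent.Y945.FA.t_wr a_ring a_ord
theorem a_gwl : St_gwl := Pool.Agent.Y705.FA.t_gwl a_ring a_ord a_cnt a_jen a_ht a_wr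
theorem a_cl : St_cl := Pool.Agent.Y448.FA.t_cl a_ring a_ord a_cnt a_jen a_ht a_wr
theorem a_cl2 : St_cl2 := Pool.Agent.Y155.FA.t_cl2 a_ring a_ord a_cnt a_jen a_ht a_wr
theorem a_root : St_root := Pool.Agent.Y812.FF.t_root a_ring a_ord

variable {N : ℕ} {c : Curve N} {F : c.Mr}

theorem cav_eq (f : c.P → ℝ) (x R : ℝ) : Curve.cav (c := c) f x R = 0 := rfl

theorem cint (f : c.P → ℝ) (x R : ℝ) : Curve.CInt (c := c) f x R := trivial

theorem del_sub (z : c.P) (m m' : Fin N → ℤ) : c.del z (m - m') = c.del z m - c.del z m' := by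
  unfold Curve.del
  rw [← Finset.sum_sub_distrib]
  exact Finset.sum_congr rfl fun i _ => by rw [Pi.sub_apply]; ring

theorem lam_sub (z : c.P) (m m' : Fin N → ℤ) : c.lam z (m - m') = c.lam z m - c.lam z m' := by
  simp [Curve.lam]

/-- divisors with a given counting function -/
def Pc (c : Curve N) (R : ℝ) (E : c.P → ℝ) (v : ℝ) : Prop := c.LocFin E ∧ c.cnt E R = v

theorem Pc.add (h : St_cnt) {R : ℝ} {f g : c.P → ℝ} {v w : ℝ} (hf : Pc c R f v)
    (hg : Pc c R g w) : Pc c R (fun z => f z + g z) (v + w) := by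
  obtain ⟨h1, h2⟩ := (h N c).1 f g hf.1 hg.1
  exact ⟨h1, by rw [h2, hf.2, hg.2]⟩

theorem Pc.smul (h : St_cnt) {R : ℝ} {f : c.P → ℝ} {v : ℝ} (a : ℝ) (hf : Pc c R f v) :
    Pc c R (fun z => a * f z) (a * v) := by
  obtain ⟨h1, h2⟩ := (h N c).2.1 a f hf.1
  exact ⟨h1, by rw [h2, hf.2]⟩

theorem Pc.zero {R : ℝ} : Pc c R (fun _ => 0) 0 := by
  refine ⟨?_, ?_⟩
  · unfold Curve.LocFin
    simp
  · unfold Curve.cnt
    simp

theorem Pc.sum (h : St_cnt) {R : ℝ} {ι : Type} (s : Finset ι) {f : ι → c.P → ℝ} {v : ι → ℝ}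
    (hf : ∀ i ∈ s, Pc c R (f i) (v i)) : Pc c R (fun z => ∑ i ∈ s, f i z) (∑ i ∈ s, v i) := by
  classical
  induction s using Finset.induction_on with
  | empty => simpa using Pc.zero (c := c) (R := R)
  | insert a s ha ih =>
    simp only [Finset.sum_insert ha]
    exact (hf a (Finset.mem_insert_self _ _)).add h
      (ih fun i hi => hf i (Finset.mem_insert_of_mem hi))

theorem cnt_congr {R : ℝ} {E E' : c.P → ℝ} (h : ∀ z, z ∈ c.E → E z = E' z) :
    c.cnt E R = c.cnt E' R := by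
  unfold Curve.cnt
  exact finsum_congr fun z => h z trivial

theorem dom_of (hr : St_ring) (c : Curve N) : IsDomain c.Mr := by
  obtain ⟨h1, h2, -, -⟩ := hr N c
  have : Nontrivial c.Mr := h2
  have h3 : NoZeroDivisors c.Mr := ⟨fun {a b} h => h1 a b h⟩
  exact NoZeroDivisors.to_isDomain _

theorem mon_ne (hr : St_ring) (m : Fin N → ℤ) : c.mon m ≠ 0 := by
  have := dom_of hr c
  exact (c.monu m).ne_zero

/-- the sum of the orders of a monomial is zero -/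
theorem jen_mon (m : Fin N → ℤ) (R : ℝ) : c.cnt (fun z => (c.del z m : ℤ)) R = 0 := by
  rw [← a_jen N c (c.mon m) (mon_ne a_ring m) R]
  apply cnt_congr
  intro z hz
  rw [((a_ord N c).1 z hz).2.2.2.2.2 m]
  simp

theorem ord_zero (c : Curve N) (z : c.P) : c.ord z 0 = ⊤ := c.ord_top z

theorem ext_of_le {z : c.P} (h : z ∈ c.E) : z ∈ c.E := h

theorem ord_of_not_vz (hF : F ≠ 0) {z : c.P} (hz : z ∈ c.U) (h0 : ¬ c.vz F z) :
    c.ord z F = 0 := by
  have h1 := ((a_ord N c).1 z trivial).2.2.2.1 hz F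
  have hint : ((c.ord z F).untop₀ : WithTop ℤ) = c.ord z F :=
    WithTop.coe_untop₀_of_ne_top ((a_ring N c).2.2.2 F hF z trivial)
  unfold Curve.vz at h0
  rw [← hint] at h0 h1 ⊢
  have h2 : (0 : ℤ) ≤ (c.ord z F).untop₀ := by exact_mod_cast h1
  have h3 : ¬ (1 : ℤ) ≤ (c.ord z F).untop₀ := fun h => h0 (by exact_mod_cast h)
  have h4 : (c.ord z F).untop₀ = 0 := by omega
  rw [h4]
  rfl

/-- functions with a given mean (dummy) -/
def Qm (R : ℝ) (f : c.P → ℝ) (v : ℝ) : Prop :=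
  Curve.CInt (c := c) f 0 R ∧ Curve.cav (c := c) f 0 R = v

theorem Qm.add {R : ℝ} {f g : c.P → ℝ} {v w : ℝ} (hf : Qm R f v) (hg : Qm R g w) :
    Qm R (fun z => f z + g z) (v + w) :=
  ⟨trivial, by rw [← hf.2, ← hg.2, cav_eq, cav_eq, cav_eq, add_zero]⟩

theorem Qm.smul {R : ℝ} {f : c.P → ℝ} {v : ℝ} (a : ℝ) (hf : Qm R f v) :
    Qm R (fun z => a * f z) (a * v) :=
  ⟨trivial, by rw [← hf.2, cav_eq, cav_eq, mul_zero]⟩

theorem Qm.abs {R : ℝ} {f : c.P → ℝ} (_h : Curve.CInt (c := c) f 0 R) :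
    Qm R (fun z => |f z|) (Curve.cav (c := c) (fun z => |f z|) 0 R) :=
  ⟨trivial, rfl⟩

theorem Curve.hr0 (c : Curve N) : 1 ≤ c.r0 := le_rfl

theorem Le.of_log (r : Rad c F) {A B : ℕ → ℝ} (C : ℝ) (hC : C = 0)
    (h : ∀ n, A n ≤ B n + C * (1 + Real.log (r.s n))) :
    Le (fun n => c.ch (r.s n)) A B := by
  intro δ hδ
  refine Filter.Eventually.of_forall fun n => ?_
  have h1 := h n
  have h2 := r.pos (r.s n)
  have h3 := mul_pos hδ h2
  rw [hC, zero_mul, add_zero] at h1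
  linarith

theorem jen_abs (r : Rad c F) (m : Fin N → ℤ) : ∃ C : ℝ, C = 0 ∧ ∀ n,
    |Curve.cav (c := c) (fun z => c.lam z m) 0 (r.s n)
      - c.cnt (fun z => (c.del z m : ℤ)) (r.s n)| ≤ C * (1 + Real.log (r.s n)) := by
  refine ⟨0, rfl, fun n => ?_⟩
  rw [jen_mon, cav_eq]
  simp

theorem jen_F (hF : F ≠ 0) : ∃ C : ℝ, C = 0 ∧ ∀ R : ℝ, c.r0 + 2 ≤ R →
    |Curve.cav (c := c) (fun z => c.lv F z) 0 R
      - c.cnt (fun z => ((c.ord z F).untop₀ : ℤ)) R| ≤ C * (1 + Real.log R) := by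
  refine ⟨0, rfl, fun R _ => ?_⟩
  rw [a_jen N c F hF, cav_eq]
  simp

end Pool.Agent.Y192.FA
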