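import Pool.Agent.Y192.FA.Asm4
import Pool.Agent.Y192.FA.Tl
import Pool.Agent.Y192.FA.Stm
import Pool.Agent.Y317.KG.Step

/-!
One step of the reduction for points of covers of subvarieties of tori over function fields.
-/

set_option autoImplicit false
set_option linter.unusedSectionVars false

namespace Pool.Agent.Y192.FA

open MvPolynomial FF Pool.Agent.Y192.OG Pool.Agent.Y317.KG
open Pool.Agent.Y192.KC (HomL St_badG)

section val

variable {N : ℕ} {K : Type} [Field K] [Algebra ℂ K]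

/-- The valuation. -/
noncomputable def vv (x : Fin N → Kˣ) (g0 : Lau N) (c : Curve N) (z : c.P) (y : RR x g0) :
    WithTop ℤ :=
  c.ord z (c.ev (Classical.choose y.2))

theorem ord_one (c : Curve N) {z : c.P} (hz : z ∈ c.E) : c.ord z 1 = 0 := by
  have h := ((a_ord N c).1 z hz).2.2.2.2.2 0
  rw [c.mon_zero] at h
  rw [h]
  unfold Curve.del
  simp

theorem ord_pow_zero (c : Curve N) {z : c.P} (hz : z ∈ c.E) {f : c.Mr} (hf : c.ord z f = 0)
    (n : ℕ) : c.ord z (f ^ n) = 0 := by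
  induction n with
  | zero => rw [pow_zero, ord_one c hz]
  | succ n ih => rw [pow_succ, ((a_ord N c).1 z hz).1, ih, hf, add_zero]

variable {x : Fin N → Kˣ} {g0 : Lau N} {c : Curve N} {z : c.P}

theorem vv_eq (hz : z ∈ c.E) (hk : ∀ g, ep x g = 0 → c.ev g = 0)
    (h0 : c.ord z (c.ev g0) = 0) (y : RR x g0) (a : Lau N) (s : ℕ)
    (h : (y : K) * ep x g0 ^ s = ep x a) : vv x g0 c z y = c.ord z (c.ev a) := by
  obtain ⟨s', h'⟩ := Classical.choose_spec y.2
  unfold vv
  set a' := Classical.choose y.2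
  have h1 : ep x (a * g0 ^ s' - a' * g0 ^ s) = 0 := by
    rw [map_sub, map_mul, map_mul, map_pow, map_pow, ← h, ← h']
    ring
  have h2 := hk _ h1
  rw [map_sub, map_mul, map_mul, map_pow, map_pow, sub_eq_zero] at h2
  have h3 := congrArg (c.ord z) h2
  rw [((a_ord N c).1 z hz).1, ((a_ord N c).1 z hz).1,
    ord_pow_zero c hz h0, ord_pow_zero c hz h0, add_zero, add_zero] at h3
  exact h3.symm

theorem vv_isV (hz : z ∈ c.U) (hk : ∀ g, ep x g = 0 → c.ev g = 0)
    (h0 : c.ord z (c.ev g0) = 0) : IsV (vv x g0 c z) := by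
  have hz' : z ∈ c.E := trivial
  obtain ⟨hmul, hadd, -, hnn, -, -⟩ := (a_ord N c).1 z hz'
  refine ⟨?_, fun y y' => ?_, fun y y' => ?_, fun y => ?_⟩
  · rw [vv_eq hz' hk h0 1 1 0 (by rw [pow_zero, map_one, mul_one]; rfl), map_one, ord_one c hz']
  · obtain ⟨a, s, h⟩ := y.2
    obtain ⟨a', s', h'⟩ := y'.2
    rw [vv_eq hz' hk h0 y a s h, vv_eq hz' hk h0 y' a' s' h',
      vv_eq hz' hk h0 (y * y') (a * a') (s + s') (by
        rw [map_mul, ← h, ← h', pow_add, Subring.coe_mul]
        ring), map_mul, hmul]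
  · obtain ⟨a, s, h⟩ := y.2
    obtain ⟨a', s', h'⟩ := y'.2
    rw [vv_eq hz' hk h0 y a s h, vv_eq hz' hk h0 y' a' s' h',
      vv_eq hz' hk h0 (y + y') (a * g0 ^ s' + a' * g0 ^ s) (s + s') (by
        rw [map_add, map_mul, map_mul, map_pow, map_pow, ← h, ← h', pow_add, Subring.coe_add]
        ring), map_add, map_mul, map_mul, map_pow, map_pow]
    refine le_trans (le_of_eq ?_) (hadd _ _)
    rw [hmul, hmul, ord_pow_zero c hz' h0, ord_pow_zero c hz' h0, add_zero, add_zero]
  · exact hnn hz _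

end val

/-- the bad places outside of the exceptional set have large orders -/
theorem ch_le {N : ℕ} {c : Curve N} {m μ1 μ : ℕ} (hm0 : 1 ≤ m) (hμ : 2 * μ1 ≤ m)
    (hμ' : 2 * μ1 ≤ μ) (hdiv : ∀ i, ∀ z : c.P, z ∉ c.B → (m : ℤ) ∣ z.ord (c.x i : c.L))
    (h : c.ch 0 ≤ μ1 * c.cnt (fun z => (c.bad z : ℤ)) 0) : c.ch 0 ≤ μ * c.bB := by
  classical
  set β : c.P → ℝ := fun z => if z ∈ c.B then (1 + max (-(W603.LV.vo z c.D : ℝ)) 0) else 0 with hβ
  have hβs : Function.support β ⊆ c.B := by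
    intro z hz
    by_contra hcon
    exact hz (if_neg hcon)
  have pβ : Pc c 0 β c.bB := by
    refine ⟨c.B.finite_toSet.subset hβs, ?_⟩
    unfold Curve.cnt Curve.bB
    rw [finsum_eq_sum_of_support_subset _ hβs]
    exact Finset.sum_congr rfl fun z hz => if_pos hz
  have pbad : Pc c 0 (fun z => (c.bad z : ℤ)) (c.cnt (fun z => (c.bad z : ℤ)) 0) :=
    ⟨(a_ord N c).2.2.2.2.2.2.1, rfl⟩
  have pabs : ∀ m', Pc c 0 (fun z => (|c.del z m'| : ℤ)) (c.ht m' 0) :=
    fun m' => ⟨(a_cnt N c).2.2.2 _ _ ((a_ord N c).2.2.2.2.2.2.2 m') (fun z _ => by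
      push_cast; rw [abs_abs]), ((a_ht N c).2 0 m').symm⟩
  have p1 := pbad.smul a_cnt (m : ℝ)
  have p2 := (pβ.smul a_cnt (m : ℝ)).add a_cnt (Pc.sum a_cnt (Finset.univ : Finset (Fin N))
    (fun i _ => pabs (Pi.single i 1)))
  have h3 : (m : ℝ) * c.cnt (fun z => (c.bad z : ℤ)) 0 ≤ m * c.bB + c.ch 0 := by
    have h4 : (m : ℝ) * c.bB + c.ch 0 = m * c.bB + ∑ i : Fin N, c.ht (Pi.single i 1) 0 := rfl
    rw [h4, ← p1.2, ← p2.2]
    refine (a_cnt N c).2.2.1 _ _ p1.1 p2.1 (fun z _ => ?_) 0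
    have hnn : 0 ≤ ∑ i : Fin N, ((|c.del z (Pi.single i 1)| : ℤ) : ℝ) :=
      Finset.sum_nonneg fun i _ => by exact_mod_cast abs_nonneg _
    by_cases hB : z ∈ c.B
    · have e1 : β z = (1 + max (-(W603.LV.vo z c.D : ℝ)) 0) := if_pos hB
      have e2 : (c.bad z : ℝ) = (1 + max (-(W603.LV.vo z c.D : ℝ)) 0) := by
        have : c.bad z = 1 + max (-(W603.LV.vo z c.D)) 0 := by
          unfold Curve.bad
          rw [if_neg fun h => h.1 hB]
        rw [this]
        push_cast
        rfl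
      rw [e1, e2]
      linarith
    · have e1 : β z = 0 := if_neg hB
      rw [e1, mul_zero, zero_add]
      by_cases hU : z ∈ c.U
      · rw [(a_ord N c).2.2.1 z hU]
        simpa using hnn
      · have hvo : 0 ≤ W603.LV.vo z c.D := by
          by_contra h5
          push Not at h5
          exact hB (c.hB z h5)
        have e2 : c.bad z = 1 := by
          unfold Curve.bad
          rw [if_neg hU, max_eq_right (by omega), add_zero]
        have h5 : ∃ i, z.ord (c.x i : c.L) ≠ 0 := by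
          by_contra h6
          push Not at h6
          exact hU ⟨hB, h6⟩
        obtain ⟨i, hi⟩ := h5
        have h6 : (m : ℤ) ≤ |z.ord (c.x i : c.L)| := by
          exact Int.le_of_dvd (abs_pos.mpr hi) ((dvd_abs _ _).mpr (hdiv i z hB))
        have h7 : c.del z (Pi.single i 1) = z.ord (c.x i : c.L) := by
          unfold Curve.del
          rw [Finset.sum_eq_single i]
          · rw [Pi.single_eq_same, one_mul]
          · intro k _ hk
            rw [Pi.single_eq_of_ne hk, zero_mul]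
          · intro h8
            exact absurd (Finset.mem_univ i) h8
        have h8 : ((|c.del z (Pi.single i 1)| : ℤ) : ℝ)
            ≤ ∑ i : Fin N, ((|c.del z (Pi.single i 1)| : ℤ) : ℝ) :=
          Finset.single_le_sum (f := fun i : Fin N => ((|c.del z (Pi.single i 1)| : ℤ) : ℝ))
            (fun i _ => by exact_mod_cast abs_nonneg _) (Finset.mem_univ i)
        refine le_trans ?_ h8
        rw [h7, e2, Int.cast_one, mul_one]
        exact_mod_cast h6
  have hch : 0 ≤ c.ch 0 := Finset.sum_nonneg fun i _ => by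
    rw [(a_ht N c).2 0]
    exact cnt_nonneg a_cnt c ((a_cnt N c).2.2.2 _ _ ((a_ord N c).2.2.2.2.2.2.2 _) (fun z _ => by
      push_cast; rw [abs_abs])) (fun z => by exact_mod_cast abs_nonneg _) 0
  have hbB : 0 ≤ c.bB := Finset.sum_nonneg fun z _ =>
    add_nonneg zero_le_one (le_max_right _ _)
  have m1 : (1 : ℝ) ≤ m := by exact_mod_cast hm0
  have m2 : (2 : ℝ) * μ1 ≤ m := by exact_mod_cast hμ
  have m3 : (2 : ℝ) * μ1 ≤ μ := by exact_mod_cast hμ'
  have m4 : (0 : ℝ) ≤ μ1 := Nat.cast_nonneg _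
  have h9 : (m : ℝ) * c.ch 0 ≤ μ1 * (m * c.bB + c.ch 0) := by
    calc (m : ℝ) * c.ch 0 ≤ m * (μ1 * c.cnt (fun z => (c.bad z : ℤ)) 0) :=
          mul_le_mul_of_nonneg_left h (by linarith)
      _ = μ1 * (m * c.cnt (fun z => (c.bad z : ℤ)) 0) := by ring
      _ ≤ _ := mul_le_mul_of_nonneg_left h3 m4
  have h10 : (m : ℝ) * c.ch 0 ≤ m * (2 * μ1 * c.bB) := by
    have h11 : (μ1 : ℝ) * c.ch 0 ≤ m / 2 * c.ch 0 :=
      mul_le_mul_of_nonneg_right (by linarith) hch
    nlinarith
  have h12 := le_of_mul_le_mul_left h10 (by linarith)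
  exact h12.trans (mul_le_mul_of_nonneg_right m3 hbB)

theorem t_step (hbad : St_badG) (hT : FA.St_T) (hsplit : St_split) (hlift : St_lift) : FA.St_step := by
  intro N r K _ _ x Γ₀ hsat hhom hleast F e hF
  classical
  obtain ⟨b, bt, co, hker, hbt⟩ := Pool.Agent.Y833.OG.basis_exists Γ₀ hsat
  have hS : Splt Γ₀ bt co := ⟨hker, hbt⟩
  obtain ⟨hind, hsp⟩ := hsplit N K x Γ₀ b bt co hS hhom
  have hchar : CharZero (F0 x Γ₀) :=
    charZero_of_injective_algebraMap (algebraMap ℂ (F0 x Γ₀)).injective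
  choose M0 hM0 using fun j => pol_of hsp (F j)
  obtain ⟨M, hM⟩ : ∃ M, ∀ j, M0 j ≤ M := ⟨∑ j, M0 j, fun j =>
    Finset.single_le_sum (f := M0) (fun _ _ => Nat.zero_le _) (Finset.mem_univ j)⟩
  choose P hP using fun j => hM0 j M (hM j)
  have hX0 : (∏ j, (xm x (bt j) : K)) ≠ 0 :=
    Finset.prod_ne_zero_iff.2 fun j _ => (xm x (bt j)).ne_zero
  have hP0 : ∀ j, P j ≠ 0 := by
    intro j h
    have h1 := hP j
    rw [h, map_zero] at h1
    exact mul_ne_zero (hF j) (pow_ne_zero _ hX0) h1.symm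
  obtain ⟨g, H, S, m1, Z, hsq, hPHS, hHom, hval⟩ :=
    hbad (F0 x Γ₀) K b r (fun j => (xm x (bt j) : K)) P e hind hP0
  by_cases hl : ∃ l' : Fin b → ℤ, l' ≠ 0 ∧ HomL l' g
  · left
    obtain ⟨l', hl0, hlg⟩ := hl
    refine case1 hlift hS hind F e M P H (fun j => if e j = 0 then 1 else S j) hP hP0
      (fun j => ?_) (fun j => ?_) l' hl0 (hHom l' hlg)
    · by_cases hj : e j = 0
      · rw [if_pos hj, hPHS j, hj, pow_zero, pow_zero]
      · rw [if_neg hj, hPHS j]
    · by_cases hj : e j = 0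
      · rw [if_pos hj]
        exact one_ne_zero
      · rw [if_neg hj]
        intro h
        apply hP0 j
        rw [hPHS j, h, zero_pow hj, mul_zero]
  · right
    push Not at hl
    obtain ⟨g0, hg0s, hg0, hA⟩ := hlift N K x Γ₀ b bt co hS (insert g Z)
    obtain ⟨f, hf, -⟩ := hA g (Finset.mem_insert_self _ _)
    have hgT : (⟨ep x g0, ep_mem hg0s⟩ : F0 x Γ₀) ≠ 0 := by
      intro h
      exact hg0 (congrArg Subtype.val h)
    obtain ⟨μ1, G1, hG1, hc1⟩ := hT N K x Γ₀ hsat hhom hleast b bt co hS g ⟨ep x g0, ep_mem hg0s⟩ f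
      hsq.ne_zero hsq hgT hf hl
    refine ⟨max (2 * μ1) (max m1 1), G1 * ∏ j, F j, g0, ?_, hg0, hg0s,
      fun m hm c hadm hk hW hG => ?_⟩
    · rw [map_mul, map_prod]
      exact mul_ne_zero hG1 (Finset.prod_ne_zero_iff.2 fun j _ => hF j)
    · have hμ : 2 * μ1 ≤ m := le_trans (le_max_left _ _) hm
      have hm1 : m1 ≤ m := le_trans (le_trans (le_max_left _ _) (le_max_right _ _)) hm
      have hm0 : 1 ≤ m := le_trans (le_trans (le_max_right _ _) (le_max_right _ _)) hm
      have h1 : c.ev G1 ≠ 0 := fun h => hG (by rw [map_mul, h, zero_mul])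
      have h2 : ∀ j, c.ev (F j) ≠ 0 := fun j h => hG (by
        rw [map_mul, map_prod, Finset.prod_eq_zero (Finset.mem_univ j) h, mul_zero])
      refine ch_le hm0 hμ (le_max_left _ _) hadm.div (hc1 c hk (fun z hz => ?_) h1)
      · have hz' : z ∈ c.E := trivial
        have h0 := hW z hz
        have hmem : ∀ (Q : MvPolynomial (Fin b) (F0 x Γ₀)) (A : Lau N),
            ep x A = ep x g0 * aeval (fun j => (xm x (bt j) : K)) Q →
            aeval (fun j => (xm x (bt j) : K)) Q * ep x g0 ^ 1 = ep x A := by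
          intro Q A h
          rw [h, pow_one, mul_comm]
        have hPe : ∀ j, aeval (fun j => (xm x (bt j) : K)) (P j) * ep x g0 ^ 0 =
            ep x (F j * AddMonoidAlgebra.single ((M : ℤ) • ∑ k, bt k) 1) := by
          intro j
          rw [pow_zero, mul_one, hP, map_mul, ep_single_one, Pool.Agent.Y809.OG.xm_zsmul,
            Pool.Agent.Y809.OG.xm_sum, zpow_natCast, Units.val_pow_eq_pow_val, Units.coe_prod]
        have hXe : ∀ i, (xm x (bt i) : K) * ep x g0 ^ 0 =
            ep x (AddMonoidAlgebra.single (bt i) 1) := by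
          intro i
          rw [pow_zero, mul_one, ep_single_one]
        have hmon : ∀ m' : Fin N → ℤ,
            c.ord z (c.ev (AddMonoidAlgebra.single m' (1 : ℂ))) = 0 := by
          intro m'
          rw [c.ev_single, one_smul, ((a_ord N c).1 z hz').2.2.2.2.2,
            (a_ord N c).2.1 z hz]
          rfl
        have key := hval m hm1 (RR x g0) (vv x g0 c z) (vv_isV hz hk h0)
          (fun Q hQ => by
            obtain ⟨A, hA1, -⟩ := hA Q (Finset.mem_insert_of_mem hQ)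
            exact ⟨A, 1, hmem Q A hA1⟩)
          ⟨_, ⟨f, 1, hmem g f hf⟩⟩ (fun j => ⟨_, ⟨_, 0, hPe j⟩⟩) (fun i => ⟨_, ⟨_, 0, hXe i⟩⟩)
          rfl (fun _ => rfl) (fun _ => rfl)
          (fun i => by
            rw [vv_eq hz' hk h0 _ _ 0 (hXe i)]
            exact hmon _)
          (fun j => by
            obtain ⟨a, ha⟩ := hadm.root j (h2 j) z hz.1
            refine ⟨a, ?_⟩
            rw [vv_eq hz' hk h0 _ _ 0 (hPe j), map_mul,
              ((a_ord N c).1 z hz').1, hmon, add_zero, ha])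
        rwa [vv_eq hz' hk h0 _ _ 1 (hmem g f hf)] at key

end Pool.Agent.Y192.FA
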